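import Pool.Agent.Lib.MP_8bcb2e_ag.F.Spec
import Pool.Agent.Lib.MP_8bcb2e_ag.SepExists
import Pool.Agent.Lib.MP_8bcb2e_ag.Main

/-!
# The case of a curve (module Bas)
-/

set_option autoImplicit false

universe u

namespace Pool.Agent.Lib.MP_8bcb2e_ag.F

open KaehlerDifferential AlgebraicGeometry CategoryTheory Pool.Agent.Lib.MP_8bcb2e_ag.B

namespace BasAux

variable {k K : Type u} [Field k] [Field K] [Algebra k K]

/-- an extension field over which `K` is algebraic, in an intermediate field -/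
theorem algebraic_of_le {A B : IntermediateField k K} (h : A ≤ B) (hA : Algebra.IsAlgebraic A K) :
    Algebra.IsAlgebraic B K := by
  let _ : Algebra A B := (IntermediateField.inclusion h).toRingHom.toAlgebra
  have _ : IsScalarTower A B K := IsScalarTower.of_algebraMap_eq fun _ => rfl
  exact Algebra.IsAlgebraic.tower_top (K := A) B

/-- a transcendental element of a function field in one variable -/
theorem algebraic_adjoin [PerfectField k] [Algebra.EssFiniteType k K] {x : Fin 1 → K}
    (hx : IsDiffBasis k x) {c : K} (hc : Transcendental k c) :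
    Algebra.IsAlgebraic (IntermediateField.adjoin k {c}) K := by
  have hind : AlgebraicIndepOn k id ({c} : Set K) := by
    have h1 : AlgebraicIndependent k (fun i : ({c} : Set K) => (i : K)) :=
      (algebraicIndependent_singleton_iff (⟨c, rfl⟩ : ({c} : Set K))).mpr hc
    exact h1
  obtain ⟨s, hs, hs'⟩ := exists_isTranscendenceBasis_superset hind
  have hcard := card_transcendenceBasis sepExists_of hx hs'
  have hs1 : s = {c} := by
    rw [Nat.cast_one] at hcard
    obtain ⟨d, hd⟩ := Cardinal.mk_set_eq_one_iff.mp hcard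
    have hcs : c ∈ s := hs rfl
    rw [hd] at hcs
    rw [hd, hcs]
  have h2 := hs'.isAlgebraic_field
  rwa [Subtype.range_coe, hs1] at h2

end BasAux

open BasAux in
theorem t_Bas : S_Bas.{u} := by
  intro k K _ _ _ _ _ Ψ 𝒪 hΨ hM hV hT
  obtain ⟨ω₀, ω₁, c, h0, hc, h1, hreg⟩ := hT
  obtain ⟨O, hO, -⟩ := hM.complete ⊤ (fun c => trivial)
  obtain ⟨x, hx⟩ := hM.coord O hO
  obtain ⟨b, hb⟩ := hx.basis
  -- `F₀` is not zero
  have hF0 : Ψ (fun _ => ω₀) ≠ 0 := by
    have h2 : ω₀ = b.repr ω₀ 0 • D k K (x 0) := by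
      have h3 := b.sum_repr ω₀
      rw [Fin.sum_univ_one, hb] at h3
      exact h3.symm
    have h4 : b.repr ω₀ 0 ≠ 0 := by
      intro h5
      rw [h5, zero_smul] at h2
      exact h0 h2
    have h5 : (fun _ : Fin 1 => ω₀) = fun i => (fun _ : Fin 1 => b.repr ω₀ 0) i •
        (fun i : Fin 1 => D k K (x i)) i := by
      funext i
      rw [Subsingleton.elim i 0]
      exact h2
    rw [h5, Ψ.map_smul_univ, Fin.prod_univ_one, smul_eq_mul]
    exact mul_ne_zero h4 (psi_ne_zero Ψ hx.basis hΨ)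
  have hF1 : Ψ (fun _ => ω₁) = c * Ψ (fun _ => ω₀) := by
    have h5 : (fun _ : Fin 1 => ω₁) = fun i => (fun _ : Fin 1 => c) i •
        (fun _ : Fin 1 => ω₀) i := by
      funext i
      exact h1
    rw [h5, Ψ.map_smul_univ, Fin.prod_univ_one, smul_eq_mul]
  have hsec : ∀ ω : Ω[K⁄k], (∀ V : ValuationSubring K, (∀ a : k, algebraMap k K a ∈ V) →
      ω ∈ regDiff k V.toSubring) → Ψ (fun _ => ω) ∈ sections k Ψ 𝒪 1 := by
    intro ω hω P hP
    obtain ⟨V, rfl⟩ := hV P hP
    refine ⟨fun _ => ω, 1, fun _ => hω V (fun a => hM.base _ hP a), one_mem _, ?_⟩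
    rw [pow_one, one_mul]
  have hm0 := hsec ω₀ fun V h => (hreg V h).1
  have hm1 := hsec ω₁ fun V h => (hreg V h).2
  refine algebraic_of_le ?_ (algebraic_adjoin hx.basis hc)
  rw [IntermediateField.adjoin_le_iff, Set.singleton_subset_iff]
  refine IntermediateField.subset_adjoin k _ ⟨_, hm1, _, hm0, ?_⟩
  rw [hF1, mul_div_cancel_right₀ _ hF0]

end Pool.Agent.Lib.MP_8bcb2e_ag.F
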