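import Pool.Agent.Lib.MP_8bcb2e_ag.F.Spec

/-!
# The lattice `MR R` and coordinates of the base
-/

set_option autoImplicit false

universe u

namespace Pool.Agent.Lib.MP_8bcb2e_ag.F

open KaehlerDifferential AlgebraicGeometry CategoryTheory Pool.Agent.Lib.MP_8bcb2e_ag.B

namespace CppAux

theorem integral_mem {K : Type u} [Field K] (R : ValuationSubring K) (a : K)
    (ha : IsIntegral R.toSubring a) : a ∈ R.toSubring := by
  have h1 : IsIntegral R a := ha
  obtain ⟨y, hy⟩ := IsIntegrallyClosed.isIntegral_iff.1 h1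
  rw [← hy]
  exact y.2

theorem im_prod {E L : Type u} [Field E] [Field L] [Algebra E L] {d : ℕ} (w : Fin d → E)
    (β : Fin d → ℕ) : ∏ i, im E L w i ^ β i = algebraMap E L (∏ i, w i ^ β i) := by
  rw [map_prod]
  exact Finset.prod_congr rfl fun i _ => by rw [map_pow]; rfl

section

variable {k E L K : Type u} [Field k] [Field E] [Field L] [Field K] [Algebra k E]
  [Algebra k L] [Algebra k K] [Algebra E L] [Algebra E K] [Algebra L K] [IsScalarTower k E L]
  [IsScalarTower k E K] [IsScalarTower k L K] [IsScalarTower E L K] {p e d : ℕ}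
  (t : Tw k E L K p e d)

include t

theorem phi_E (b : E) : t.φ (algebraMap E K b) = algebraMap E L b ^ p ^ e := by
  apply (algebraMap L K).injective
  rw [t.coe, map_pow, ← IsScalarTower.algebraMap_apply E L K]

/-- `L` is spanned by the monomials of `w` over the `q`-th powers -/
theorem span_w [PerfectField k] [Fact p.Prime] [CharP k p] [Algebra.EssFiniteType k E]
    (h1 : S_PbIt.{u}) (w : Fin d → E) (hw : IsDiffBasis k w) (l : L) :
    ∃ a : (Fin d → Fin (p ^ e)) → K, l = ∑ β, t.φ (a β) * ∏ i, im E L w i ^ (β i : ℕ) := by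
  classical
  obtain ⟨c, hc⟩ := t.span l
  have h2 : ∀ α : Fin d → Fin (p ^ e), ∃ b : (Fin d → Fin (p ^ e)) → E,
      ∏ i, im E L t.z i ^ (α i : ℕ) =
        ∑ β, t.φ (algebraMap E K (b β)) * ∏ i, im E L w i ^ (β i : ℕ) := by
    intro α
    obtain ⟨b, hb⟩ := h1 k E p d w hw e (∏ i, t.z i ^ (α i : ℕ))
    refine ⟨b, ?_⟩
    rw [im_prod, hb, map_sum]
    refine Finset.sum_congr rfl fun β _ => ?_
    rw [phi_E t, im_prod, map_mul, map_pow]
  choose b hb using h2
  refine ⟨fun β => ∑ α, c α * algebraMap E K (b α β), ?_⟩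
  rw [hc]
  simp_rw [hb, map_sum, Finset.sum_mul, Finset.mul_sum, map_mul]
  rw [Finset.sum_comm]
  refine Finset.sum_congr rfl fun β _ => Finset.sum_congr rfl fun α _ => ?_
  ring

/-- the trace of monomials -/
theorem tau_mono [PerfectField k] [Fact p.Prime] [CharP k p] (h2 : S_Tau.{u}) (w : Fin d → E)
    (δ : Fin d → ℕ) (hδ : ∀ i, δ i + 2 ≤ 2 * p ^ e) :
    t.tau ((∏ i, im E L w i ^ δ i) * algebraMap E L (jac t.ΨE w)) =
      if ∀ i, δ i + 1 = p ^ e then algebraMap E K (jac t.ΨE w) else 0 := by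
  classical
  obtain ⟨-, hmul, hw, -⟩ := h2 k E L K p e d t
  set δ' : Fin d → ℕ := fun i => if δ i < p ^ e then δ i else δ i - p ^ e with hδ'
  set b : K := ∏ i, if δ i < p ^ e then 1 else algebraMap E K (w i) with hb
  have e1 : ∏ i, im E L w i ^ δ i = t.φ b * ∏ i, im E L w i ^ δ' i := by
    rw [hb, map_prod, ← Finset.prod_mul_distrib]
    refine Finset.prod_congr rfl fun i _ => ?_
    simp only [hδ']
    split_ifs with h
    · rw [map_one, one_mul]
    · rw [phi_E t]
      change algebraMap E L (w i) ^ δ i = algebraMap E L (w i) ^ p ^ e * algebraMap E L (w i) ^ (δ i - p ^ e)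
      rw [← pow_add]
      congr 1
      omega
  rw [e1, mul_assoc, hmul, hw w δ' (fun i => by
    simp only [hδ']
    have := hδ i
    split_ifs with h <;> omega)]
  by_cases hall : ∀ i, δ i + 1 = p ^ e
  · rw [if_pos hall, if_pos (fun i => by
      simp only [hδ']
      have := hall i
      rw [if_pos (by omega)]
      exact this)]
    have : b = 1 := by
      rw [hb]
      exact Finset.prod_eq_one fun i _ => if_pos (by have := hall i; omega)
    rw [this, one_mul]
  · rw [if_neg hall, if_neg, mul_zero]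
    intro hall'
    apply hall
    intro i
    have h3 := hall' i
    have h4 := hδ i
    simp only [hδ'] at h3
    split_ifs at h3 with h
    · exact h3
    · omega

end

end CppAux

open CppAux in
theorem t_Cpp (h1 : S_PbIt.{u}) (h2 : S_Tau.{u}) (h3 : S_MR.{u}) : S_Cpp.{u} := by
  classical
  intro k E L K _ _ _ _ _ _ _ _ _ _ _ _ _ _ _ p _ _ _ _ _ e d t R X hX w hw hwR y hy
  obtain ⟨hadd, hmul, -, -⟩ := h2 k E L K p e d t
  obtain ⟨m1, -, m3, -, -⟩ := h3 k E L K p e d t R.toSubring X hX (integral_mem R)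
  have hΨE : t.ΨE ≠ 0 := by
    intro h
    have := t.nE
    rw [jac, h] at this
    simp at this
  have hΨK : t.ΨK ≠ 0 := by
    intro h
    have := t.nK
    rw [jac, h] at this
    simp at this
  have hJ : jac t.ΨE w ≠ 0 := psi_ne_zero t.ΨE hw hΨE
  have hj : jac t.ΨK X ≠ 0 := psi_ne_zero t.ΨK hX.basis hΨK
  have hJK : algebraMap E K (jac t.ΨE w) ≠ 0 := by
    rw [Ne, map_eq_zero]; exact hJ
  have hJL : algebraMap E L (jac t.ΨE w) ≠ 0 := by
    rw [Ne, map_eq_zero]; exact hJ
  set q := p ^ e with hq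
  have hq0 : 0 < q := pow_pos (Nat.Prime.pos Fact.out) e
  set JL := algebraMap E L (jac t.ΨE w) with hJLdef
  set r := jac t.ΨK X / algebraMap E K (jac t.ΨE w) with hr
  have hr0 : r ≠ 0 := div_ne_zero hj hJK
  have hφr : t.φ r ≠ 0 := by rw [Ne, map_eq_zero]; exact hr0
  have hD : JL * t.φ r ≠ 0 := mul_ne_zero hJL hφr
  obtain ⟨a, ha⟩ := span_w t h1 w hw (y / (JL * t.φ r))
  have hy2 : y = ∑ β, t.φ (r * a β) * ((∏ i, im E L w i ^ (β i : ℕ)) * JL) := by
    have : y = (y / (JL * t.φ r)) * (JL * t.φ r) := (div_mul_cancel₀ y hD).symm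
    rw [this, ha, Finset.sum_mul]
    refine Finset.sum_congr rfl fun β _ => ?_
    rw [map_mul]
    ring
  have hmemw : ∀ β : Fin d → ℕ, algebraMap L K (∏ i, im E L w i ^ β i) ∈ R := by
    intro β
    rw [im_prod, ← IsScalarTower.algebraMap_apply E L K, map_prod]
    exact prod_mem fun i _ => by rw [map_pow]; exact pow_mem (hwR i) _
  have key : ∀ β, a β ∈ R := by
    intro β
    have s1 := m1 (∏ i, im E L w i ^ (q - 1 - (β i : ℕ))) (hmemw _) y hy
    have s2 := m3 _ s1
    obtain ⟨G, hG, hGe⟩ := (regularAt_iff t.ΨK hX 1 _).1 s2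
    have s3 : t.tau ((∏ i, im E L w i ^ (q - 1 - (β i : ℕ))) * y) = jac t.ΨK X * a β := by
      rw [hy2, Finset.mul_sum]
      let τ : L →+ K := AddMonoidHom.mk' t.tau hadd
      change τ _ = _
      rw [map_sum]
      change ∑ γ, t.tau _ = _
      have s4 : ∀ γ : Fin d → Fin (p ^ e), t.tau ((∏ i, im E L w i ^ (q - 1 - (β i : ℕ))) *
          (t.φ (r * a γ) * ((∏ i, im E L w i ^ (γ i : ℕ)) * JL))) =
          if γ = β then jac t.ΨK X * a β else 0 := by
        intro γ
        have e1 : (∏ i, im E L w i ^ (q - 1 - (β i : ℕ))) *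
          (t.φ (r * a γ) * ((∏ i, im E L w i ^ (γ i : ℕ)) * JL)) =
          t.φ (r * a γ) * ((∏ i, im E L w i ^ (q - 1 - (β i : ℕ) + (γ i : ℕ))) * JL) := by
          simp_rw [pow_add, Finset.prod_mul_distrib]
          ring
        rw [e1, hmul, tau_mono t h2 w _ (fun i => by
          have h4 := (β i).isLt
          have h5 := (γ i).isLt
          omega)]
        by_cases hγ : γ = β
        · subst hγ
          rw [if_pos (fun i => by have h4 := (γ i).isLt; omega), if_pos rfl, hr]
          field_simp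
        · rw [if_neg hγ, if_neg, mul_zero]
          intro hall
          apply hγ
          funext i
          apply Fin.ext
          have h4 := (β i).isLt
          have h5 := hall i
          omega
      rw [Finset.sum_congr rfl fun γ _ => s4 γ, Finset.sum_ite_eq' Finset.univ β]
      simp
    rw [s3, pow_one] at hGe
    have s5 : a β = G := by
      have : jac t.ΨK X * a β = jac t.ΨK X * G := by
        rw [hGe, mul_comm]
        rfl
      exact mul_left_cancel₀ hj this
    rw [s5]
    exact hG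
  refine ⟨y / (JL * t.φ r), ?_, (div_mul_cancel₀ y hD).symm⟩
  rw [ha, map_sum]
  refine sum_mem fun β _ => ?_
  rw [map_mul, t.coe]
  exact mul_mem (pow_mem (key β) _) (hmemw _)

end Pool.Agent.Lib.MP_8bcb2e_ag.F
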