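import Pool.Agent.Lib.MP_8bcb2e_ag.F.Spec
import Pool.Agent.Lib.MP_8bcb2e_ag.SchemeFin
import Pool.Agent.Lib.MP_8bcb2e_ag.SchemeCoord

/-!
# The local rings of a smooth curve are valuation rings
-/

set_option autoImplicit false

universe u

namespace Pool.Agent.Lib.MP_8bcb2e_ag.F

open KaehlerDifferential AlgebraicGeometry CategoryTheory Pool.Agent.Lib.MP_8bcb2e_ag.B

/-- The differentials of `k` over itself have the empty basis. -/
private theorem CurAux_basis (k : Type u) [Field k] (z : Fin 0 → k) : IsDiffBasis k z := by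
  have : Subsingleton Ω[k⁄k] :=
    KaehlerDifferential.subsingleton_of_surjective k k Function.surjective_id
  exact ⟨Module.Basis.empty _, fun i => i.elim0⟩

theorem t_Cur (h1 : S_Rk1.{u}) (h2 : S_Htr.{u}) : S_Cur.{u} := by
  rintro k _ _ X _ gX _ _ O ⟨x, rfl⟩
  let := functionFieldAlgebra gX
  have hs : Smooth gX := SmoothOfRelativeDimension.smooth 1 gX
  obtain ⟨hess, hloc⟩ := schemeFin_of k X gX
  obtain ⟨hk, hint⟩ := hloc x
  obtain ⟨y, hy⟩ := schemeCoord_of k X 1 gX x
  have hnoeth : IsLocallyNoetherian X := LocallyOfFiniteType.isLocallyNoetherian gX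
  have hn : IsNoetherianRing (localRing X x) := by
    have : IsNoetherianRing (X.presheaf.stalk x) := inferInstance
    exact isNoetherianRing_range (algebraMap (X.presheaf.stalk x) X.functionField)
  have hl : IsLocalRing (localRing X x) :=
    IsLocalRing.of_surjective' (algebraMap (X.presheaf.stalk x) X.functionField).rangeRestrict
      (RingHom.rangeRestrict_surjective _)
  have hfrac : ∀ a : X.functionField, ∃ b ∈ localRing X x, ∃ c ∈ localRing X x, c ≠ 0 ∧
      a = b / c := by
    intro a
    obtain ⟨b, c, hc, rfl⟩ := IsFractionRing.div_surjective (A := X.presheaf.stalk x) a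
    refine ⟨_, ⟨b, rfl⟩, _, ⟨c, rfl⟩, ?_, rfl⟩
    exact IsFractionRing.to_map_ne_zero_of_mem_nonZeroDivisors hc
  obtain ⟨V, hV⟩ := LocalSubring.exists_le_valuationSubring (LocalSubring.mk (localRing X x))
  obtain ⟨hle, hdom⟩ := hV
  have hdom' : ∀ b ∈ localRing X x, b⁻¹ ∈ V → b⁻¹ ∈ localRing X x := by
    intro b hb hbV
    by_cases hb0 : b = 0
    · rw [hb0, inv_zero]
      exact (localRing X x).zero_mem
    · have hu : IsUnit (Subring.inclusion hle ⟨b, hb⟩) := by
        refine isUnit_iff_exists_inv.2 ⟨⟨b⁻¹, hbV⟩, ?_⟩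
        exact Subtype.ext (mul_inv_cancel₀ hb0)
      obtain ⟨c, hc⟩ := isUnit_iff_exists_inv.1 (hdom.map_nonunit _ hu)
      have h3 : b * c.1 = 1 := congrArg Subtype.val hc
      rw [← eq_inv_of_mul_eq_one_right h3]
      exact c.2
  have halg : ∀ y : X.functionField, Transcendental k y →
      Algebra.IsAlgebraic (IntermediateField.adjoin k {y}) X.functionField := fun w hw =>
    h2 k k X.functionField 0 (fun i => i.elim0) y (CurAux_basis k _) hy.basis w hw
  by_cases htop : V = ⊤
  · refine ⟨V, le_antisymm ?_ hle⟩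
    intro a _
    obtain ⟨b, hb, c, hc, hc0, rfl⟩ := hfrac a
    rw [div_eq_mul_inv]
    refine (localRing X x).mul_mem hb (hdom' c hc ?_)
    rw [htop]
    exact ValuationSubring.mem_top _
  · exact ⟨V, h1 k X.functionField halg (localRing X x) V hn hk hfrac hint hle hdom' htop⟩

end Pool.Agent.Lib.MP_8bcb2e_ag.F
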