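import Pool.Agent.Lib.MP_8bcb2e_ag.F.Spec

/-!
# DPhi: differentials and the `q`-th power map
-/

set_option autoImplicit false

universe u

namespace Pool.Agent.Lib.MP_8bcb2e_ag.F

open KaehlerDifferential AlgebraicGeometry CategoryTheory Pool.Agent.Lib.MP_8bcb2e_ag.B

namespace DPhiAux

/-- The differentials of `L`, without the structure of a `k`-module. -/
def M (k L : Type u) [Field k] [Field L] [Algebra k L] : Type u := Ω[L⁄k]

noncomputable instance (k L : Type u) [Field k] [Field L] [Algebra k L] : AddCommGroup (M k L) :=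
  inferInstanceAs (AddCommGroup (Ω[L⁄k]))

noncomputable instance (k L : Type u) [Field k] [Field L] [Algebra k L] : Module L (M k L) :=
  inferInstanceAs (Module L (Ω[L⁄k]))

/-- The differential. -/
noncomputable def dd (k : Type u) {L : Type u} [Field k] [Field L] [Algebra k L] (a : L) : M k L :=
  D k L a

theorem dd_add (k : Type u) {L : Type u} [Field k] [Field L] [Algebra k L] (a b : L) :
    dd k (a + b) = dd k a + dd k b := map_add (D k L) a b

theorem dd_mul (k : Type u) {L : Type u} [Field k] [Field L] [Algebra k L] (a b : L) :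
    dd k (a * b) = a • dd k b + b • dd k a := (D k L).leibniz a b

theorem dd_alg (k : Type u) {L : Type u} [Field k] [Field L] [Algebra k L] (c : k) :
    dd k (algebraMap k L c) = 0 := (D k L).map_algebraMap c

theorem rel {k L K : Type u} [Field k] [Field L] [Field K] [Algebra k L] [Algebra k K]
    (φ : K →+* L) (hφ : ∀ c : k, dd k (φ (algebraMap k K c)) = 0) (n : ℕ) (x : Fin n → K) (a : K)
    (c : Fin n → K) (h : D k K a = ∑ i, c i • D k K (x i)) :
    dd k (φ a) = ∑ i, φ (c i) • dd k (φ (x i)) := by
  let iK : Module K (M k L) := Module.compHom (M k L) φ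
  let ik : Module k (M k L) := Module.compHom (M k L) (φ.comp (algebraMap k K))
  have hK : ∀ (b : K) (m : M k L), b • m = φ b • m := fun _ _ => rfl
  have hk : ∀ (b : k) (m : M k L), b • m = φ (algebraMap k K b) • m := fun _ _ => rfl
  have ht : IsScalarTower k K (M k L) := by
    refine ⟨fun b b' m => ?_⟩
    rw [hK, hk, hK, Algebra.smul_def, map_mul, mul_smul]
  let δ : Derivation k K (M k L) := Derivation.mk'
    { toFun := fun b => dd k (φ b)
      map_add' := fun b b' => by rw [map_add, dd_add]
      map_smul' := fun b b' => by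
        rw [RingHom.id_apply, hk, Algebra.smul_def, map_mul, dd_mul, hφ, smul_zero, add_zero] }
    (fun b b' => by
      change dd k (φ (b * b')) = b • dd k (φ b') + b' • dd k (φ b)
      rw [hK, hK, map_mul, dd_mul])
  have hδ : ∀ b, δ b = dd k (φ b) := fun _ => rfl
  have h1 := congrArg δ.liftKaehlerDifferential h
  rw [map_sum, Derivation.liftKaehlerDifferential_comp_D, hδ] at h1
  rw [h1]
  refine Finset.sum_congr rfl fun i _ => ?_
  rw [map_smul, Derivation.liftKaehlerDifferential_comp_D, hδ, hK]

end DPhiAux

theorem t_DPhi : S_DPhi.{u} := by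
  intro k E L K _ _ _ _ _ _ _ _ _ _ _ _ _ _ _ p _ _ e he φ hφ
  have hinj : Function.Injective (algebraMap L K) := (algebraMap L K).injective
  have hk : ∀ c : k, φ (algebraMap k K c) = algebraMap k L (c ^ p ^ e) := by
    intro c
    apply hinj
    rw [hφ, ← IsScalarTower.algebraMap_apply, map_pow]
  refine ⟨fun n x a c h => ?_, fun a => ?_⟩
  · refine DPhiAux.rel φ (fun c => ?_) n x a c h
    rw [hk]
    exact DPhiAux.dd_alg k _
  · have h1 : φ (algebraMap E K a) = (algebraMap E L a) ^ p ^ e := by
      apply hinj
      rw [hφ, map_pow, ← IsScalarTower.algebraMap_apply]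
    have : CharP L p := charP_of_injective_algebraMap (algebraMap k L).injective p
    rw [h1, Derivation.leibniz_pow, ← Nat.cast_smul_eq_nsmul L, Nat.cast_pow, CharP.cast_eq_zero,
      zero_pow (by omega), zero_smul]

end Pool.Agent.Lib.MP_8bcb2e_ag.F
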