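import Pool.Agent.Lib.MP_8bcb2e_ag.F.Spec
import Pool.Agent.Lib.MP_8bcb2e_ag.Basic

/-!
# Coordinates of the base below a valuation ring
-/

set_option autoImplicit false

universe u

namespace Pool.Agent.Lib.MP_8bcb2e_ag.F

open KaehlerDifferential AlgebraicGeometry CategoryTheory Pool.Agent.Lib.MP_8bcb2e_ag.B

theorem t_Dat : S_Dat.{u} := by
  intro k E K _ _ _ _ _ _ _ d ΨE 𝒪Z hΨ hM R hR
  have h1 : ∀ c : k, algebraMap k E c ∈ R.comap (algebraMap E K) := by
    intro c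
    rw [ValuationSubring.mem_comap, ← IsScalarTower.algebraMap_apply k E K]
    exact hR c
  obtain ⟨O, hO, hOR⟩ := hM.complete _ h1
  obtain ⟨w, hw⟩ := hM.coord O hO
  refine ⟨w, hw.basis, fun i => ?_, fun m s hs => ?_⟩
  · have h2 : w i ∈ R.comap (algebraMap E K) := hOR (hw.mem i)
    rwa [ValuationSubring.mem_comap] at h2
  · obtain ⟨G, hG, h2⟩ := (regularAt_iff ΨE hw m s).1 (hs O hO)
    have hJ : jac ΨE w ≠ 0 := psi_ne_zero ΨE hw.basis hΨ
    have h3 : s / jac ΨE w ^ m = G := by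
      rw [h2]
      exact mul_div_cancel_right₀ _ (pow_ne_zero m hJ)
    have h4 : G ∈ R.comap (algebraMap E K) := hOR hG
    rw [h3]
    rwa [ValuationSubring.mem_comap] at h4

end Pool.Agent.Lib.MP_8bcb2e_ag.F
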