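import Pool.Agent.Lib.MP_8bcb2e_ag.F.Spec

/-!
# The last coefficient of a differential is a Jacobian
-/

set_option autoImplicit false

universe u

namespace Pool.Agent.Lib.MP_8bcb2e_ag.F

open KaehlerDifferential AlgebraicGeometry CategoryTheory Pool.Agent.Lib.MP_8bcb2e_ag.B

theorem t_Der : S_Der.{u} := by
  intro k K _ _ _ d ΨK z x hB hj y
  obtain ⟨b, hb⟩ := hB
  set v : Fin (d + 1) → Ω[K⁄k] := fun i => D k K (snc z x i) with hv
  set r : Fin (d + 1) → K := fun i => b.repr (D k K y) i with hr
  have hy : D k K y = ∑ i, r i • v i := by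
    rw [← b.sum_repr (D k K y)]
    refine Finset.sum_congr rfl fun i _ => ?_
    rw [hb i]
  let T : Ω[K⁄k] →ₗ[K] K := ΨK.toMultilinearMap.toLinearMap v (Fin.last d)
  have hT : ∀ m, T m = ΨK (Function.update v (Fin.last d) m) := fun m => rfl
  have h1 : ∀ i, i ≠ Fin.last d → T (v i) = 0 := by
    intro i hi
    rw [hT]
    exact ΨK.map_update_self v (Ne.symm hi)
  have h2 : T (v (Fin.last d)) = 1 := by
    rw [hT, Function.update_eq_self]
    exact hj
  have h3 : T (D k K y) = jac ΨK (snc z y) := by
    rw [hT]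
    unfold jac
    congr 1
    funext i
    refine Fin.lastCases ?_ (fun i => ?_) i
    · rw [Function.update_self, snc_last]
    · rw [Function.update_of_ne (Fin.castSucc_lt_last i).ne, hv]
      simp only [snc_castSucc]
  have h4 : T (D k K y) = r (Fin.last d) := by
    rw [hy, map_sum, Finset.sum_eq_single (Fin.last d)]
    · rw [map_smul, h2, smul_eq_mul, mul_one]
    · intro i _ hi
      rw [map_smul, h1 i hi, smul_zero]
    · intro h
      exact absurd (Finset.mem_univ _) h
  refine ⟨fun i => r i.castSucc, ?_⟩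
  rw [← h3, h4, hy, Fin.sum_univ_castSucc]
  simp only [hv, snc_castSucc, snc_last]

end Pool.Agent.Lib.MP_8bcb2e_ag.F
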