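import Pool.Agent.Lib.MP_8bcb2e_ag.F.Spec
import Pool.Agent.Lib.MP_8bcb2e_ag.Basic

/-!
# Theorem F: the descended forms are sections
-/

set_option autoImplicit false

universe u

namespace Pool.Agent.Lib.MP_8bcb2e_ag.F

open KaehlerDifferential AlgebraicGeometry CategoryTheory Pool.Agent.Lib.MP_8bcb2e_ag.B

namespace DsGAux

theorem reg_mul {k K : Type u} [Field k] [Field K] [Algebra k K] {n : ℕ}
    (Ψ : Ω[K⁄k] [⋀^Fin n]→ₗ[K] K) {m : ℕ} {O : Subring K} {a F : K} (ha : a ∈ O)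
    (hF : RegularAt k Ψ m O F) : RegularAt k Ψ m O (a * F) := by
  obtain ⟨θ, G, hθ, hG, rfl⟩ := hF
  exact ⟨θ, a * G, hθ, mul_mem ha hG, by rw [mul_assoc]⟩

end DsGAux

open DsGAux

theorem t_DsG (h1 : S_DsL.{u}) (h2 : S_Hrt.{u}) : S_DsG.{u} := by
  intro k E L K _ _ _ _ _ _ _ _ _ _ _ _ _ _ _ p _ _ _ _ _ e d t u G 𝒪Z 𝒪X W s r hM hD hW hs0
    hs hus y b₁ hy α hα hq F hF
  have hΨK : t.ΨK ≠ 0 := by
    intro h
    have h3 := t.nK
    rw [h] at h3
    exact one_ne_zero (h3.symm.trans rfl)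
  have hΨE : t.ΨE ≠ 0 := by
    intro h
    have h3 := t.nE
    rw [h] at h3
    exact one_ne_zero (h3.symm.trans rfl)
  have hsum : ∑ i, α i ≤ d * p ^ e := by
    have h3 : ∑ i, α i ≤ ∑ _i : Fin d, p ^ e := Finset.sum_le_sum fun i _ => (hα i).le
    simpa using h3
  set Y : K := algebraMap E K (s ^ (d + 2)) *
      t.tau (algebraMap E L ((∏ i, u i ^ α i) * y / s ^ (d + 2)) * F) with hY
  have key : ∀ R : ValuationSubring K, R.toSubring ∈ 𝒪X → ∃ (g : E) (Y' : K),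
      algebraMap E K g ∈ R ∧ (∀ i, algebraMap E K (u i * g) ∈ R) ∧
      RegularAt k t.ΨK (1 + r * (d + 2)) R.toSubring Y' ∧ Y = algebraMap E K g * Y' := by
    intro R hR
    obtain ⟨X, hX⟩ := hM.coord R.toSubring hR
    obtain ⟨hwb, hwm, hws⟩ := hW R hR
    have hJ : jac t.ΨE (W R) ≠ 0 := psi_ne_zero t.ΨE hwb hΨE
    have hg := hws r s hs
    have hug : ∀ i, algebraMap E K (u i * (s / jac t.ΨE (W R) ^ r)) ∈ R := by
      intro i
      rw [← mul_div_assoc]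
      exact hws r _ (hus i)
    have hyg : algebraMap E K (y * (s / jac t.ΨE (W R) ^ r) ^ b₁) ∈ R := by
      have h3 := hws (b₁ * r) _ hy
      rw [div_pow, ← pow_mul, ← mul_div_assoc, mul_comm r b₁]
      exact h3
    set g : E := s / jac t.ΨE (W R) ^ r with hgdef
    have hsg : s = g * jac t.ΨE (W R) ^ r := (div_mul_cancel₀ s (pow_ne_zero r hJ)).symm
    have ha : algebraMap E K (g ^ ((∑ i, α i) + b₁) * ((∏ i, u i ^ α i) * y)) ∈ R := by
      have h3 : g ^ ((∑ i, α i) + b₁) * ((∏ i, u i ^ α i) * y) =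
          (∏ i, (u i * g) ^ α i) * (y * g ^ b₁) := by
        simp only [mul_pow, Finset.prod_mul_distrib, Finset.prod_pow_eq_pow_sum, pow_add]
        ring
      rw [h3, map_mul, map_prod]
      refine mul_mem (prod_mem fun i _ => ?_) hyg
      rw [map_pow]
      exact pow_mem (hug i) _
    have hle : (d + 1) * (1 + r * (d + 2)) + (d + 2) + ((∑ i, α i) + b₁) ≤
        (d + 1) * p ^ e := by
      have h3 : (d + 1) * p ^ e = d * p ^ e + p ^ e := by ring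
      rw [h3]
      omega
    obtain ⟨Y', hY', hYY⟩ := h1 k E L K p e d t R X hX (W R) hwb hwm r (d + 2)
      ((d + 1) * (1 + r * (d + 2))) (d + 1) ((∑ i, α i) + b₁) s g ((∏ i, u i ^ α i) * y) F hs0
      hsg hg ha (hF.2 R hR) hle (Nat.le_succ _)
    refine ⟨g, Y', hg, hug, hY', ?_⟩
    have h4 : d + 2 - (d + 1) = 1 := by omega
    rw [h4, pow_one] at hYY
    exact hYY
  refine ⟨h2 k K (d + 1) t.ΨK 𝒪X hΨK hM hD _ _ fun R hR => ?_, fun i =>
    h2 k K (d + 1) t.ΨK 𝒪X hΨK hM hD _ _ fun R hR => ?_⟩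
  · obtain ⟨g, Y', hg, -, hY', hYY⟩ := key R hR
    rw [hYY]
    exact reg_mul t.ΨK hg hY'
  · obtain ⟨g, Y', -, hug, hY', hYY⟩ := key R hR
    rw [hYY, ← mul_assoc, ← map_mul]
    exact reg_mul t.ΨK (hug i) hY'

end Pool.Agent.Lib.MP_8bcb2e_ag.F
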