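import Pool.Agent.Lib.MP_8bcb2e_ag.F.Spec

/-!
# The descent at one divisor
-/

set_option autoImplicit false

universe u

namespace Pool.Agent.Lib.MP_8bcb2e_ag.F

open KaehlerDifferential AlgebraicGeometry CategoryTheory Pool.Agent.Lib.MP_8bcb2e_ag.B

namespace DsLAux

theorem normal {K : Type u} [Field K] (R : ValuationSubring K) :
    ∀ a : K, IsIntegral R.toSubring a → a ∈ R.toSubring := by
  intro a ha
  have h1 : IsIntegral R a := ha
  obtain ⟨y, hy⟩ := IsIntegrallyClosed.isIntegral_iff.mp h1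
  rw [← hy]
  exact y.2

/-- the first identity -/
theorem id1 {L : Type u} [Field L] (A G J F φ₀ b' l l₁ μ : L) (b c N N' q M n' : ℕ)
    (hG : G ≠ 0) (hJ : J ≠ 0) (r : ℕ) (hM : M = r * c)
    (hF : G ^ b * F = l * μ ^ (1 + M)) (hμ : μ = l₁ * (J * φ₀)) (hb : G ^ (q * N) * b' = φ₀ ^ M)
    (hn : b + c + N' + n' = N * q) :
    A / (G * J ^ r) ^ c * F = b' * (G ^ N' * A * G ^ n' * l * l₁ ^ M * μ) := by
  have h1 : (G * J ^ r) ^ c * G ^ b ≠ 0 :=
    mul_ne_zero (pow_ne_zero _ (mul_ne_zero hG (pow_ne_zero _ hJ))) (pow_ne_zero _ hG)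
  refine mul_left_cancel₀ h1 ?_
  have h2 : (G * J ^ r) ^ c * G ^ b * (A / (G * J ^ r) ^ c * F) = A * (G ^ b * F) := by
    field_simp
  have h3 : (G * J ^ r) ^ c = G ^ c * J ^ M := by
    rw [mul_pow, ← pow_mul, hM]
  have h4 : G ^ (q * N) = G ^ b * G ^ c * G ^ N' * G ^ n' := by
    rw [← pow_add, ← pow_add, ← pow_add, mul_comm q N, hn]
  rw [h4] at hb
  rw [h2, hF, h3]
  calc A * (l * μ ^ (1 + M)) = A * l * μ * μ ^ M := by ring
    _ = A * l * μ * (l₁ * (J * φ₀)) ^ M := by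
        congr 1
        rw [hμ]
    _ = A * l * μ * l₁ ^ M * J ^ M * φ₀ ^ M := by ring
    _ = G ^ c * J ^ M * G ^ b * (b' * (G ^ N' * A * G ^ n' * l * l₁ ^ M * μ)) := by
        rw [← hb]
        ring

/-- the second identity -/
theorem id2 {K : Type u} [Field K] (g J j v : K) (r c N M : ℕ) (hg : g ≠ 0) (hJ : J ≠ 0)
    (hM : M = r * c) (hN : N ≤ c) :
    (g * J ^ r) ^ c * (g⁻¹ ^ N * (j / J) ^ M * (v * j ^ 1)) = g ^ (c - N) * (v * j ^ (1 + M)) := by
  have h3 : (g * J ^ r) ^ c = g ^ c * J ^ M := by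
    rw [mul_pow, ← pow_mul, hM]
  have h4 : g ^ c = g ^ (c - N) * g ^ N := by rw [← pow_add, Nat.sub_add_cancel hN]
  rw [h3, h4, div_pow, inv_pow, pow_add]
  field_simp

end DsLAux

theorem t_DsL (h1 : S_Tau.{u}) (h2 : S_MR.{u}) (h3 : S_Cpp.{u}) : S_DsL.{u} := by
  intro k E L K _ _ _ _ _ _ _ _ _ _ _ _ _ _ _ p _ _ _ _ _ e d t R X hX w hw hwR r c b N N' s g a F
    hs hsg hg hga hF hN hNc
  obtain ⟨-, hφ, -, -⟩ := h1 k E L K p e d t
  obtain ⟨m1, -, m3, -, -⟩ := h2 k E L K p e d t R.toSubring X hX (DsLAux.normal R)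
  obtain ⟨l, μ, hl, hμ, hF⟩ := hF
  obtain ⟨l₁, hl₁, hμ'⟩ := h3 k E L K p e d t R X hX w hw hwR μ hμ
  have hE : t.ΨE ≠ 0 := by
    intro h
    have := t.nE
    rw [h] at this
    exact zero_ne_one this
  have hJ : jac t.ΨE w ≠ 0 := psi_ne_zero t.ΨE hw hE
  have hg0 : g ≠ 0 := by
    rintro rfl
    exact hs (by rw [hsg, zero_mul])
  set J := jac t.ΨE w with hJdef
  set j := jac t.ΨK X with hjdef
  have hGL : algebraMap E L g ≠ 0 := (map_ne_zero _).2 hg0
  have hJL : algebraMap E L J ≠ 0 := (map_ne_zero _).2 hJ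
  have hGK : algebraMap E K g ≠ 0 := (map_ne_zero _).2 hg0
  have hJK : algebraMap E K J ≠ 0 := (map_ne_zero _).2 hJ
  obtain ⟨n', hn'⟩ := Nat.exists_eq_add_of_le hN
  have hφg : t.φ (algebraMap E K g) = algebraMap E L g ^ p ^ e := by
    apply (algebraMap L K).injective
    rw [t.coe, map_pow, ← IsScalarTower.algebraMap_apply]
  set β : K := (algebraMap E K g)⁻¹ ^ N * (j / algebraMap E K J) ^ (r * c) with hβ
  have hb : algebraMap E L g ^ (p ^ e * N) * t.φ β = t.φ (j / algebraMap E K J) ^ (r * c) := by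
    rw [hβ, map_mul, map_pow, map_pow, pow_mul, ← hφg, ← mul_assoc, ← mul_pow, ← map_mul,
      mul_inv_cancel₀ hGK, map_one, one_pow, one_mul]
  have key := DsLAux.id1 (algebraMap E L a) (algebraMap E L g) (algebraMap E L J) F
    (t.φ (j / algebraMap E K J)) (t.φ β) l l₁ μ b c N N' (p ^ e) (r * c) n' hGL hJL r rfl hF hμ' hb
    hn'.symm
  have hs' : algebraMap E L (a / s ^ c) =
      algebraMap E L a / (algebraMap E L g * algebraMap E L J ^ r) ^ c := by
    rw [map_div₀, map_pow, hsg, map_mul, map_pow]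
  set l₂ : L := algebraMap E L g ^ N' * algebraMap E L a * algebraMap E L g ^ n' * l *
    l₁ ^ (r * c) with hl₂
  have hl₂R : algebraMap L K l₂ ∈ R.toSubring := by
    have e1 : algebraMap L K l₂ = algebraMap E K (g ^ N' * a) * algebraMap E K g ^ n' *
        algebraMap L K l * algebraMap L K l₁ ^ (r * c) := by
      rw [hl₂]
      simp only [map_mul, map_pow, ← IsScalarTower.algebraMap_apply E L K]
    rw [e1]
    exact mul_mem (mul_mem (mul_mem hga (pow_mem hg _)) hl) (pow_mem hl₁ _)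
  have hreg := m3 _ (m1 l₂ hl₂R μ hμ)
  obtain ⟨v, hv, hv'⟩ := (regularAt_iff t.ΨK hX 1 _).1 hreg
  refine ⟨v * j ^ (1 + r * c), (regularAt_iff t.ΨK hX _ _).2 ⟨v, hv, rfl⟩, ?_⟩
  have hv'' : t.tau (l₂ * μ) = v * j ^ 1 := hv'
  rw [hs', key, hφ, hv'', map_pow, map_pow, hsg, map_mul, map_pow]
  exact DsLAux.id2 (algebraMap E K g) (algebraMap E K J) j v r c N (r * c) hGK hJK rfl hNc

end Pool.Agent.Lib.MP_8bcb2e_ag.F
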