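import Pool.Agent.Lib.MP_8bcb2e_ag.F.Spec
import Pool.Agent.Lib.MP_8bcb2e_ag.SchemeComplete

/-! # The map of the function fields and the ground field -/

set_option autoImplicit false

universe u

namespace Pool.Agent.Lib.MP_8bcb2e_ag.F

open KaehlerDifferential AlgebraicGeometry CategoryTheory Pool.Agent.Lib.MP_8bcb2e_ag.B

theorem t_FFc : S_FFc.{u} := by
  intro k _ X Z _ _ gX gZ f hf h
  have key : CommRingCat.ofHom (toFunctionField gZ) ≫
      (Z.presheaf.stalkSpecializes (specializes_of_eq h) ≫ f.stalkMap (genericPoint X)) =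
        CommRingCat.ofHom (toFunctionField gX) := by
    apply Spec.map_injective
    rw [Spec.map_comp, Spec.map_comp, ← sc_generic, ← sc_generic, Category.assoc,
      Scheme.SpecMap_stalkSpecializes_fromSpecStalk_assoc,
      Scheme.SpecMap_stalkMap_fromSpecStalk_assoc, hf]
  have h2 := congrArg (fun g => g.hom) key
  exact h2

end Pool.Agent.Lib.MP_8bcb2e_ag.F
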