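import Pool.Agent.Lib.MP_8bcb2e_ag.F.Spec
import Pool.Agent.Lib.MP_8bcb2e_ag.IntegralSections

set_option autoImplicit false

universe u

namespace Pool.Agent.Lib.MP_8bcb2e_ag.F

open KaehlerDifferential AlgebraicGeometry CategoryTheory Pool.Agent.Lib.MP_8bcb2e_ag.B

theorem t_Fam : S_Fam.{u} := by
  intro k E _ _ _ _ _ d ΨE 𝒪Z hΨ h𝒪 r u s hs0 hs hus halg
  have hess : Algebra.EssFiniteType (IntermediateField.adjoin k (Set.range u)) E :=
    Algebra.EssFiniteType.of_comp k _ E
  have hfin : Module.Finite (IntermediateField.adjoin k (Set.range u)) E :=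
    Algebra.finite_of_essFiniteType_of_isAlgebraic
  let b := Module.finBasis (IntermediateField.adjoin k (Set.range u)) E
  have key : ∀ j, ∃ g ∈ Algebra.adjoin k (Set.range u), g ≠ 0 ∧ ∃ N : ℕ,
      g * b j * s ^ N ∈ sections k ΨE 𝒪Z (N * r) := fun j =>
    integralSections_of k E d ΨE 𝒪Z hΨ h𝒪 r d u s hs0 hs hus halg (b j)
  choose g hg hg0 N hN using key
  refine ⟨_, fun j => g j * b j, ∑ j, N j, fun j => ?_, fun a => ?_⟩
  · have hle : N j ≤ ∑ i, N i := Finset.single_le_sum (f := N) (fun i _ => Nat.zero_le _)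
      (Finset.mem_univ j)
    obtain ⟨c, hc⟩ := Nat.exists_eq_add_of_le hle
    have h1 := sections_mul h𝒪 (hN j) (sections_pow h𝒪 hs c)
    have e1 : g j * b j * s ^ N j * s ^ c = g j * b j * s ^ (∑ i, N i) := by
      rw [hc, pow_add]
      ring
    have e3 : N j * r + c * r = (∑ i, N i) * r := by
      rw [hc]
      ring
    rw [e1] at h1
    rw [e3] at h1
    exact h1
  · refine ⟨fun j => b.repr a j *
      ⟨g j, IntermediateField.algebra_adjoin_le_adjoin k _ (hg j)⟩⁻¹, ?_⟩
    have h1 := b.sum_repr a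
    conv_lhs => rw [← h1]
    refine Finset.sum_congr rfl fun j _ => ?_
    rw [Algebra.smul_def]
    change ((b.repr a j : IntermediateField.adjoin k (Set.range u)) : E) * b j =
      ((b.repr a j : IntermediateField.adjoin k (Set.range u)) : E) * (g j)⁻¹ * (g j * b j)
    have := hg0 j
    field_simp

end Pool.Agent.Lib.MP_8bcb2e_ag.F
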