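import Pool.Agent.Lib.MP_8bcb2e_ag.F.Spec
import Pool.Agent.Lib.MP_8bcb2e_ag.PBasis
import Pool.Agent.Lib.MP_8bcb2e_ag.TraceMonomial
import Pool.Agent.Lib.MP_8bcb2e_ag.TopMem
import Pool.Agent.Lib.MP_8bcb2e_ag.B.TraceLoc

set_option autoImplicit false

universe u

namespace Pool.Agent.Lib.MP_8bcb2e_ag.F

open KaehlerDifferential AlgebraicGeometry CategoryTheory Pool.Agent.Lib.MP_8bcb2e_ag.B

namespace HCoAux

/-- the differentials of a family that is changed in the last entry -/
theorem snc_update {k A : Type u} [Field k] [Field A] [Algebra k A] {d : ℕ} (z : Fin d → A)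
    (x y : A) : (fun i => D k A (snc z y i)) =
      Function.update (fun i => D k A (snc z x i)) (Fin.last d) (D k A y) := by
  funext i
  refine Fin.lastCases ?_ (fun i => ?_) i
  · simp
  · rw [Function.update_of_ne (Fin.castSucc_lt_last i).ne]
    simp

/-- a form and a change of the last entry by a factor -/
theorem jac_last {k A : Type u} [Field k] [Field A] [Algebra k A] {d : ℕ}
    (Ψ : Ω[A⁄k] [⋀^Fin (d + 1)]→ₗ[A] A) (z : Fin d → A) (x y c : A)
    (h : D k A y = c • D k A x) : jac Ψ (snc z y) = c * jac Ψ (snc z x) := by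
  unfold jac
  rw [snc_update z x y, h, Ψ.map_update_smul, smul_eq_mul, ← snc_update z x x]

/-- a differential basis and a change of the last entry by a nonzero factor -/
theorem basis_last {k A : Type u} [Field k] [Field A] [Algebra k A] {d : ℕ} (z : Fin d → A)
    (x y c : A) (hc : c ≠ 0) (h : D k A y = c • D k A x) (hb : IsDiffBasis k (snc z x)) :
    IsDiffBasis k (snc z y) := by
  obtain ⟨b, hb⟩ := hb
  refine ⟨b.unitsSMul (Fin.snoc (α := fun _ => Aˣ) (fun _ => 1) (Units.mk0 c hc)), fun i => ?_⟩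
  rw [Module.Basis.unitsSMul_apply, hb i]
  refine Fin.lastCases ?_ (fun i => ?_) i
  · rw [Fin.snoc_last, snc_last, snc_last, h]
    rfl
  · rw [Fin.snoc_castSucc, snc_castSucc, snc_castSucc, one_smul]

/-- elements of a subring with a differential that is a combination with coefficients in the
subring -/
def good {k A : Type u} [Field k] [Field A] [Algebra k A] {n : ℕ} (O : Subring A)
    (x : Fin n → A) : Subsemiring A where
  carrier := {a | a ∈ O ∧ ∃ c : Fin n → A, (∀ i, c i ∈ O) ∧ D k A a = ∑ i, c i • D k A (x i)}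
  mul_mem' := by
    rintro a b ⟨ha, c, hc, h1⟩ ⟨hb, c', hc', h2⟩
    refine ⟨mul_mem ha hb, fun i => a * c' i + b * c i,
      fun i => add_mem (mul_mem ha (hc' i)) (mul_mem hb (hc i)), ?_⟩
    rw [Derivation.leibniz, h1, h2, Finset.smul_sum, Finset.smul_sum, ← Finset.sum_add_distrib]
    exact Finset.sum_congr rfl fun i _ => by rw [add_smul, mul_smul, mul_smul]
  one_mem' := ⟨one_mem O, fun _ => 0, fun _ => zero_mem O, by simp⟩
  add_mem' := by
    rintro a b ⟨ha, c, hc, h1⟩ ⟨hb, c', hc', h2⟩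
    refine ⟨add_mem ha hb, fun i => c i + c' i, fun i => add_mem (hc i) (hc' i), ?_⟩
    rw [map_add, h1, h2, ← Finset.sum_add_distrib]
    exact Finset.sum_congr rfl fun i _ => by rw [add_smul]
  zero_mem' := ⟨zero_mem O, fun _ => 0, fun _ => zero_mem O, by simp⟩

theorem mem_good_self {k A : Type u} [Field k] [Field A] [Algebra k A] {n : ℕ} (O : Subring A)
    (x : Fin n → A) (i : Fin n) (h : x i ∈ O) : x i ∈ good (k := k) O x := by
  classical
  refine ⟨h, Pi.single i 1, fun j => ?_, ?_⟩
  · by_cases hj : j = i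
    · subst hj
      rw [Pi.single_eq_same]
      exact one_mem O
    · rw [Pi.single_eq_of_ne hj]
      exact zero_mem O
  · rw [Finset.sum_eq_single i]
    · rw [Pi.single_eq_same, one_smul]
    · intro j _ hj
      rw [Pi.single_eq_of_ne hj, zero_smul]
    · intro h
      exact absurd (Finset.mem_univ _) h

section

variable {k E L K : Type u} [Field k] [Field E] [Field L] [Field K] [Algebra k E]
  [Algebra k L] [Algebra k K] [Algebra E L] [Algebra E K] [Algebra L K] [IsScalarTower k E L]
  [IsScalarTower k E K] [IsScalarTower k L K] [IsScalarTower E L K] [PerfectField k] {p : ℕ}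
  [Fact p.Prime] [CharP k p] [Algebra.EssFiniteType k K] {e d : ℕ} (t : Tw k E L K p e d)

omit [IsScalarTower k E L] [IsScalarTower k E K] [IsScalarTower k L K] [IsScalarTower E L K]
  [PerfectField k] [Algebra.EssFiniteType k K] in
/-- the iterated trace of a term -/
theorem term (h1 : S_TrIt.{u}) (π a : K) (α β : Fin d → Fin (p ^ e)) :
    t.TK^[e] ((∏ i, im E K t.z i ^ (p ^ e - 1 - (β i : ℕ))) * π ^ (p ^ e - 1) *
      (a ^ p ^ e * ∏ i, im E K t.z i ^ (α i : ℕ)) * jac t.ΨK (snc (im E K t.z) π)) =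
      if α = β then a * jac t.ΨK (snc (im E K t.z) π) else 0 := by
  have hq : 0 < p ^ e := pow_pos (Fact.out : p.Prime).pos e
  set J := jac t.ΨK (snc (im E K t.z) π) with hJ
  set n : Fin d → ℕ := fun i => (α i : ℕ) + ((p ^ e) - 1 - (β i : ℕ)) with hn
  set γ : Fin (d + 1) → ℕ :=
    Fin.snoc (α := fun _ => ℕ) (fun i => n i % (p ^ e)) ((p ^ e) - 1) with hγ
  have hγq : ∀ i, γ i < (p ^ e) := by
    intro i
    refine Fin.lastCases ?_ (fun i => ?_) i
    · rw [hγ, Fin.snoc_last]
      omega
    · rw [hγ, Fin.snoc_castSucc]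
      exact Nat.mod_lt _ hq
  have hprod : (∏ i, snc (im E K t.z) π i ^ γ i) =
      (∏ i, im E K t.z i ^ (n i % (p ^ e))) * π ^ ((p ^ e) - 1) := by
    rw [Fin.prod_univ_castSucc]
    simp only [hγ, Fin.snoc_last, snc_last, Fin.snoc_castSucc, snc_castSucc]
  have hF : (∏ i, im E K t.z i ^ ((p ^ e) - 1 - (β i : ℕ))) * π ^ ((p ^ e) - 1) *
      (a ^ (p ^ e) * ∏ i, im E K t.z i ^ (α i : ℕ)) * J =
      (a * ∏ i, im E K t.z i ^ (n i / (p ^ e))) ^ (p ^ e) *
        ((∏ i, snc (im E K t.z) π i ^ γ i) * J) := by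
    rw [hprod, mul_pow, ← Finset.prod_pow]
    have h : (∏ i, im E K t.z i ^ ((p ^ e) - 1 - (β i : ℕ))) * (∏ i, im E K t.z i ^ (α i : ℕ)) =
        (∏ i, (im E K t.z i ^ (n i / (p ^ e))) ^ (p ^ e)) * ∏ i, im E K t.z i ^ (n i % (p ^ e)) := by
      rw [← Finset.prod_mul_distrib, ← Finset.prod_mul_distrib]
      refine Finset.prod_congr rfl fun i _ => ?_
      rw [← pow_add, ← pow_mul, ← pow_add, mul_comm (n i / (p ^ e)) (p ^ e), Nat.div_add_mod, hn]
      congr 1
      ring
    linear_combination (a ^ (p ^ e) * π ^ ((p ^ e) - 1) * J) * h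
  rw [hF]
  have hlt : ∀ i, (β i : ℕ) < (p ^ e) := fun i => (β i).2
  have hlt' : ∀ i, (α i : ℕ) < (p ^ e) := fun i => (α i).2
  have key : ∀ i, n i % (p ^ e) + 1 = (p ^ e) ↔ (α i : ℕ) = (β i : ℕ) := by
    intro i
    have h3 := hlt i
    have h4 := hlt' i
    constructor
    · intro h
      by_contra hne
      rcases lt_or_ge (n i) (p ^ e) with h5 | h5
      · rw [Nat.mod_eq_of_lt h5] at h
        simp only [hn] at h
        omega
      · rw [Nat.mod_eq_sub_mod h5, Nat.mod_eq_of_lt (by simp only [hn]; omega)] at h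
        simp only [hn] at h h5
        omega
    · intro h
      have h5 : n i = (p ^ e) - 1 := by simp only [hn]; omega
      rw [h5, Nat.mod_eq_of_lt (by omega)]
      omega
  have hT := h1 k K p (d + 1) t.ΨK t.TK t.trK e (snc (im E K t.z) π) γ hγq
    (a * ∏ i, im E K t.z i ^ (n i / (p ^ e)))
  split_ifs with h
  · subst h
    rw [hT.1 ?_]
    · have h5 : ∀ i, n i / (p ^ e) = 0 := by
        intro i
        have h3 := hlt i
        apply Nat.div_eq_of_lt
        simp only [hn]
        omega
      simp only [h5, pow_zero, Finset.prod_const_one, mul_one]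
      rfl
    · intro i
      refine Fin.lastCases ?_ (fun i => ?_) i
      · rw [hγ, Fin.snoc_last]
        omega
      · rw [hγ, Fin.snoc_castSucc]
        exact (key i).2 rfl
  · apply hT.2
    by_contra! hcon
    apply h
    funext i
    have h3 := hcon i.castSucc
    rw [hγ, Fin.snoc_castSucc] at h3
    exact Fin.ext ((key i).1 h3)

omit [IsScalarTower k E L] [IsScalarTower k E K] [IsScalarTower k L K] [IsScalarTower E L K] in
/-- the iterated trace preserves regularity -/
theorem iter_reg (V : ValuationSubring K) {x : Fin (d + 1) → K} (hx : IsCoord k V.toSubring x)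
    (n : ℕ) (F : K) (hF : RegularAt k t.ΨK 1 V.toSubring F) :
    RegularAt k t.ΨK 1 V.toSubring (t.TK^[n] F) := by
  induction n generalizing F with
  | zero => exact hF
  | succ n ih =>
    rw [Function.iterate_succ_apply]
    apply ih
    have h := (B.t_TraceLoc pBasis_of traceMonomial_of topMem_of k K p (d + 1) t.ΨK t.TK t.trK
      V.toSubring x hx ?_).1 0 F
    · simp only [Nat.mul_zero, Nat.add_zero] at h
      exact h hF
    · intro a ha
      have h1 : IsIntegral V a := ha
      obtain ⟨y, hy⟩ := IsIntegrallyClosed.isIntegral_iff.mp h1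
      rw [← hy]
      exact y.2

end

end HCoAux

open HCoAux in
/-- Coordinates at the places of `L`. -/
theorem t_HCo (h1 : S_TrIt.{u}) (h2 : S_Der.{u}) (h3 : S_DPhi.{u}) : S_HCo.{u} := by
  intro k E L K _ _ _ _ _ _ _ _ _ _ _ _ _ _ _ p _ _ _ e d t V π hV
  have hΨ : t.ΨK ≠ 0 := by
    intro h
    have := t.nK
    rw [h] at this
    exact zero_ne_one this
  have hj : jac t.ΨK (snc (im E K t.z) π) ≠ 0 := psi_ne_zero t.ΨK hV.basis hΨ
  set j := jac t.ΨK (snc (im E K t.z) π) with hjd
  obtain ⟨hP1, hP2⟩ := h3 k E L K p e t.he t.φ t.coe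
  obtain ⟨c, hc⟩ := h2 k K d t.ΨK (im E K t.z) t.x t.bK t.nK π
  rw [← hjd] at hc
  have hφ0 : ∀ i, D k L (t.φ (im E K t.z i)) = 0 := fun i => hP2 _
  have hDπ : D k L (t.φ π) = t.φ j • D k L (t.φ t.x) := by
    rw [hP1 (d + 1) (snc (im E K t.z) t.x) π (snc c j) (by
      rw [hc, Fin.sum_univ_castSucc]
      simp only [snc_last, snc_castSucc])]
    rw [Fin.sum_univ_castSucc]
    simp only [snc_last, snc_castSucc, hφ0, smul_zero, Finset.sum_const_zero, zero_add]
  have hφj : t.φ j ≠ 0 := by
    rw [Ne, map_eq_zero]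
    exact hj
  set V' := (V.comap (algebraMap L K)).toSubring with hV'
  have hmem : ∀ l : L, l ∈ V' ↔ algebraMap L K l ∈ V := fun l => Iff.rfl
  have hzK : ∀ i, algebraMap L K (im E L t.z i) = im E K t.z i := fun i =>
    (IsScalarTower.algebraMap_apply E L K (t.z i)).symm
  have hzV : ∀ i, im E K t.z i ∈ V := by
    intro i
    have := hV.mem i.castSucc
    rwa [snc_castSucc] at this
  have hπV : π ∈ V := by
    have := hV.mem (Fin.last d)
    rwa [snc_last] at this
  have hφV : ∀ a ∈ V, t.φ a ∈ V' := by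
    intro a ha
    rw [hmem, t.coe]
    exact pow_mem ha _
  have hm : ∀ i, snc (im E L t.z) (t.φ π) i ∈ V' := by
    intro i
    refine Fin.lastCases ?_ (fun i => ?_) i
    · rw [snc_last]
      exact hφV π hπV
    · rw [snc_castSucc, hmem, hzK]
      exact hzV i
  refine ⟨⟨hm, basis_last _ _ _ _ hφj hDπ t.bL, ?_⟩, ?_⟩
  · -- the differentials of the elements of `V'`
    intro l hl
    obtain ⟨a, ha⟩ := t.span l
    -- the coefficients
    have hcoef : ∀ β, a β ∈ V := by
      intro β
      set F : K := (∏ i, im E K t.z i ^ (p ^ e - 1 - (β i : ℕ))) * π ^ (p ^ e - 1) *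
        algebraMap L K l * j with hF
      have hreg : RegularAt k t.ΨK 1 V.toSubring F := by
        rw [regularAt_iff t.ΨK hV]
        refine ⟨_, ?_, by rw [pow_one, hF, hjd]; rfl⟩
        refine mul_mem (mul_mem (prod_mem fun i _ => pow_mem (hzV i) _) (pow_mem hπV _)) hl
      have hreg' := iter_reg t V hV e F hreg
      rw [regularAt_iff t.ΨK hV] at hreg'
      obtain ⟨G, hG, hFG⟩ := hreg'
      have hFs : F = ∑ α, (∏ i, im E K t.z i ^ (p ^ e - 1 - (β i : ℕ))) * π ^ (p ^ e - 1) *
          (a α ^ p ^ e * ∏ i, im E K t.z i ^ (α i : ℕ)) * j := by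
        rw [hF, ha, map_sum, Finset.mul_sum, Finset.sum_mul]
        refine Finset.sum_congr rfl fun α _ => ?_
        rw [map_mul, t.coe, map_prod]
        simp only [map_pow, hzK]
      have hT : t.TK^[e] F = a β * j := by
        rw [hFs]
        have hsum : ∀ (s : Finset (Fin d → Fin (p ^ e))) (f : (Fin d → Fin (p ^ e)) → K),
            t.TK^[e] (∑ α ∈ s, f α) = ∑ α ∈ s, t.TK^[e] (f α) := by
          intro s f
          exact map_sum (⟨⟨t.TK^[e], t.trK.iter_zero e⟩, t.trK.iter_add e⟩ : K →+ K) f s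
        rw [hsum, Finset.sum_congr rfl fun α _ => term t h1 π (a α) α β]
        rw [Finset.sum_ite_eq' Finset.univ β, if_pos (Finset.mem_univ _)]
      rw [hT, pow_one] at hFG
      have : a β = G := mul_right_cancel₀ hj hFG
      rw [this]
      exact hG
    have hg : l ∈ good (k := k) V' (snc (im E L t.z) (t.φ π)) := by
      rw [ha]
      refine sum_mem fun α _ => mul_mem ?_ (prod_mem fun i _ => pow_mem ?_ _)
      · refine ⟨hφV _ (hcoef α), ?_⟩
        obtain ⟨b, hb, hD⟩ := hV.gen (a α) (hcoef α)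
        refine ⟨snc (fun _ => 0) (t.φ (b (Fin.last d))), ?_, ?_⟩
        · intro i
          refine Fin.lastCases ?_ (fun i => ?_) i
          · rw [snc_last]
            exact hφV _ (hb _)
          · rw [snc_castSucc]
            exact zero_mem _
        · rw [hP1 (d + 1) _ (a α) b hD, Fin.sum_univ_castSucc, Fin.sum_univ_castSucc]
          simp only [snc_last, snc_castSucc, hφ0, smul_zero, zero_smul]
      · have := mem_good_self (k := k) V' (snc (im E L t.z) (t.φ π)) i.castSucc (hm _)
        rwa [snc_castSucc] at this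
    exact hg.2
  · rw [jac_last t.ΨL _ (t.φ t.x) _ _ hDπ, t.nL, mul_one]

end Pool.Agent.Lib.MP_8bcb2e_ag.F
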