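import Pool.Agent.Lib.MP_8bcb2e_ag.F.Spec
import Pool.Agent.Lib.MP_8bcb2e_ag.SchemeFin
import Pool.Agent.Lib.MP_8bcb2e_ag.SchemeComplete

/-!
# The places over the function field of the base are local rings
-/

set_option autoImplicit false

universe u

namespace Pool.Agent.Lib.MP_8bcb2e_ag.F

open KaehlerDifferential AlgebraicGeometry CategoryTheory Pool.Agent.Lib.MP_8bcb2e_ag.B

/-- A local homomorphism to a valuation ring. -/
private theorem HDv_aux {S K : Type u} [CommRing S] [Field K] (V : ValuationSubring K)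
    (g : S →+* V) [IsLocalHom g] (a : S →+* K) (h : ∀ s, a s = (g s : K)) :
    (∀ s, a s ∈ V) ∧ ∀ s, (a s)⁻¹ ∈ V → ∃ c, a c = (a s)⁻¹ := by
  refine ⟨fun s => by rw [h]; exact (g s).2, ?_⟩
  intro s hs
  by_cases hs0 : a s = 0
  · exact ⟨0, by rw [map_zero, hs0, inv_zero]⟩
  · have hu : IsUnit (g s) := by
      refine isUnit_iff_exists_inv.2 ⟨⟨_, hs⟩, ?_⟩
      refine Subtype.ext ?_
      change (g s : K) * (a s)⁻¹ = 1
      rw [← h s]
      exact mul_inv_cancel₀ hs0
    obtain ⟨c, hc⟩ := isUnit_iff_exists_inv.1 (IsLocalHom.map_nonunit s hu)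
    refine ⟨c, eq_inv_of_mul_eq_one_right ?_⟩
    rw [← map_mul, hc, map_one]

/-- Every valuation ring which contains `k` dominates the local ring of a point. -/
private theorem HDv_dom {k : Type u} [Field k] {X : Scheme.{u}} [IsIntegral X]
    (f : X ⟶ Spec (.of k)) [IsProper f] (V : ValuationSubring X.functionField)
    (hV : ∀ c : k, toFunctionField f c ∈ V) :
    ∃ x : X, localRing X x ≤ V.toSubring ∧
      ∀ b ∈ localRing X x, b⁻¹ ∈ V → b⁻¹ ∈ localRing X x := by
  have hex : ValuativeCriterion.Existence f := by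
    have h : ValuativeCriterion f := by
      have := (inferInstance : IsProper f)
      rw [IsProper.eq_valuativeCriterion] at this
      exact this.1.1.1
    exact h.existence
  let φ : k →+* V := (toFunctionField f).codRestrict V.toSubring hV
  let S : ValuativeCommSq f :=
    { R := V
      K := X.functionField
      i₁ := X.fromSpecStalk (genericPoint X)
      i₂ := Spec.map (CommRingCat.ofHom φ)
      commSq := ⟨by
        rw [sc_generic, ← Spec.map_comp]
        rfl⟩ }
  obtain ⟨⟨l, hl, _⟩⟩ := (hex S).exists_lift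
  change Spec (.of V) ⟶ X at l
  refine ⟨l (IsLocalRing.closedPoint V), ?_⟩
  have h1 := Scheme.Spec_stalkClosedPointTo_fromSpecStalk l
  have h2 : Spec.map (CommRingCat.ofHom (algebraMap V X.functionField)) ≫ l =
      X.fromSpecStalk (genericPoint X) := hl
  have hs : genericPoint X ⤳ l (IsLocalRing.closedPoint V) :=
    (genericPoint_spec X).specializes trivial
  have h3 : Scheme.stalkClosedPointTo l ≫ CommRingCat.ofHom (algebraMap V X.functionField) =
      X.presheaf.stalkSpecializes hs := by
    apply Spec.map_injective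
    rw [← cancel_mono (X.fromSpecStalk _), Scheme.SpecMap_stalkSpecializes_fromSpecStalk,
      Spec.map_comp, Category.assoc, h1, h2]
  have h4 : ∀ s, algebraMap (X.presheaf.stalk (l (IsLocalRing.closedPoint V))) X.functionField s =
      (algebraMap V X.functionField) ((Scheme.stalkClosedPointTo l).hom s) := by
    intro s
    have := congrArg (fun g => g.hom s) h3
    exact this.symm
  obtain ⟨h5, h6⟩ := HDv_aux V (Scheme.stalkClosedPointTo l).hom
    (algebraMap (X.presheaf.stalk (l (IsLocalRing.closedPoint V))) X.functionField) h4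
  refine ⟨?_, ?_⟩
  · rintro _ ⟨s, rfl⟩
    exact h5 s
  · rintro _ ⟨s, rfl⟩ hb
    exact h6 s hb

theorem t_HDv (h1 : S_FFc.{u}) (h2 : S_Ctr.{u}) (h3 : S_Rk1.{u}) : S_HDv.{u} := by
  intro k _ X Z _ _ gX _ _ gZ f hf h
  let _ := ffAlgebra f h
  intro halg V hV htop
  have hk : ∀ c : k, toFunctionField gX c ∈ V := by
    intro c
    rw [← h1 k X Z gX gZ f hf h]
    exact hV _
  obtain ⟨x, hle, hdom⟩ := HDv_dom gX V hk
  have hnoeth : IsLocallyNoetherian X := LocallyOfFiniteType.isLocallyNoetherian gX
  have hn : IsNoetherianRing (localRing X x) := by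
    have : IsNoetherianRing (X.presheaf.stalk x) := inferInstance
    exact isNoetherianRing_range (algebraMap (X.presheaf.stalk x) X.functionField)
  have hfrac : ∀ a : X.functionField, ∃ b ∈ localRing X x, ∃ c ∈ localRing X x, c ≠ 0 ∧
      a = b / c := by
    intro a
    obtain ⟨b, c, hc, rfl⟩ := IsFractionRing.div_surjective (A := X.presheaf.stalk x) a
    refine ⟨_, ⟨b, rfl⟩, _, ⟨c, rfl⟩, ?_, rfl⟩
    exact IsFractionRing.to_map_ne_zero_of_mem_nonZeroDivisors hc
  have hint : ∀ a : X.functionField, _root_.IsIntegral (localRing X x) a → a ∈ localRing X x :=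
    ((schemeFin_of k X gX).2 x).2
  have hE : ∀ a : Z.functionField, ffm f h a ∈ localRing X x := by
    intro a
    obtain ⟨b, c, _, rfl⟩ := IsFractionRing.div_surjective (A := Z.presheaf.stalk (f x)) a
    rw [map_div₀, div_eq_mul_inv]
    refine (localRing X x).mul_mem ((h2 X Z f h x).1 _ ⟨b, rfl⟩)
      (hdom _ ((h2 X Z f h x).1 _ ⟨c, rfl⟩) ?_)
    rw [← map_inv₀]
    exact hV _
  exact ⟨x, (h3 Z.functionField X.functionField halg (localRing X x) V hn hE hfrac hint hle hdom
    htop).symm⟩

end Pool.Agent.Lib.MP_8bcb2e_ag.F
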