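import Pool.Agent.Lib.MP_8bcb2e_ag.F.Spec
import Pool.Agent.Lib.MP_8bcb2e_ag.Basic

/-!
# Regular forms of `L` at a place with coordinates `(z, π)` are in the lattice
-/

set_option autoImplicit false

universe u

namespace Pool.Agent.Lib.MP_8bcb2e_ag.F

open KaehlerDifferential AlgebraicGeometry CategoryTheory Pool.Agent.Lib.MP_8bcb2e_ag.B

namespace HMRAux

/-- `car` of the standard form -/
theorem car_eq (h1 : S_TrIt.{u}) {k E L K : Type u} [Field k] [Field E] [Field L] [Field K]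
    [Algebra k E] [Algebra k L] [Algebra k K] [Algebra E L] [Algebra E K] [Algebra L K] {p : ℕ}
    [Fact p.Prime] [CharP k p] {e d : ℕ} (t : Tw k E L K p e d) (π : K) :
    t.car (π ^ (p ^ e - 1) * jac t.ΨK (snc (im E K t.z) π)) =
      t.φ (jac t.ΨK (snc (im E K t.z) π)) := by
  classical
  have hq : 0 < p ^ e := pow_pos (Fact.out : p.Prime).pos e
  have key : ∀ α : Fin d → Fin (p ^ e),
      (∏ i, im E K t.z i ^ (p ^ e - 1 - (α i : ℕ))) *
        (π ^ (p ^ e - 1) * jac t.ΨK (snc (im E K t.z) π)) =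
      1 ^ p ^ e * ((∏ i, snc (im E K t.z) π i ^
        ((Fin.snoc (α := fun _ => ℕ) (fun i => p ^ e - 1 - (α i : ℕ)) (p ^ e - 1) :
          Fin (d + 1) → ℕ) i)) * jac t.ΨK (snc (im E K t.z) π)) := by
    intro α
    rw [Fin.prod_univ_castSucc]
    simp only [Fin.snoc_castSucc, Fin.snoc_last, snc_castSucc, snc_last, one_pow, one_mul]
    ring
  have hlt : ∀ (α : Fin d → Fin (p ^ e)) (i : Fin (d + 1)),
      (Fin.snoc (α := fun _ => ℕ) (fun i => p ^ e - 1 - (α i : ℕ)) (p ^ e - 1) :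
          Fin (d + 1) → ℕ) i < p ^ e := by
    intro α i
    refine Fin.lastCases ?_ (fun i => ?_) i
    · rw [Fin.snoc_last]; omega
    · rw [Fin.snoc_castSucc]; omega
  unfold Tw.car
  rw [Finset.sum_eq_single (fun _ => (⟨0, hq⟩ : Fin (p ^ e)))]
  · rw [key, (h1 k K p (d + 1) t.ΨK t.TK t.trK e (snc (im E K t.z) π) _ (hlt _) 1).1 ?_]
    · simp
    · intro i
      refine Fin.lastCases ?_ (fun i => ?_) i
      · rw [Fin.snoc_last]; omega
      · rw [Fin.snoc_castSucc]; simp only []; omega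
  · intro α _ hα
    have hex : ∃ i, (α i : ℕ) ≠ 0 := by
      by_contra h
      push Not at h
      exact hα (funext fun i => Fin.ext (h i))
    obtain ⟨i, hi⟩ := hex
    rw [key, (h1 k K p (d + 1) t.ΨK t.TK t.trK e (snc (im E K t.z) π) _ (hlt _) 1).2 ?_]
    · rw [map_zero, zero_mul]
    · refine ⟨i.castSucc, ?_⟩
      rw [Fin.snoc_castSucc]
      have := (α i).2
      omega
  · intro h
    exact absurd (Finset.mem_univ _) h

end HMRAux

open HMRAux in
theorem t_HMR (h1 : S_TrIt.{u}) (h2 : S_HCo.{u}) : S_HMR.{u} := by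
  intro k E L K _ _ _ _ _ _ _ _ _ _ _ _ _ _ _ p _ _ _ e d t V π hπ
  obtain ⟨hc, hj⟩ := h2 k E L K p e d t V π hπ
  have hπV : π ∈ V := by
    have := hπ.mem (Fin.last d)
    rwa [snc_last] at this
  have hMR : t.φ (jac t.ΨK (snc (im E K t.z) π)) ∈ t.MR V.toSubring := by
    refine ⟨π ^ (p ^ e - 1) * jac t.ΨK (snc (im E K t.z) π), ?_, (car_eq h1 t π).symm⟩
    refine (regularAt_iff t.ΨK hπ 1 _).2 ⟨π ^ (p ^ e - 1), pow_mem hπV _, ?_⟩
    rw [pow_one]
    rfl
  have hj' : (t.ΨL fun i => D k L (snc (im E L t.z) (t.φ π) i)) =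
      t.φ (jac t.ΨK (snc (im E K t.z) π)) := hj
  constructor
  · intro m F hF
    obtain ⟨G, hG, hFG⟩ := (regularAt_iff t.ΨL hc m F).1 hF
    rw [hj'] at hFG
    exact ⟨G, _, hG, hMR, hFG⟩
  · intro v hv
    refine (regularAt_iff t.ΨL hc 1 _).2 ⟨t.φ v, ?_, ?_⟩
    · show algebraMap L K (t.φ v) ∈ V
      rw [t.coe]
      exact pow_mem hv _
    · rw [hj', pow_one, map_mul]

end Pool.Agent.Lib.MP_8bcb2e_ag.F
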