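import Pool.Agent.Lib.MP_8bcb2e_ag.F.Spec
import Pool.Agent.Lib.MP_8bcb2e_ag.B.LocCoord
import Pool.Agent.Lib.MP_8bcb2e_ag.Basic

/-!
# A form is regular if it is regular along all divisors
-/

set_option autoImplicit false

universe u

namespace Pool.Agent.Lib.MP_8bcb2e_ag.F

open KaehlerDifferential AlgebraicGeometry CategoryTheory Pool.Agent.Lib.MP_8bcb2e_ag.B

theorem t_Hrt : S_Hrt.{u} := by
  intro k K _ _ _ n Ψ 𝒪 hΨ hM hD m F hF O hO
  obtain ⟨x, hx⟩ := hM.coord O hO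
  have hJ := psi_ne_zero Ψ hx.basis hΨ
  refine (regularAt_iff Ψ hx m F).2 ⟨F / (Ψ fun i => D k K (x i)) ^ m, ?_,
    (div_mul_cancel₀ _ (pow_ne_zero m hJ)).symm⟩
  refine hD.hartogs O hO _ fun V hV hL => ?_
  obtain ⟨G, hG, hFG⟩ := (regularAt_iff Ψ (t_LocCoord k K n O V x hx hL) m F).1 (hF V hV)
  rw [hFG, mul_div_cancel_right₀ _ (pow_ne_zero m hJ)]
  exact hG

end Pool.Agent.Lib.MP_8bcb2e_ag.F
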