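import Pool.Agent.Lib.MP_8bcb2e_ag.F.Spec
import Pool.Agent.Lib.MP_8bcb2e_ag.SepExists
import Pool.Agent.Lib.MP_8bcb2e_ag.B.Fg

set_option autoImplicit false

universe u

namespace Pool.Agent.Lib.MP_8bcb2e_ag.F

open KaehlerDifferential AlgebraicGeometry CategoryTheory Pool.Agent.Lib.MP_8bcb2e_ag.B

theorem t_Htr : S_Htr.{u} := by
  intro k E K _ _ _ _ _ _ _ _ _ _ d z x₀ hz hx₀ y hy
  have h1 : Algebra.trdeg k E = d := Fg_trdeg sepExists_of hz
  have h2 : Algebra.trdeg k K = (d + 1 : ℕ) := Fg_trdeg sepExists_of hx₀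
  have h3 : Algebra.trdeg E K = 1 := by
    have h := trdeg_add_eq k E (A := K)
    rw [h1, h2, Nat.cast_add, Nat.cast_one] at h
    exact Cardinal.eq_of_add_eq_add_left h Cardinal.natCast_lt_aleph0
  have hind : AlgebraicIndependent E (fun _ : Unit => y) :=
    algebraicIndependent_unique_type_iff.2 hy
  have htb : IsTranscendenceBasis E (fun _ : Unit => y) := by
    refine hind.isTranscendenceBasis_of_lift_trdeg_le_of_finite ?_
    rw [h3]
    simp
  have h := htb.isAlgebraic_field
  rwa [Set.range_const] at h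

end Pool.Agent.Lib.MP_8bcb2e_ag.F
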