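import Pool.Agent.Lib.MP_8bcb2e_ag.F.Spec
import Pool.Agent.Lib.MP_8bcb2e_ag.Basic

/-!
# JE: the Jacobian of `(w, y)`, `w` a family of the subfield `E`
-/

set_option autoImplicit false

universe u

namespace Pool.Agent.Lib.MP_8bcb2e_ag.F

open KaehlerDifferential AlgebraicGeometry CategoryTheory Pool.Agent.Lib.MP_8bcb2e_ag.B

namespace JEAux

variable {k E K : Type u} [Field k] [Field E] [Field K] [Algebra k E] [Algebra k K]
  [Algebra E K] [IsScalarTower k E K] {d : ℕ}

/-- the first `d` arguments of a top form -/
private noncomputable def cur (ΨK : Ω[K⁄k] [⋀^Fin (d + 1)]→ₗ[K] K) (u : Ω[K⁄k]) :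
    Ω[K⁄k] [⋀^Fin d]→ₗ[K] K :=
  (ΨK.domDomCongr (finRotate (d + 1))).curryLeft u

private theorem cur_apply (ΨK : Ω[K⁄k] [⋀^Fin (d + 1)]→ₗ[K] K) (u : Ω[K⁄k])
    (θ : Fin d → Ω[K⁄k]) : cur ΨK u θ = ΨK (Fin.snoc (α := fun _ => Ω[K⁄k]) θ u) := by
  rw [Fin.snoc_eq_cons_rotate]
  rfl

private theorem D_snc (w : Fin d → K) (y : K) : (fun i => D k K (snc w y i)) =
    Fin.snoc (α := fun _ => Ω[K⁄k]) (fun i => D k K (w i)) (D k K y) := by
  funext i
  refine Fin.lastCases ?_ (fun j => ?_) i
  · simp
  · simp

private theorem jac_snc (ΨK : Ω[K⁄k] [⋀^Fin (d + 1)]→ₗ[K] K) (w : Fin d → K) (y : K) :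
    jac ΨK (snc w y) = cur ΨK (D k K y) (fun i => D k K (w i)) := by
  rw [cur_apply, jac, D_snc]

/-- the restriction to the differentials of `E` -/
private noncomputable def res (g : Ω[K⁄k] [⋀^Fin d]→ₗ[K] K) : Ω[E⁄k] [⋀^Fin d]→ₗ[E] K where
  toFun θ := g fun i => KaehlerDifferential.map k k E K (θ i)
  map_update_add' := by
    intro _ m i x y
    have h : ∀ u : Ω[E⁄k], (fun j => KaehlerDifferential.map k k E K (Function.update m i u j)) =
        Function.update (fun j => KaehlerDifferential.map k k E K (m j)) i
          (KaehlerDifferential.map k k E K u) := by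
      intro u
      funext j
      by_cases hj : j = i
      · subst hj
        simp
      · simp [Function.update_of_ne hj]
    rw [h, h, h, map_add, g.map_update_add]
  map_update_smul' := by
    intro _ m i c x
    have h : ∀ u : Ω[E⁄k], (fun j => KaehlerDifferential.map k k E K (Function.update m i u j)) =
        Function.update (fun j => KaehlerDifferential.map k k E K (m j)) i
          (KaehlerDifferential.map k k E K u) := by
      intro u
      funext j
      by_cases hj : j = i
      · subst hj
        simp
      · simp [Function.update_of_ne hj]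
    rw [h, h, map_smul, algebra_compatible_smul K c, g.map_update_smul, ← algebra_compatible_smul]
  map_eq_zero_of_eq' := by
    intro v i j hv hij
    exact g.map_eq_zero_of_eq _ (by simp only [hv]) hij

private theorem res_apply (g : Ω[K⁄k] [⋀^Fin d]→ₗ[K] K) (θ : Fin d → Ω[E⁄k]) :
    res g θ = g fun i => KaehlerDifferential.map k k E K (θ i) := rfl

end JEAux

open JEAux in
theorem t_JE : S_JE.{u} := by
  intro k E K _ _ _ _ _ _ _ d ΨE ΨK z hz hz1
  obtain ⟨b, hb⟩ := hz
  constructor
  · intro w y
    have key : res (E := E) (cur ΨK (D k K y)) =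
        ((LinearMap.toSpanSingleton E K (jac ΨK (snc (im E K z) y))).compAlternatingMap ΨE) := by
      refine Module.Basis.ext_alternating b fun v hv => ?_
      obtain ⟨σ, rfl⟩ : ∃ σ : Equiv.Perm (Fin d), v = σ :=
        ⟨Equiv.ofBijective v (Finite.injective_iff_bijective.1 hv), rfl⟩
      have h1 := (res (E := E) (cur ΨK (D k K y))).map_perm (fun i => b i) σ
      have h2 := ((LinearMap.toSpanSingleton E K
        (jac ΨK (snc (im E K z) y))).compAlternatingMap ΨE).map_perm (fun i => b i) σ
      rw [Function.comp_def] at h1 h2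
      rw [h1, h2]
      congr 1
      rw [LinearMap.compAlternatingMap_apply, LinearMap.toSpanSingleton_apply]
      have h3 : (fun i => b i) = fun i => D k E (z i) := funext hb
      rw [h3]
      have h4 : ΨE (fun i => D k E (z i)) = 1 := hz1
      rw [h4, one_smul, res_apply, jac_snc]
      simp only [KaehlerDifferential.map_D]
      rfl
    have h5 := congrArg (fun F => F fun i => D k E (w i)) key
    simp only [LinearMap.compAlternatingMap_apply, LinearMap.toSpanSingleton_apply,
      res_apply, KaehlerDifferential.map_D] at h5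
    rw [jac_snc]
    rw [Algebra.smul_def] at h5
    exact h5
  · intro a
    have h1 : D k E a = ∑ i, b.repr (D k E a) i • D k E (z i) := by
      conv_lhs => rw [← b.sum_repr (D k E a)]
      simp only [hb]
    have h2 := congrArg (KaehlerDifferential.map k k E K) h1
    rw [map_sum] at h2
    simp only [map_smul, KaehlerDifferential.map_D] at h2
    rw [jac, D_snc]
    apply ΨK.map_linearDependent
    intro hli
    rw [linearIndependent_finSnoc] at hli
    apply hli.2
    rw [h2]
    refine Submodule.sum_mem _ fun i _ => ?_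
    rw [algebra_compatible_smul K]
    exact Submodule.smul_mem _ _ (Submodule.subset_span ⟨i, rfl⟩)

end Pool.Agent.Lib.MP_8bcb2e_ag.F
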