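import Pool.Agent.Lib.MP_8bcb2e_ag.F.Spec
import Pool.Agent.Lib.MP_8bcb2e_ag.B.TraceLoc
import Pool.Agent.Lib.MP_8bcb2e_ag.PBasis
import Pool.Agent.Lib.MP_8bcb2e_ag.TraceMonomial
import Pool.Agent.Lib.MP_8bcb2e_ag.TopMem

/-!
# The lattice `MR O`
-/

set_option autoImplicit false

universe u

namespace Pool.Agent.Lib.MP_8bcb2e_ag.F

open KaehlerDifferential AlgebraicGeometry CategoryTheory Pool.Agent.Lib.MP_8bcb2e_ag.B

theorem t_MR (h1 : S_TrIt.{u}) (h2 : S_Star.{u}) (h3 : S_TLC.{u}) : S_MR.{u} := by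
  intro k E L K _ _ _ _ _ _ _ _ _ _ _ _ _ _ _ p _ _ _ _ e d t O X hX hnorm
  obtain ⟨-, hs2, -, hs4⟩ := h2 k E L K p e d t
  have hTL := fun a => h3 k E L K p e d t a
  have hloc := (t_TraceLoc pBasis_of traceMonomial_of topMem_of k K p (d + 1) t.ΨK t.TK t.trK O X
    hX hnorm).1
  have hT1 : ∀ F, RegularAt k t.ΨK 1 O F → RegularAt k t.ΨK 1 O (t.TK F) := fun F hF => by
    simpa using hloc 0 F (by simpa using hF)
  have hTe : ∀ (m : ℕ) F, RegularAt k t.ΨK 1 O F → RegularAt k t.ΨK 1 O (t.TK^[m] F) := by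
    intro m
    induction m with
    | zero => intro F hF; exact hF
    | succ m ih => intro F hF; rw [Function.iterate_succ_apply]; exact ih _ (hT1 F hF)
  have htau : ∀ F, t.tau (t.car F) = t.TK^[e] F := fun F => by
    have := hs2 1 F
    rwa [one_mul, map_one, one_mul] at this
  have hJ : jac t.ΨK X ≠ 0 := by
    refine psi_ne_zero t.ΨK hX.basis ?_
    intro h0
    have := t.nK
    rw [jac, h0] at this
    simp at this
  refine ⟨?_, ?_, ?_, ?_, ?_⟩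
  · rintro l hl _ ⟨F, hF, rfl⟩
    refine ⟨algebraMap L K l * F, ?_, (hs4 l F).symm⟩
    obtain ⟨G, hG, rfl⟩ := (regularAt_iff t.ΨK hX _ F).1 hF
    exact (regularAt_iff t.ΨK hX _ _).2 ⟨algebraMap L K l * G, mul_mem hl hG, by ring⟩
  · rintro _ ⟨F, hF, rfl⟩
    exact ⟨t.TK F, hT1 F hF, hTL F⟩
  · rintro _ ⟨F, hF, rfl⟩
    rw [htau]
    exact hTe e F hF
  · refine ⟨_, (regularAt_iff t.ΨK hX _ _).2 ⟨∏ i, X i ^ (p ^ e - 1), prod_mem fun i _ =>
      pow_mem (hX.mem i) _, ?_⟩, rfl⟩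
    rw [pow_one]
    rfl
  · intro h0
    have h4 := (h1 k K p (d + 1) t.ΨK t.TK t.trK e X (fun _ => p ^ e - 1)
      (fun _ => Nat.sub_lt (pow_pos (Fact.out : p.Prime).pos e) one_pos) 1).1
      (fun _ => Nat.sub_add_cancel (Nat.one_le_pow _ _ (Fact.out : p.Prime).pos))
    rw [one_pow, one_mul, one_mul, ← htau, h0] at h4
    apply hJ
    rw [← h4, Tw.tau, map_zero, mul_zero]
    exact t.trK.iter_zero e

end Pool.Agent.Lib.MP_8bcb2e_ag.F
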