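import Pool.Agent.Lib.MP_8bcb2e_ag.F.Spec
import Pool.Agent.Lib.MP_8bcb2e_ag.TraceSections

/-!
# The powers of the lattice
-/

set_option autoImplicit false

universe u

namespace Pool.Agent.Lib.MP_8bcb2e_ag.F

open KaehlerDifferential AlgebraicGeometry CategoryTheory Pool.Agent.Lib.MP_8bcb2e_ag.B

private theorem MRg_cmp {L K : Type u} [Field L] [Field K] [Algebra L K] (R : ValuationSubring K)
    (μ μ' : L) : ∃ c : L, algebraMap L K c ∈ R.toSubring ∧ (μ = c * μ' ∨ μ' = c * μ) := by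
  by_cases h' : μ' = 0
  · exact ⟨0, by rw [map_zero]; exact zero_mem _, Or.inr (by rw [h', zero_mul])⟩
  by_cases h : μ = 0
  · exact ⟨0, by rw [map_zero]; exact zero_mem _, Or.inl (by rw [h, zero_mul])⟩
  rcases R.mem_or_inv_mem (algebraMap L K (μ / μ')) with h1 | h1
  · exact ⟨μ / μ', h1, Or.inl (div_mul_cancel₀ μ h').symm⟩
  · refine ⟨μ' / μ, ?_, Or.inr (div_mul_cancel₀ μ' h).symm⟩
    rw [← map_inv₀, inv_div] at h1
    exact h1

/-- The powers of the lattice. -/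
theorem t_MRg (h1 : S_MR.{u}) : S_MRg.{u} := by
  intro k E L K _ _ _ _ _ _ _ _ _ _ _ _ _ _ _ p _ _ _ _ e d t R X hX
  have hint : ∀ a : K, IsIntegral R.toSubring a → a ∈ R.toSubring := by
    intro a ha
    have h2 : IsIntegral R a := ha
    obtain ⟨y, hy⟩ := IsIntegrallyClosed.isIntegral_iff.mp h2
    rw [← hy]
    exact y.2
  obtain ⟨m1, m2, -, -, -⟩ := h1 k E L K p e d t R.toSubring X hX hint
  have hmul : ∀ a b : L, algebraMap L K a ∈ R.toSubring → algebraMap L K b ∈ R.toSubring →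
      algebraMap L K (a * b) ∈ R.toSubring := fun a b ha hb => by
    rw [map_mul]
    exact mul_mem ha hb
  have hpow : ∀ (a : L) (n : ℕ), algebraMap L K a ∈ R.toSubring →
      algebraMap L K (a ^ n) ∈ R.toSubring := fun a n ha => by
    rw [map_pow]
    exact pow_mem ha n
  refine ⟨?_, ?_, ?_⟩
  · rintro m m' F F' ⟨l, μ, hl, hμ, rfl⟩ ⟨l', μ', hl', hμ', rfl⟩
    obtain ⟨c, hc, h | h⟩ := MRg_cmp R μ μ'
    · refine ⟨l * l' * c ^ m, μ', hmul _ _ (hmul _ _ hl hl') (hpow _ _ hc), hμ', ?_⟩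
      rw [h]
      ring
    · refine ⟨l * l' * c ^ m', μ, hmul _ _ (hmul _ _ hl hl') (hpow _ _ hc), hμ, ?_⟩
      rw [h]
      ring
  · rintro e' σ F ⟨l, μ, hl, hμ, rfl⟩
    have h2 : l * μ ^ (1 + p ^ e' * σ) = (μ ^ σ) ^ p ^ e' * (l * μ) := by
      rw [← pow_mul, mul_comm σ, pow_add, pow_one]
      ring
    have h3 : ∀ (n : ℕ) (y : L), y ∈ t.MR R.toSubring → t.TL^[n] y ∈ t.MR R.toSubring := by
      intro n
      induction n with
      | zero => exact fun y hy => hy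
      | succ n ih =>
        intro y hy
        rw [Function.iterate_succ_apply']
        exact m2 _ (ih y hy)
    have h4 := h3 e' _ (m1 l hl μ hμ)
    rw [h2, t.trL.iter_mul]
    obtain ⟨c, hc, h | h⟩ := MRg_cmp R (t.TL^[e'] (l * μ)) μ
    · refine ⟨c, μ, hc, hμ, ?_⟩
      rw [h]
      ring
    · refine ⟨c ^ σ, t.TL^[e'] (l * μ), hpow _ _ hc, h4, ?_⟩
      have h5 : μ ^ σ = c ^ σ * (t.TL^[e'] (l * μ)) ^ σ := by
        conv_lhs => rw [h]
        rw [mul_pow]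
      rw [h5]
      ring
  · rintro m l F hl ⟨l', μ, hl', hμ, rfl⟩
    exact ⟨l * l', μ, hmul _ _ hl hl', hμ, (mul_assoc _ _ _).symm⟩

end Pool.Agent.Lib.MP_8bcb2e_ag.F
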