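import Pool.Agent.Lib.MP_8bcb2e_ag.F.Spec
import Pool.Agent.Lib.MP_8bcb2e_ag.SepExists
import Pool.Agent.Lib.MP_8bcb2e_ag.B.MonoSpan
import Pool.Agent.Lib.MP_8bcb2e_ag.B.Fg

/-!
# The descended forms define a generically finite map
-/

set_option autoImplicit false

universe u

namespace Pool.Agent.Lib.MP_8bcb2e_ag.F

open KaehlerDifferential AlgebraicGeometry CategoryTheory Pool.Agent.Lib.MP_8bcb2e_ag.B

/-- the image of `k(u) ⊆ M` under `M → K` is `k(u) ⊆ K` -/
private theorem adjoin_image {k M K : Type u} [Field k] [Field M] [Field K] [Algebra k M]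
    [Algebra k K] [Algebra M K] [IsScalarTower k M K] {d : ℕ} (v : Fin d → M) :
    IntermediateField.map (IsScalarTower.toAlgHom k M K)
      (IntermediateField.adjoin k (Set.range v)) =
    IntermediateField.adjoin k (Set.range fun i => algebraMap M K (v i)) := by
  rw [IntermediateField.adjoin_map]
  congr 1
  rw [← Set.range_comp]
  rfl

section

variable {k E L K : Type u} [Field k] [Field E] [Field L] [Field K] [Algebra k E]
    [Algebra k L] [Algebra k K] [Algebra E L] [Algebra E K] [Algebra L K] [IsScalarTower k E L]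
    [IsScalarTower k E K] [IsScalarTower k L K] [IsScalarTower E L K] {p : ℕ}
    {e d : ℕ} (t : Tw k E L K p e d) (u : Fin d → E)

omit [IsScalarTower k E L] [IsScalarTower k L K] in
/-- the values of `tau` on the `E`-span of `H` -/
private theorem tau_mem [PerfectField k] [Fact p.Prime] [CharP k p] {M : ℕ} {y : Fin M → E} {s : E}
    (hs : s ≠ 0) (hy : ∀ a : E, ∃ c : Fin M → IntermediateField.adjoin k (Set.range u),
      a = ∑ j, (c j : E) * y j) (c₀ : ℕ)
    (W : Submodule (IntermediateField.adjoin k (Set.range (im E K u))) K) (H : L)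
    (hW : ∀ (j : Fin M) (α : Fin d → ℕ), (∀ i, α i < p ^ e) →
      t.tau (algebraMap E L ((∏ i, u i ^ α i) * y j / s ^ c₀) * H) ∈ W) (a : E) :
    t.tau (algebraMap E L a * H) ∈ W := by
  obtain ⟨c, hc⟩ := hy (a * s ^ c₀)
  have hsc : s ^ c₀ ≠ 0 := pow_ne_zero _ hs
  have ha : a = ∑ j, (c j : E) * (y j / s ^ c₀) := by
    have h1 : a = (a * s ^ c₀) / s ^ c₀ := by field_simp
    rw [h1, hc, Finset.sum_div]
    exact Finset.sum_congr rfl fun j _ => by ring
  have himg : ∀ b : E, algebraMap L K (algebraMap E L b) = algebraMap E K b := fun b => by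
    rw [← IsScalarTower.algebraMap_apply]
  obtain ⟨θ, hθ⟩ : ∃ θ : Fin M → K, θ = fun j => t.x ^ (p ^ e - 1) *
    (algebraMap E K (y j / s ^ c₀) * algebraMap L K H) := ⟨_, rfl⟩
  have h2 : t.tau (algebraMap E L a * H) = ∑ j, t.TK^[e] (algebraMap E K (c j : E) * θ j) := by
    unfold Tw.tau
    have h3 : t.x ^ (p ^ e - 1) * algebraMap L K (algebraMap E L a * H) =
        ∑ j, algebraMap E K (c j : E) * θ j := by
      rw [map_mul, himg, ha, map_sum, Finset.sum_mul, Finset.mul_sum]
      refine Finset.sum_congr rfl fun j _ => ?_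
      rw [hθ, map_mul]
      ring
    rw [h3]
    exact map_sum (AddMonoidHom.mk' (t.TK^[e]) (t.trK.iter_add e)) _ _
  rw [h2]
  refine Submodule.sum_mem _ fun j _ => ?_
  refine t_MonoSpan k K p d (im E K u) t.TK t.trK.map_add t.trK.map_pow_mul e W (θ j) ?_ _ ?_
  · intro α hα
    have h3 := hW j α hα
    unfold Tw.tau at h3
    have h4 : t.x ^ (p ^ e - 1) * algebraMap L K
        (algebraMap E L ((∏ i, u i ^ α i) * y j / s ^ c₀) * H) =
        (∏ i, im E K u i ^ α i) * θ j := by
      rw [map_mul, himg, mul_div_assoc, map_mul, map_prod, hθ]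
      simp only [map_pow]
      unfold im
      ring
    rw [h4] at h3
    exact h3
  · have h5 : algebraMap E K (c j : E) ∈ IntermediateField.map (IsScalarTower.toAlgHom k E K)
        (IntermediateField.adjoin k (Set.range u)) := ⟨(c j : E), (c j).2, rfl⟩
    rw [adjoin_image] at h5
    exact h5

end

theorem t_Ndg (h1 : S_Tau.{u}) (h2 : S_Star.{u}) : S_Ndg.{u} := by
  classical
  intro k E L K _ _ _ _ _ _ _ _ _ _ _ _ _ _ _ p _ _ _ e d t u hu M y s hs hy c₀ F F' hF' hFF V hV
  obtain ⟨hadd, hmul, -, -⟩ := h1 k E L K p e d t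
  obtain ⟨hstar, -, -, -⟩ := h2 k E L K p e d t
  have himg : ∀ b : E, algebraMap L K (algebraMap E L b) = algebraMap E K b := fun b => by
    rw [← IsScalarTower.algebraMap_apply]
  have htau0 : t.tau 0 = 0 := by
    have h3 := hadd 0 0
    rw [add_zero] at h3
    exact left_eq_add.mp h3
  have hzpow : ∀ (β : Fin d → ℕ), (∏ i, im E L t.z i ^ β i) = algebraMap E L (∏ i, t.z i ^ β i) := by
    intro β
    rw [map_prod]
    simp only [map_pow]
    rfl
  -- some value is not zero
  obtain ⟨j₀, α₀, hα₀, hne⟩ : ∃ (j : Fin M) (α : Fin d → ℕ), (∀ i, α i < p ^ e) ∧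
      t.tau (algebraMap E L ((∏ i, u i ^ α i) * y j / s ^ c₀) * F') ≠ 0 := by
    by_contra hcon
    push Not at hcon
    have h3 : ∀ a : E, t.tau (algebraMap E L a * F') = 0 := by
      intro a
      have h4 := tau_mem t u hs hy c₀ ⊥ F' (fun j α hα => by
        rw [Submodule.mem_bot]
        exact hcon j α hα) a
      rwa [Submodule.mem_bot] at h4
    apply hF'
    rw [hstar F']
    refine Finset.sum_eq_zero fun α _ => ?_
    rw [hzpow, h3, map_zero, zero_mul]
  obtain ⟨Y₀, hY₀⟩ : ∃ Y₀ : K, Y₀ = algebraMap E K (s ^ c₀) *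
      t.tau (algebraMap E L ((∏ i, u i ^ α₀ i) * y j₀ / s ^ c₀) * F') := ⟨_, rfl⟩
  have hsK : algebraMap E K (s ^ c₀) ≠ 0 := by
    rw [Ne, map_eq_zero]
    exact pow_ne_zero _ hs
  have hY₀ne : Y₀ ≠ 0 := by
    rw [hY₀]
    exact mul_ne_zero hsK hne
  obtain ⟨hY₀V, huY₀⟩ := hV F' (Or.inr rfl) j₀ α₀ hα₀
  rw [← hY₀] at hY₀V
  simp only [← hY₀] at huY₀
  -- the fields
  have huF : ∀ i, algebraMap E K (u i) ∈ ratioField k V := by
    intro i
    refine IntermediateField.subset_adjoin _ _ ⟨_, huY₀ i, Y₀, hY₀V, ?_⟩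
    field_simp
  have hPF : ∀ c ∈ IntermediateField.adjoin k (Set.range (im E K u)), c ∈ ratioField k V := by
    have h3 : IntermediateField.adjoin k (Set.range (im E K u)) ≤ ratioField k V := by
      rw [IntermediateField.adjoin_le_iff]
      rintro _ ⟨i, rfl⟩
      exact huF i
    exact h3
  obtain ⟨A, hA⟩ : ∃ A : IntermediateField (ratioField k V) K,
      A = algebraicClosure (ratioField k V) K := ⟨_, rfl⟩
  have hFA : ∀ c ∈ ratioField k V, c ∈ A := fun c hc => A.algebraMap_mem ⟨c, hc⟩
  have hAalg : ∀ c : K, c ∈ A ↔ IsAlgebraic (ratioField k V) c := fun c => by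
    rw [hA]
    exact mem_algebraicClosure_iff
  -- `E` is in `A`
  have hEA : ∀ a : E, algebraMap E K a ∈ A := by
    intro a
    have hfin : Module.Finite (IntermediateField.adjoin k (Set.range u)) E := by
      refine ⟨⟨Finset.univ.image y, ?_⟩⟩
      rw [eq_top_iff]
      intro b _
      obtain ⟨c, hc⟩ := hy b
      rw [hc]
      refine Submodule.sum_mem _ fun j _ => ?_
      refine Submodule.smul_mem _ (c j) (Submodule.subset_span ?_)
      rw [Finset.coe_image]
      exact ⟨j, Finset.mem_coe.2 (Finset.mem_univ j), rfl⟩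
    have halg : IsAlgebraic (IntermediateField.adjoin k (Set.range u)) a :=
      (Algebra.IsAlgebraic.of_finite (IntermediateField.adjoin k (Set.range u)) E).isAlgebraic a
    rw [hAalg]
    have hmem : ∀ c : IntermediateField.adjoin k (Set.range u),
        algebraMap E K (c : E) ∈ ratioField k V := by
      intro c
      apply hPF
      have h5 : algebraMap E K (c : E) ∈ IntermediateField.map (IsScalarTower.toAlgHom k E K)
          (IntermediateField.adjoin k (Set.range u)) := ⟨(c : E), c.2, rfl⟩
      rw [adjoin_image] at h5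
      exact h5
    obtain ⟨g, hg⟩ : ∃ g : IntermediateField.adjoin k (Set.range u) →+* ratioField k V,
        ∀ c, (g c : K) = algebraMap E K (c : E) :=
      ⟨((algebraMap E K).comp (algebraMap (IntermediateField.adjoin k (Set.range u)) E)).codRestrict
        (ratioField k V) hmem, fun c => rfl⟩
    refine halg.ringHom_of_comp_eq g (algebraMap E K) g.injective ?_
    ext c
    exact hg c
  -- the values of `tau` on the `E`-spans of `F`, `F'`
  have hWA : ∀ H : L, H = F ∨ H = F' → ∀ a : E, ∃ b ∈ A, t.tau (algebraMap E L a * H) = b * Y₀ := by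
    intro H hH a
    obtain ⟨W, hW⟩ : ∃ W : Submodule (IntermediateField.adjoin k (Set.range (im E K u))) K,
        ∀ w, w ∈ W ↔ ∃ b ∈ A, w = b * Y₀ := by
      refine ⟨{
        carrier := {w | ∃ b ∈ A, w = b * Y₀}
        add_mem' := ?_
        zero_mem' := ?_
        smul_mem' := ?_ }, fun w => Iff.rfl⟩
      · rintro _ _ ⟨b, hb, rfl⟩ ⟨b', hb', rfl⟩
        exact ⟨b + b', add_mem hb hb', by ring⟩
      · exact ⟨0, zero_mem _, by ring⟩
      · rintro c _ ⟨b, hb, rfl⟩
        refine ⟨(c : K) * b, mul_mem (hFA _ (hPF _ c.2)) hb, ?_⟩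
        rw [mul_assoc]
        rfl
    rw [← hW]
    refine tau_mem t u hs hy c₀ W H ?_ a
    intro j α hα
    rw [hW]
    obtain ⟨hYV, -⟩ := hV H hH j α hα
    have h3 : algebraMap E K (s ^ c₀) *
        t.tau (algebraMap E L ((∏ i, u i ^ α i) * y j / s ^ c₀) * H) / Y₀ ∈ ratioField k V :=
      IntermediateField.subset_adjoin _ _ ⟨_, hYV, Y₀, hY₀V, rfl⟩
    refine ⟨(algebraMap E K (s ^ c₀))⁻¹ * (algebraMap E K (s ^ c₀) *
        t.tau (algebraMap E L ((∏ i, u i ^ α i) * y j / s ^ c₀) * H) / Y₀),
      mul_mem (inv_mem (hEA _)) (hFA _ h3), ?_⟩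
    field_simp
  -- the image of `H`
  have hHA : ∀ H : L, H = F ∨ H = F' → ∃ b ∈ A, algebraMap L K H = b * Y₀ ^ p ^ e := by
    intro H hH
    have h3 := fun α : Fin d → Fin (p ^ e) =>
      hWA H hH (∏ i, t.z i ^ (p ^ e - 1 - (α i : ℕ)))
    choose b hb hb' using h3
    refine ⟨∑ α : Fin d → Fin (p ^ e), b α ^ p ^ e * algebraMap E K (∏ i, t.z i ^ (α i : ℕ)),
      sum_mem fun α _ => mul_mem (pow_mem (hb α) _) (hEA _), ?_⟩
    rw [hstar H, map_sum, Finset.sum_mul]
    refine Finset.sum_congr rfl fun α _ => ?_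
    rw [hzpow, hzpow, map_mul, himg, t.coe, hb' α, mul_pow]
    ring
  have hwA : algebraMap L K (F / F') ∈ A := by
    obtain ⟨b, hb, h3⟩ := hHA F (Or.inl rfl)
    obtain ⟨b', hb', h4⟩ := hHA F' (Or.inr rfl)
    have h5 : algebraMap L K (F / F') = b / b' := by
      rw [map_div₀, h3, h4, mul_div_mul_right _ _ (pow_ne_zero _ hY₀ne)]
    rw [h5]
    exact div_mem hb hb'
  -- it is transcendental over `k(u)`
  have hwT : Transcendental (IntermediateField.adjoin k (Set.range (im E K u)))
      (algebraMap L K (F / F')) := by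
    intro halg
    apply hFF
    have hEq := adjoin_image (k := k) (K := K) (im E L u)
    have hfam : (fun i => algebraMap L K (im E L u i)) = im E K u := by
      funext i
      exact himg (u i)
    rw [hfam] at hEq
    have hmem : ∀ c : E0 k L u, algebraMap L K (c : L) ∈
        IntermediateField.adjoin k (Set.range (im E K u)) := by
      intro c
      have h5 : algebraMap L K (c : L) ∈ IntermediateField.map (IsScalarTower.toAlgHom k L K)
          (IntermediateField.adjoin k (Set.range (im E L u))) := ⟨(c : L), c.2, rfl⟩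
      rw [hEq] at h5
      exact h5
    obtain ⟨g, hg⟩ : ∃ g : E0 k L u →+* IntermediateField.adjoin k (Set.range (im E K u)),
        ∀ c, (g c : K) = algebraMap L K (c : L) :=
      ⟨((algebraMap L K).comp (algebraMap (E0 k L u) L)).codRestrict
        (IntermediateField.adjoin k (Set.range (im E K u))) hmem, fun c => rfl⟩
    refine IsAlgebraic.of_ringHom_of_comp_eq g (algebraMap L K) halg ?_
      (algebraMap L K).injective ?_
    · rintro ⟨c, hc⟩
      have h5 : c ∈ IntermediateField.map (IsScalarTower.toAlgHom k L K)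
          (IntermediateField.adjoin k (Set.range (im E L u))) := by
        rw [hEq]
        exact hc
      obtain ⟨c', hc', rfl⟩ := h5
      exact ⟨⟨c', hc'⟩, Subtype.ext (hg _)⟩
    · ext c
      exact hg c
  have huK : AlgebraicIndependent k (im E K u) :=
    hu.map' (f := IsScalarTower.toAlgHom k E K) (algebraMap E K).injective
  have hfin := t_Fg sepExists_of k K d (snc (im E K t.z) t.x) t.bK (im E K u) huK
    (algebraMap L K (F / F')) hwT
  -- `K` is algebraic over `A`
  have hPA : ∀ c : IntermediateField.adjoin (IntermediateField.adjoin k (Set.range (im E K u)))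
      {algebraMap L K (F / F')}, (c : K) ∈ A := by
    rintro ⟨c, hc⟩
    induction hc using IntermediateField.adjoin_induction with
    | mem x hx =>
      have hx' : x = algebraMap L K (F / F') := hx
      show x ∈ A
      rw [hx']
      exact hwA
    | algebraMap x => exact hFA _ (hPF _ x.2)
    | add x y hx hy h3 h4 => exact add_mem h3 h4
    | inv x hx h3 => exact inv_mem h3
    | mul x y hx hy h3 h4 => exact mul_mem h3 h4
  have hAK : Algebra.IsAlgebraic A K := by
    refine ⟨fun b => ?_⟩
    have halg : IsAlgebraic (IntermediateField.adjoin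
        (IntermediateField.adjoin k (Set.range (im E K u))) {algebraMap L K (F / F')}) b :=
      (Algebra.IsAlgebraic.of_finite (IntermediateField.adjoin
        (IntermediateField.adjoin k (Set.range (im E K u))) {algebraMap L K (F / F')})
          K).isAlgebraic b
    obtain ⟨g, hg⟩ : ∃ g : IntermediateField.adjoin
        (IntermediateField.adjoin k (Set.range (im E K u))) {algebraMap L K (F / F')} →+* A,
        ∀ c, (g c : K) = (c : K) :=
      ⟨(algebraMap (IntermediateField.adjoin
        (IntermediateField.adjoin k (Set.range (im E K u))) {algebraMap L K (F / F')})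
          K).codRestrict A hPA, fun c => rfl⟩
    refine halg.ringHom_of_comp_eq g (RingHom.id K) g.injective ?_
    ext c
    exact hg c
  have hFAalg : Algebra.IsAlgebraic (ratioField k V) A := by
    rw [hA]
    exact algebraicClosure.isAlgebraic _ _
  exact Algebra.IsAlgebraic.trans (ratioField k V) A K

end Pool.Agent.Lib.MP_8bcb2e_ag.F
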