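import Pool.Agent.Lib.MP_8bcb2e_ag.F.Spec
import Pool.Agent.Lib.MP_8bcb2e_ag.PBasis

/-!
# PbIt: a differential basis is a `p`-basis, for `p ^ e`
-/

set_option autoImplicit false

universe u

namespace Pool.Agent.Lib.MP_8bcb2e_ag.F

open KaehlerDifferential AlgebraicGeometry CategoryTheory Pool.Agent.Lib.MP_8bcb2e_ag.B

namespace PbItAux

variable {K : Type u} [Field K] {n : ℕ}

/-- `a` is a combination of the monomials with `p ^ e`-th powers as coefficients. -/
def P (p e : ℕ) (x : Fin n → K) (a : K) : Prop :=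
  ∃ c : (Fin n → Fin (p ^ e)) → K, a = ∑ α, c α ^ p ^ e * ∏ i, x i ^ (α i : ℕ)

theorem P_add {p : ℕ} [Fact p.Prime] [CharP K p] {e : ℕ} {x : Fin n → K} {a b : K}
    (ha : P p e x a) (hb : P p e x b) : P p e x (a + b) := by
  obtain ⟨c, rfl⟩ := ha
  obtain ⟨c', rfl⟩ := hb
  refine ⟨c + c', ?_⟩
  rw [← Finset.sum_add_distrib]
  refine Finset.sum_congr rfl fun α _ => ?_
  rw [Pi.add_apply, add_pow_char_pow, add_mul]

theorem P_zero {p : ℕ} [Fact p.Prime] {e : ℕ} {x : Fin n → K} : P p e x 0 := by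
  refine ⟨0, ?_⟩
  symm
  refine Finset.sum_eq_zero fun α _ => ?_
  rw [Pi.zero_apply, zero_pow (pow_ne_zero e (Fact.out : p.Prime).ne_zero), zero_mul]

theorem P_sum {p : ℕ} [Fact p.Prime] [CharP K p] {e : ℕ} {x : Fin n → K} {ι : Type}
    (s : Finset ι) {a : ι → K} (h : ∀ i ∈ s, P p e x (a i)) : P p e x (∑ i ∈ s, a i) := by
  classical
  induction s using Finset.induction_on with
  | empty => rw [Finset.sum_empty]; exact P_zero
  | insert i s hi ih =>
    rw [Finset.sum_insert hi]
    exact P_add (h i (Finset.mem_insert_self _ _))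
      (ih fun j hj => h j (Finset.mem_insert_of_mem hj))

theorem P_mon {p : ℕ} [Fact p.Prime] {e : ℕ} {x : Fin n → K} (b : K) (γ : Fin n → ℕ)
    (hγ : ∀ i, γ i < p ^ e) : P p e x (b ^ p ^ e * ∏ i, x i ^ γ i) := by
  classical
  have hq : p ^ e ≠ 0 := pow_ne_zero e (Fact.out : p.Prime).ne_zero
  refine ⟨Pi.single (fun i => ⟨γ i, hγ i⟩) b, ?_⟩
  rw [Finset.sum_eq_single (fun i => (⟨γ i, hγ i⟩ : Fin (p ^ e)))]
  · rw [Pi.single_eq_same]
  · intro α _ hα
    rw [Pi.single_eq_of_ne hα, zero_pow hq, zero_mul]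
  · intro h
    exact absurd (Finset.mem_univ _) h

end PbItAux

open PbItAux in
theorem t_PbIt : S_PbIt.{u} := by
  intro k K _ _ _ _ p _ _ _ n x hx e
  have hKp : CharP K p := charP_of_injective_algebraMap (algebraMap k K).injective p
  have hp : p.Prime := Fact.out
  have key : ∀ a : K, P p e x a := by
    induction e with
    | zero =>
      intro a
      have h := P_mon (p := p) (e := 0) (x := x) a (fun _ => 0) (fun _ => by simp)
      simpa using h
    | succ e ih =>
      intro a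
      obtain ⟨c, hc⟩ := ih a
      choose b hb using fun α : Fin n → Fin (p ^ e) => pBasis_of k K p n x hx (c α)
      rw [hc]
      refine P_sum _ fun α _ => ?_
      rw [hb α, sum_pow_char_pow, Finset.sum_mul]
      refine P_sum _ fun β _ => ?_
      have h1 : (b α β ^ p * ∏ i, x i ^ (β i : ℕ)) ^ p ^ e * ∏ i, x i ^ (α i : ℕ) =
          b α β ^ p ^ (e + 1) * ∏ i, x i ^ ((α i : ℕ) + p ^ e * (β i : ℕ)) := by
        rw [mul_pow, ← pow_mul, ← pow_succ', mul_assoc, ← Finset.prod_pow,
          ← Finset.prod_mul_distrib]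
        congr 1
        refine Finset.prod_congr rfl fun i _ => ?_
        rw [← pow_mul, ← pow_add]
        congr 1
        ring
      rw [h1]
      refine P_mon _ _ fun i => ?_
      have h2 := (α i).2
      have h3 := (β i).2
      calc (α i : ℕ) + p ^ e * (β i : ℕ) < p ^ e + p ^ e * (β i : ℕ) := by omega
        _ = p ^ e * ((β i : ℕ) + 1) := by ring
        _ ≤ p ^ e * p := Nat.mul_le_mul_left _ h3
        _ = p ^ (e + 1) := (pow_succ _ _).symm
  exact key

end Pool.Agent.Lib.MP_8bcb2e_ag.F
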