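import Pool.Agent.Lib.MP_8bcb2e_ag.F.Spec

/-! # The places of `L` over `k(u)` and the places of `K` over `E` -/

set_option autoImplicit false

universe u

namespace Pool.Agent.Lib.MP_8bcb2e_ag.F

open KaehlerDifferential AlgebraicGeometry CategoryTheory Pool.Agent.Lib.MP_8bcb2e_ag.B

namespace PlLAux

theorem e0_eq (k E L : Type u) [Field k] [Field E] [Field L] [Algebra k E] [Algebra k L]
    [Algebra E L] [IsScalarTower k E L] (d : ℕ) (u : Fin d → E) :
    E0 k L u = (IntermediateField.adjoin k (Set.range u)).map (IsScalarTower.toAlgHom k E L) := by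
  rw [IntermediateField.adjoin_map, ← Set.range_comp]
  rfl

theorem mem_of_pow {L : Type u} [Field L] (V : ValuationSubring L) (l : L) (q : ℕ) (hq : 0 < q)
    (h : l ^ q ∈ V) : l ∈ V := by
  rcases V.mem_or_inv_mem l with h1 | h1
  · exact h1
  · by_cases h0 : l = 0
    · rw [h0]
      exact V.zero_mem
    · have h2 : l = l ^ q * l⁻¹ ^ (q - 1) := by
        obtain ⟨m, rfl⟩ : ∃ m, q = m + 1 := ⟨q - 1, by omega⟩
        rw [Nat.add_sub_cancel, pow_succ, inv_pow, mul_comm, ← mul_assoc,
          inv_mul_cancel₀ (pow_ne_zero _ h0), one_mul]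
      rw [h2]
      exact V.mul_mem _ _ h (pow_mem h1 _)

end PlLAux

open PlLAux

theorem t_PlL : S_PlL.{u} := by
  intro k E L K _ _ _ _ _ _ _ _ _ _ _ _ _ _ p _ _ e d t u halg
  have hq : 0 < p ^ e := pow_pos (Fact.out (p := p.Prime)).pos _
  have hφ : ∀ l : L, t.φ (algebraMap L K l) = l ^ p ^ e := by
    intro l
    apply (algebraMap L K).injective
    rw [t.coe, map_pow]
  have hEK : ∀ a : E, algebraMap E K a = algebraMap L K (algebraMap E L a) := fun a =>
    IsScalarTower.algebraMap_apply E L K a
  have hmem : ∀ c ∈ IntermediateField.adjoin k (Set.range u), algebraMap E L c ∈ E0 k L u := by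
    intro c hc
    rw [e0_eq k E L d u]
    exact ⟨c, hc, rfl⟩
  constructor
  · intro V'
    have h1 : (V'.1.comap t.φ).comap (algebraMap L K) = V'.1 := by
      ext l
      rw [ValuationSubring.mem_comap, ValuationSubring.mem_comap, hφ]
      exact ⟨mem_of_pow _ _ _ hq, fun h => pow_mem h _⟩
    refine ⟨V'.1.comap t.φ, ?_, ?_, h1⟩
    · intro a
      rw [ValuationSubring.mem_comap, hEK, hφ]
      apply pow_mem
      let ψ : IntermediateField.adjoin k (Set.range u) →+* V'.1 :=
        ((algebraMap E L).comp (algebraMap (IntermediateField.adjoin k (Set.range u)) E)).codRestrict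
          V'.1.toSubring (fun c => V'.2.1 _ (hmem _ c.2))
      have h2 : IsIntegral V'.1 (algebraMap E L a) := by
        have h3 : IsIntegral (IntermediateField.adjoin k (Set.range u)) a :=
          (halg.isAlgebraic a).isIntegral
        exact h3.map_of_comp_eq ψ (algebraMap E L) (by ext c; rfl)
      obtain ⟨y, hy⟩ := IsIntegrallyClosed.isIntegral_iff.1 h2
      rw [← hy]
      exact y.2
    · intro h
      apply V'.2.2
      rw [← h1, h]
      ext l
      simp
  · intro V hV hne
    refine ⟨⟨V.comap (algebraMap L K), ?_, ?_⟩, rfl⟩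
    · intro a ha
      rw [e0_eq k E L d u] at ha
      obtain ⟨c, hc, rfl⟩ := ha
      rw [ValuationSubring.mem_comap]
      have := hV c
      rw [hEK] at this
      exact this
    · intro h
      apply hne
      ext a
      refine ⟨fun _ => trivial, fun _ => ?_⟩
      apply mem_of_pow _ _ _ hq
      rw [← t.coe, ← ValuationSubring.mem_comap, h]
      trivial

end Pool.Agent.Lib.MP_8bcb2e_ag.F
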