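import Pool.Agent.Lib.MP_8bcb2e_ag.F.Scheme

/-!
# Towers of fibrations in curves over a base
-/

set_option autoImplicit false

universe u

namespace Pool.Agent.Lib.MP_8bcb2e_ag.F

open KaehlerDifferential AlgebraicGeometry CategoryTheory Pool.Agent.Lib.MP_8bcb2e_ag.B

/-- `CurveTower k d r m X gX`: `X = X_m → X_{m-1} → … → X_0`, every `X_i` is integral, smooth and proper
of dimension `d + i` over `k`, `|rK|` of `X_0` is generically finite onto its image, and every
`X_{i+1} → X_i` is dominant, smooth of relative dimension one over a nonempty open subset of `X_i`, with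
a generic fibre of genus at least two (`GenusTwo`). -/
inductive CurveTower (k : Type u) [Field k] (d r : ℕ) :
    (m : ℕ) → (X : Scheme.{u}) → (X ⟶ Spec (.of k)) → Prop
  | base (X : Scheme.{u}) [IsIntegral X] (gX : X ⟶ Spec (.of k)) [IsProper gX]
      [SmoothOfRelativeDimension d gX]
      (hfin : letI := functionFieldAlgebra gX
        ∀ Ψ : Ω[X.functionField⁄k] [⋀^Fin d]→ₗ[X.functionField] X.functionField, Ψ ≠ 0 →
          GenericallyFinite k (sections k Ψ (localRings X) r)) : CurveTower k d r 0 X gX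
  | step (m : ℕ) (X Z : Scheme.{u}) [IsIntegral X] [IsIntegral Z] (gX : X ⟶ Spec (.of k))
      [IsProper gX] [SmoothOfRelativeDimension (d + m + 1) gX] (gZ : Z ⟶ Spec (.of k)) (f : X ⟶ Z)
      [IsDominant f] (hf : f ≫ gZ = gX) (hsm : SmoothGeneric f) (hg : GenusTwo f)
      (hZ : CurveTower k d r m Z gZ) : CurveTower k d r (m + 1) X gX

/-- `R 0 = r`, `R (m + 1) = 1 + (d + m + 2) R m`. For `d = r = 1`: `1, 4, 17, 86, …`. -/
def towerBound (d r : ℕ) : ℕ → ℕ
  | 0 => r
  | m + 1 => 1 + (d + m + 2) * towerBound d r m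

theorem one_le_towerBound {d r : ℕ} (hr : 1 ≤ r) (m : ℕ) : 1 ≤ towerBound d r m := by
  cases m with
  | zero => exact hr
  | succ m => simp [towerBound]

theorem CurveTower.inst {k : Type u} [Field k] {d r m : ℕ} {X : Scheme.{u}}
    {gX : X ⟶ Spec (.of k)} (h : CurveTower k d r m X gX) :
    IsIntegral X ∧ IsProper gX ∧ SmoothOfRelativeDimension (d + m) gX := by
  cases h with
  | base => exact ⟨inferInstance, inferInstance, by assumption⟩
  | step m => exact ⟨inferInstance, inferInstance, by assumption⟩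

theorem curveTower {k : Type u} [Field k] [PerfectField k] (hM : AllM.{u}) (hS : AllS.{u}) (p : ℕ)
    [Fact p.Prime] [CharP k p] {d r m : ℕ} (hd : 1 ≤ d) (hr : 1 ≤ r) {X : Scheme.{u}}
    {gX : X ⟶ Spec (.of k)} (h : CurveTower k d r m X gX) : ∀ (_ : IsIntegral X),
    letI := functionFieldAlgebra gX
    ∀ Ψ : Ω[X.functionField⁄k] [⋀^Fin (d + m)]→ₗ[X.functionField] X.functionField, Ψ ≠ 0 →
      GenericallyFinite k (sections k Ψ (localRings X) (towerBound d r m)) := by
  induction h with
  | base X gX hfin =>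
    intro _
    exact hfin
  | step m X Z gX gZ f hf hsm hg hZ ih =>
    intro _
    have hinst := hZ.inst
    have hpZ := hinst.2.1
    have hsZ := hinst.2.2
    letI := functionFieldAlgebra gX
    letI := functionFieldAlgebra gZ
    have h𝒪Z := isSmoothModel_of_scheme schemeCoord_of schemeComplete_of schemeFin_of Z (d + m) gZ
    obtain ⟨z, hz⟩ := exists_diffBasis h𝒪Z
    obtain ⟨b, hb⟩ := hz
    have hdet : b.det ≠ 0 := by
      intro h0
      have h1 := b.det_self
      rw [h0] at h1
      exact zero_ne_one h1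
    intro Ψ hΨ
    have h2 := step hM hS p (by omega : 1 ≤ d + m) gX gZ f hf hsm hg b.det Ψ hdet hΨ
      (towerBound d r m) (one_le_towerBound hr m) (ih inferInstance b.det hdet)
    have h3 : 1 + towerBound d r m * (d + m + 2) = towerBound d r (m + 1) := by
      rw [towerBound, mul_comm]
    rw [h3] at h2
    exact h2

end Pool.Agent.Lib.MP_8bcb2e_ag.F
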