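import Pool.Agent.Lib.MP_8bcb2e_ag.F.Spec

set_option autoImplicit false

universe u

namespace Pool.Agent.Lib.MP_8bcb2e_ag.F

namespace Rk1Aux

open Polynomial

/-- A nonzero algebraic element of a domain over a field is a unit. -/
theorem unit_of_alg {E R : Type u} [Field E] [CommRing R] [IsDomain R] [Algebra E R] {a : R}
    (ha : a ≠ 0) (h : IsAlgebraic E a) : IsUnit a := by
  let L := FractionRing R
  let f : R →ₐ[E] L := IsScalarTower.toAlgHom E R L
  have hf : Function.Injective f := IsFractionRing.injective R L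
  have hx : IsAlgebraic E ((⟨f a, ⟨a, rfl⟩⟩ : f.range) : L) := by
    change IsAlgebraic E (f a)
    exact (isAlgebraic_algHom_iff f hf).2 h
  obtain ⟨b, hb⟩ := Subalgebra.inv_mem_of_algebraic (A := f.range) hx
  have hb' : f b = (f a)⁻¹ := hb
  have hne : f a ≠ 0 := fun h0 => ha (hf (by rw [h0, map_zero]))
  have : f (a * b) = f 1 := by rw [map_mul, hb', mul_inv_cancel₀ hne, map_one]
  exact IsUnit.of_mul_eq_one _ (hf this)

/-- A relation between `y` and `a` which does not vanish identically for `y = 0`. -/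
theorem exists_biv {E K : Type u} [Field E] [Field K] [Algebra E K] {y a : K}
    (hy : Transcendental E y) (h : IsAlgebraic (IntermediateField.adjoin E {y}) a) :
    ∃ Q : E[X][X], Q.map (constantCoeff : E[X] →+* E) ≠ 0 ∧
      eval₂ (aeval y : E[X] →ₐ[E] K).toRingHom a Q = 0 := by
  classical
  have h1 : IsAlgebraic (Algebra.adjoin E {y}) a := by
    open scoped IntermediateField.algebraAdjoinAdjoin in
    exact (IsFractionRing.isAlgebraic_iff (Algebra.adjoin E {y})
      (IntermediateField.adjoin E {y}) K).2 h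
  obtain ⟨p, hp, hpa⟩ := h1
  let φ : E[X] →+* Algebra.adjoin E {y} :=
    (aeval (⟨y, Algebra.self_mem_adjoin_singleton E y⟩ : Algebra.adjoin E {y})).toRingHom
  have hφs : Function.Surjective φ := by
    rintro ⟨z, hz⟩
    rw [Algebra.adjoin_singleton_eq_range_aeval] at hz
    obtain ⟨r, hr⟩ := hz
    refine ⟨r, Subtype.ext (Eq.trans ?_ hr)⟩
    change ((aeval (⟨y, Algebra.self_mem_adjoin_singleton E y⟩ : Algebra.adjoin E {y}) r :
      Algebra.adjoin E {y}) : K) = aeval y r
    rw [← Subalgebra.aeval_coe]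
  obtain ⟨Q₀, hQ₀⟩ := Polynomial.map_surjective φ hφs p
  have hcomp : (algebraMap (Algebra.adjoin E {y}) K).comp φ =
      (aeval y : E[X] →ₐ[E] K).toRingHom := by
    ext r
    · simp [φ]
    · simp [φ]
  have hQ0 : Q₀ ≠ 0 := by
    rintro rfl
    exact hp (by rw [← hQ₀, Polynomial.map_zero])
  have hv0 : eval₂ (aeval y : E[X] →ₐ[E] K).toRingHom a Q₀ = 0 := by
    rw [← hcomp, ← eval₂_map, hQ₀]
    exact hpa
  let _ : NormalizedGCDMonoid E[X] := Classical.choice inferInstance
  refine ⟨Q₀.primPart, ?_, ?_⟩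
  · intro h0
    have hprim := Q₀.isPrimitive_primPart
    have hdvd : (C X : E[X][X]) ∣ Q₀.primPart := by
      rw [C_dvd_iff_dvd_coeff]
      intro i
      rw [X_dvd_iff]
      have := congrArg (fun q => q.coeff i) h0
      simpa using this
    exact not_isUnit_X (hprim X hdvd)
  · have hc : Q₀.content ≠ 0 := by rwa [Ne, content_eq_zero_iff]
    have hcy : aeval y Q₀.content ≠ 0 := fun h0 => hc ((transcendental_iff.1 hy) _ h0)
    have := hv0
    rw [Q₀.eq_C_content_mul_primPart, eval₂_mul, eval₂_C] at this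
    rcases mul_eq_zero.1 this with h2 | h2
    · exact absurd h2 hcy
    · exact h2

end Rk1Aux

open Rk1Aux Polynomial in
theorem t_Rk1 : S_Rk1.{u} := by
  classical
  intro E K _ _ _ htr O V hnoeth hE hfrac hint hOV hdom _
  let _ : Algebra E O := ((algebraMap E K).codRestrict O hE).toAlgebra
  have : IsScalarTower E O K := IsScalarTower.of_algebraMap_eq fun _ => rfl
  have : IsFractionRing O K := by
    refine IsFractionRing.of_field _ _ fun z => ?_
    obtain ⟨b, hb, c, hc, hc0, rfl⟩ := hfrac z
    exact ⟨⟨b, hb⟩, ⟨c, hc⟩, rfl⟩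
  -- units of `O`
  have hunit : ∀ b : O, (b : K) ≠ 0 → (b : K)⁻¹ ∈ V → IsUnit b := by
    intro b hb hbV
    exact IsUnit.of_mul_eq_one (⟨(b : K)⁻¹, hdom b b.2 hbV⟩ : O)
      (Subtype.ext (mul_inv_cancel₀ hb))
  have : IsLocalRing O := by
    refine IsLocalRing.of_nonunits_add ?_
    let ι : O →+* V := Subring.inclusion hOV
    have hι : ∀ b : O, IsUnit (ι b) → IsUnit b := by
      intro b hb
      obtain ⟨c, hc⟩ := hb.exists_right_inv
      have hc' : (b : K) * (c : K) = 1 := congrArg Subtype.val hc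
      have hb0 : (b : K) ≠ 0 := left_ne_zero_of_mul_eq_one hc'
      refine hunit b hb0 ?_
      rw [inv_eq_of_mul_eq_one_right hc']
      exact c.2
    intro a b ha hb hab
    have h1 : ι a ∈ nonunits V := fun h => ha (hι a h)
    have h2 : ι b ∈ nonunits V := fun h => hb (hι b h)
    have h3 := IsLocalRing.nonunits_add h1 h2
    rw [← map_add] at h3
    exact h3 (hab.map ι)
  have hnorm : IsIntegrallyClosed O := by
    rw [isIntegrallyClosed_iff K]
    intro x hx
    exact ⟨⟨x, hint x hx⟩, rfl⟩
  have hprime : ∀ P : Ideal O, P ≠ ⊥ → P.IsPrime → P = IsLocalRing.maximalIdeal O := by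
    intro P hP hPp
    refine le_antisymm (IsLocalRing.le_maximalIdeal hPp.ne_top) ?_
    intro a ha
    by_contra haP
    obtain ⟨y, hyP, hy0⟩ := Submodule.exists_mem_ne_zero_of_ne_bot hP
    have hytr : Transcendental E (y : K) := by
      intro hal
      have hal' : IsAlgebraic E y := by
        refine (isAlgebraic_algHom_iff (IsScalarTower.toAlgHom E O K) ?_).1 hal
        exact Subtype.val_injective
      exact hPp.ne_top (Ideal.eq_top_of_isUnit_mem _ hyP (unit_of_alg hy0 hal'))
    obtain ⟨Q, hQ, hQv⟩ := exists_biv hytr ((htr y hytr).isAlgebraic (a : K))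
    -- modulo `P`
    have hQO : eval₂ (aeval y : E[X] →ₐ[E] O).toRingHom a Q = 0 := by
      apply Subtype.val_injective
      change (algebraMap O K) (eval₂ (aeval y : E[X] →ₐ[E] O).toRingHom a Q) = 0
      rw [hom_eval₂]
      have hcomp : (algebraMap O K).comp (aeval y : E[X] →ₐ[E] O).toRingHom =
          (aeval (y : K) : E[X] →ₐ[E] K).toRingHom := by
        ext r
        · simp
          rfl
        · simp
          rfl
      rw [hcomp]
      exact hQv
    have hmod : aeval (Ideal.Quotient.mk P a) (Q.map (constantCoeff : E[X] →+* E)) = 0 := by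
      have h1 := congrArg (Ideal.Quotient.mk P) hQO
      rw [hom_eval₂, map_zero] at h1
      have hcomp : (Ideal.Quotient.mk P).comp (aeval y : E[X] →ₐ[E] O).toRingHom =
          (algebraMap E (O ⧸ P)).comp (constantCoeff : E[X] →+* E) := by
        ext r
        · simp
        · simpa using Ideal.Quotient.eq_zero_iff_mem.2 hyP
      rw [hcomp] at h1
      rw [aeval_def, eval₂_map]
      exact h1
    have halg : IsAlgebraic E (Ideal.Quotient.mk P a) := ⟨_, hQ, hmod⟩
    have hne : Ideal.Quotient.mk P a ≠ 0 := fun h => haP (Ideal.Quotient.eq_zero_iff_mem.1 h)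
    have hu := unit_of_alg hne halg
    obtain ⟨c, hc⟩ := hu.exists_right_inv
    obtain ⟨c', rfl⟩ := Ideal.Quotient.mk_surjective c
    rw [← map_mul, ← map_one (Ideal.Quotient.mk P), Ideal.Quotient.eq] at hc
    have h5 : a * c' - 1 ∈ IsLocalRing.maximalIdeal O :=
      IsLocalRing.le_maximalIdeal hPp.ne_top hc
    have h6 : (1 : O) ∈ IsLocalRing.maximalIdeal O := by
      have h8 := Ideal.sub_mem _ (Ideal.mul_mem_right c' _ ha) h5
      rwa [sub_sub_cancel] at h8
    exact (IsLocalRing.maximalIdeal.isMaximal O).ne_top ((Ideal.eq_top_iff_one _).2 h6)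
  have hval : ValuationRing O := by
    have h7 := (tfae_of_isNoetherianRing_of_isLocalRing_of_isDomain (R := O)).out 3 1
    exact h7.1 ⟨hnorm, hprime⟩
  refine le_antisymm ?_ hOV
  intro b hb
  by_contra hbO
  rcases ValuationRing.isInteger_or_isInteger O b with ⟨c, hc⟩ | ⟨c, hc⟩
  · exact hbO (by rw [← hc]; exact c.2)
  · have hmem : b⁻¹ ∈ O := by rw [← hc]; exact c.2
    have := hdom b⁻¹ hmem (by rwa [inv_inv])
    rw [inv_inv] at this
    exact hbO this

end Pool.Agent.Lib.MP_8bcb2e_ag.F
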