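import Pool.Agent.Lib.MP_8bcb2e_ag.F.Spec

/-!
# Generic finiteness does not depend on the reference form
-/

set_option autoImplicit false

universe u

namespace Pool.Agent.Lib.MP_8bcb2e_ag.F

open KaehlerDifferential AlgebraicGeometry CategoryTheory Pool.Agent.Lib.MP_8bcb2e_ag.B

namespace SclAux

theorem alg_congr {k K : Type u} [Field k] [Field K] [Algebra k K] :
    ∀ F F' : IntermediateField k K, F = F' → Algebra.IsAlgebraic F K →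
      Algebra.IsAlgebraic F' K := by
  rintro F _ rfl h
  exact h

theorem sec {k K : Type u} [Field k] [Field K] [Algebra k K] {n : ℕ}
    (Ψ : Ω[K⁄k] [⋀^Fin n]→ₗ[K] K) (𝒪 : Set (Subring K)) (m : ℕ) {c : K} {F : K}
    (h : F ∈ sections k Ψ 𝒪 m) : c ^ m * F ∈ sections k (c • Ψ) 𝒪 m := by
  intro O hO
  obtain ⟨θ, G, hθ, hG, hF⟩ := h O hO
  refine ⟨θ, G, hθ, hG, ?_⟩
  rw [hF, AlternatingMap.smul_apply, smul_eq_mul, mul_pow]
  ring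

theorem sec' {k K : Type u} [Field k] [Field K] [Algebra k K] {n : ℕ}
    (Ψ : Ω[K⁄k] [⋀^Fin n]→ₗ[K] K) (𝒪 : Set (Subring K)) (m : ℕ) {c : K} (hc : c ≠ 0) {F : K}
    (h : F ∈ sections k (c • Ψ) 𝒪 m) : ∃ F' ∈ sections k Ψ 𝒪 m, F = c ^ m * F' := by
  refine ⟨(c⁻¹) ^ m * F, ?_, ?_⟩
  · have h1 := sec (c • Ψ) 𝒪 m (c := c⁻¹) h
    rwa [smul_smul, inv_mul_cancel₀ hc, one_smul] at h1
  · rw [← mul_assoc, ← mul_pow, mul_inv_cancel₀ hc, one_pow, one_mul]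

end SclAux

theorem t_Scl : S_Scl.{u} := by
  intro k K _ _ _ n Ψ 𝒪 m c hc h
  refine SclAux.alg_congr _ _ ?_ h
  unfold ratioField
  congr 1
  ext x
  constructor
  · rintro ⟨a, ha, b, hb, rfl⟩
    obtain ⟨a', ha', rfl⟩ := SclAux.sec' Ψ 𝒪 m hc ha
    obtain ⟨b', hb', rfl⟩ := SclAux.sec' Ψ 𝒪 m hc hb
    exact ⟨a', ha', b', hb', mul_div_mul_left _ _ (pow_ne_zero m hc)⟩
  · rintro ⟨a, ha, b, hb, rfl⟩
    exact ⟨_, SclAux.sec Ψ 𝒪 m ha, _, SclAux.sec Ψ 𝒪 m hb,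
      (mul_div_mul_left _ _ (pow_ne_zero m hc)).symm⟩

end Pool.Agent.Lib.MP_8bcb2e_ag.F
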