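import Pool.Agent.Lib.MP_8bcb2e_ag.F.Spec
import Pool.Agent.Lib.MP_8bcb2e_ag.TraceSections
import Pool.Agent.Lib.MP_8bcb2e_ag.B.MonoSpan

/-!
# F/SecA: the filtration `ASp` and the trace
-/

set_option autoImplicit false

universe u

namespace Pool.Agent.Lib.MP_8bcb2e_ag.F

open KaehlerDifferential AlgebraicGeometry CategoryTheory Pool.Agent.Lib.MP_8bcb2e_ag.B

theorem t_SecA (h1 : S_MRg.{u}) : S_SecA.{u} := by
  intro k E L K _ _ _ _ _ _ _ _ _ _ _ _ _ _ _ p _ _ _ _ e d t u G 𝒪Z 𝒪X W s r h𝒪 hZ hs hus hGT
  -- the elements `g_R` and `u i g_R`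
  have hg : ∀ R : ValuationSubring K, R.toSubring ∈ 𝒪X →
      algebraMap L K (algebraMap E L (s / jac t.ΨE (W R) ^ r)) ∈ R := by
    intro R hR
    rw [← IsScalarTower.algebraMap_apply E L K]
    exact (hZ R hR).2.2 r s hs
  have hug : ∀ R : ValuationSubring K, R.toSubring ∈ 𝒪X → ∀ i,
      algebraMap L K (im E L u i * algebraMap E L (s / jac t.ΨE (W R) ^ r)) ∈ R := by
    intro R hR i
    have h2 : im E L u i * algebraMap E L (s / jac t.ΨE (W R) ^ r) =
        algebraMap E L (u i * s / jac t.ΨE (W R) ^ r) := by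
      rw [mul_div_assoc, map_mul]
      rfl
    rw [h2, ← IsScalarTower.algebraMap_apply E L K]
    exact (hZ R hR).2.2 r (u i * s) (hus i)
  have hM : ∀ R : ValuationSubring K, R.toSubring ∈ 𝒪X →
      (∀ m m' F F', t.Reg m R.toSubring F → t.Reg m' R.toSubring F' →
        t.Reg (m + m') R.toSubring (F * F')) ∧
      (∀ e' σ F, t.Reg (1 + p ^ e' * σ) R.toSubring F →
        t.Reg (1 + σ) R.toSubring (t.TL^[e'] F)) ∧
      ∀ m l F, algebraMap L K l ∈ R → t.Reg m R.toSubring F → t.Reg m R.toSubring (l * F) := by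
    intro R hR
    obtain ⟨X, hX⟩ := h𝒪.coord _ hR
    exact h1 k E L K p e d t R X hX
  refine ⟨?_, ?_, ?_⟩
  · intro m b b' hbb
    rw [ASp, Submodule.span_le]
    intro F hF
    refine Submodule.subset_span ⟨hF.1, fun R hR => ?_⟩
    obtain ⟨c, rfl⟩ := Nat.exists_eq_add_of_le hbb
    have h2 : algebraMap E L (s / jac t.ΨE (W R) ^ r) ^ (b + c) * F =
        algebraMap E L (s / jac t.ΨE (W R) ^ r) ^ c *
          (algebraMap E L (s / jac t.ΨE (W R) ^ r) ^ b * F) := by
      rw [pow_add]; ring
    rw [h2]
    refine (hM R hR).2.2 m _ _ ?_ (hF.2 R hR)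
    rw [map_pow]
    exact pow_mem (hg R hR) c
  · intro m m' b b' x y hx hy
    have hsec : ∀ F F', F ∈ Sec t u G 𝒪X W s r m b → F' ∈ Sec t u G 𝒪X W s r m' b' →
        F * F' ∈ Sec t u G 𝒪X W s r (m + m') (b + b') := by
      intro F F' hF hF'
      refine ⟨G.W_mul hF.1 hF'.1, fun R hR => ?_⟩
      have h2 : algebraMap E L (s / jac t.ΨE (W R) ^ r) ^ (b + b') * (F * F') =
          (algebraMap E L (s / jac t.ΨE (W R) ^ r) ^ b * F) *
            (algebraMap E L (s / jac t.ΨE (W R) ^ r) ^ b' * F') := by
        rw [pow_add]; ring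
      rw [h2]
      exact (hM R hR).1 m m' _ _ (hF.2 R hR) (hF'.2 R hR)
    refine Submodule.span_induction ?_ ?_ ?_ ?_ hx
    · intro F hF
      refine Submodule.span_induction ?_ ?_ ?_ ?_ hy
      · intro F' hF'
        exact Submodule.subset_span (hsec F F' hF hF')
      · rw [mul_zero]; exact Submodule.zero_mem _
      · intro u v _ _ hu hv
        rw [mul_add]; exact Submodule.add_mem _ hu hv
      · intro c u _ hu
        rw [mul_smul_comm]; exact Submodule.smul_mem _ _ hu
    · rw [zero_mul]; exact Submodule.zero_mem _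
    · intro u v _ _ hu hv
      rw [add_mul]; exact Submodule.add_mem _ hu hv
    · intro c u _ hu
      rw [smul_mul_assoc]; exact Submodule.smul_mem _ _ hu
  · intro e' σ a b x hx hab
    set q := p ^ e' with hq
    have hgen : ∀ ε ∈ IntermediateField.adjoin k (Set.range (im E L u)),
        t.TL^[e'] (ε * x) ∈ ASp t u G 𝒪X W s r (1 + σ) b := by
      refine Submodule.span_induction
        (p := fun x _ => ∀ ε ∈ IntermediateField.adjoin k (Set.range (im E L u)),
          t.TL^[e'] (ε * x) ∈ ASp t u G 𝒪X W s r (1 + σ) b) ?_ ?_ ?_ ?_ hx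
      · intro F hF
        refine t_MonoSpan k L p d (im E L u) t.TL t.trL.map_add t.trL.map_pow_mul e' _ F ?_
        intro α hα
        refine Submodule.subset_span ⟨?_, fun R hR => ?_⟩
        · -- the generic fibre
          intro i
          have h2 : (∏ i, im E L u i ^ α i) ∈ E0 k L u :=
            prod_mem fun i _ => pow_mem
              (IntermediateField.subset_adjoin k (Set.range (im E L u)) (Set.mem_range_self i)) (α i)
          have h3 : (∏ i, im E L u i ^ α i) * F ∈ G.W (1 + q * σ) := by
            have h4 := (G.W (1 + q * σ)).smul_mem (⟨_, h2⟩ : E0 k L u) hF.1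
            rwa [IntermediateField.smul_def, smul_eq_mul] at h4
          have h5 : G.Ge i (G.c i + p ^ e' * (σ * G.c i)) ((∏ i, im E L u i ^ α i) * F) := by
            have h6 : G.Ge i (((1 + q * σ : ℕ) : ℤ) * G.c i) ((∏ i, im E L u i ^ α i) * F) := h3 i
            have h7 : ((1 + q * σ : ℕ) : ℤ) * G.c i = G.c i + p ^ e' * (σ * G.c i) := by
              rw [hq]
              push_cast
              ring
            rwa [h7] at h6
          have h8 := G.iter_reg i (σ * G.c i) e' h5
          have h9 : G.c i + σ * G.c i = ((1 + σ : ℕ) : ℤ) * G.c i := by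
            push_cast
            ring
          rw [h9, hGT] at h8
          exact h8
        · have hα' : ∑ i, α i ≤ d * (q - 1) := by
            have h2 : ∑ i, α i ≤ ∑ _i : Fin d, (q - 1) :=
              Finset.sum_le_sum fun i _ => Nat.le_sub_one_of_lt (hα i)
            rwa [Finset.sum_const, Finset.card_univ, Fintype.card_fin, smul_eq_mul] at h2
          obtain ⟨c, hc⟩ := Nat.exists_eq_add_of_le (show a + ∑ i, α i ≤ q * b by omega)
          set g : L := algebraMap E L (s / jac t.ΨE (W R) ^ r) with hgdef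
          have h2 : (g ^ b) ^ q * ((∏ i, im E L u i ^ α i) * F) =
              (g ^ c * ∏ i, (im E L u i * g) ^ α i) * (g ^ a * F) := by
            have h3 : (∏ i, (im E L u i * g) ^ α i) =
                (∏ i, im E L u i ^ α i) * g ^ (∑ i, α i) := by
              rw [← Finset.prod_pow_eq_pow_sum, ← Finset.prod_mul_distrib]
              exact Finset.prod_congr rfl fun i _ => mul_pow _ _ _
            rw [h3, ← pow_mul, mul_comm b q, hc, pow_add, pow_add]
            ring
          have h4 : algebraMap L K (g ^ c * ∏ i, (im E L u i * g) ^ α i) ∈ R := by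
            rw [map_mul, map_pow, map_prod]
            refine mul_mem (pow_mem (hg R hR) c) (prod_mem fun i _ => ?_)
            rw [map_pow]
            exact pow_mem (hug R hR i) (α i)
          have h5 := (hM R hR).2.1 e' σ _ ((hM R hR).2.2 _ _ _ h4 (hF.2 R hR))
          rw [← h2, hq, t.trL.iter_mul] at h5
          exact h5
      · intro ε _
        rw [mul_zero, t.trL.iter_zero]; exact Submodule.zero_mem _
      · intro u v _ _ hu hv ε hε
        rw [mul_add, t.trL.iter_add]; exact Submodule.add_mem _ (hu ε hε) (hv ε hε)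
      · intro c v _ hv ε hε
        have h2 : ε * c • v = (ε * (c : L)) * v := by
          rw [IntermediateField.smul_def, smul_eq_mul, mul_assoc]
        rw [h2]
        exact hv _ (mul_mem hε c.2)
    have := hgen 1 (one_mem _)
    rwa [one_mul] at this

end Pool.Agent.Lib.MP_8bcb2e_ag.F
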