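import Pool.Agent.Lib.MP_8bcb2e_ag.F.Spec

set_option autoImplicit false

universe u

namespace Pool.Agent.Lib.MP_8bcb2e_ag.F

open KaehlerDifferential AlgebraicGeometry CategoryTheory Pool.Agent.Lib.MP_8bcb2e_ag.B

/-- From the span to the generators. -/
theorem t_SecG : S_SecG.{u} := by
  intro k L _ _ _ E' S φ₀ φ₁ hφ₀ hφ₁ htr
  have hφ0 : φ₀ ≠ 0 := by
    rintro rfl
    rw [div_zero] at htr
    exact htr isAlgebraic_zero
  by_contra hcon
  have hcon' : ∀ F ∈ S, ∀ F' ∈ S, F' ≠ 0 → IsAlgebraic E' (F / F') := by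
    intro F hF F' hF' hF'0
    by_contra h
    exact hcon ⟨F, hF, F', hF', hF'0, h⟩
  obtain ⟨F', hF', hF'0⟩ : ∃ F' ∈ S, F' ≠ 0 := by
    by_contra! h
    have h1 : Submodule.span E' S = ⊥ := Submodule.span_eq_bot.2 h
    rw [h1] at hφ₀
    exact hφ0 ((Submodule.mem_bot _).1 hφ₀)
  have h2 : ∀ φ ∈ Submodule.span E' S, IsAlgebraic E' (φ / F') := by
    intro φ hφ
    refine Submodule.span_induction ?_ ?_ ?_ ?_ hφ
    · intro F hF
      exact hcon' F hF F' hF' hF'0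
    · rw [zero_div]; exact isAlgebraic_zero
    · intro x y _ _ hx hy
      rw [add_div]; exact hx.add hy
    · intro c x _ hx
      rw [Algebra.smul_def, mul_div_assoc]
      exact (isAlgebraic_algebraMap c).mul hx
  apply htr
  have h3 := (h2 φ₁ hφ₁).mul (h2 φ₀ hφ₀).inv
  have h4 : φ₁ / F' * (φ₀ / F')⁻¹ = φ₁ / φ₀ := by
    field_simp
  rwa [h4] at h3

end Pool.Agent.Lib.MP_8bcb2e_ag.F
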