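import Pool.Agent.Lib.MP_8bcb2e_ag.F.Spec
import Pool.Agent.Lib.MP_8bcb2e_ag.B.PolySec

/-!
# SecP: poles

Every form of weight `m` that is regular at the places over `k(u)` is in the span `ASp`.
-/

set_option autoImplicit false

universe u

namespace Pool.Agent.Lib.MP_8bcb2e_ag.F

open KaehlerDifferential AlgebraicGeometry CategoryTheory Pool.Agent.Lib.MP_8bcb2e_ag.B

namespace SecPAux

section one

variable {k E : Type u} [Field k] [Field E] [Algebra k E]

/-- a valuation ring that contains `k` and the `t i` contains `k[t]` -/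
theorem adjoin_mem {ν : ℕ} (t : Fin ν → E) (V : ValuationSubring E)
    (hk : ∀ c : k, algebraMap k E c ∈ V) (ht : ∀ i, t i ∈ V) :
    ∀ f ∈ Algebra.adjoin k (Set.range t), f ∈ V := by
  intro f hf
  induction hf using Algebra.adjoin_induction with
  | mem x hx =>
    obtain ⟨i, rfl⟩ := hx
    exact ht i
  | algebraMap c => exact hk c
  | add x y _ _ hx hy => exact V.add_mem _ _ hx hy
  | mul x y _ _ hx hy => exact V.mul_mem _ _ hx hy

/-- if `V` contains `k[t]` and the inverses of its nonzero elements then it contains `k(t)` -/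
theorem field_mem {ν : ℕ} (t : Fin ν → E) (V : ValuationSubring E)
    (hk : ∀ c : k, algebraMap k E c ∈ V) (ht : ∀ i, t i ∈ V)
    (h : ∀ f ∈ Algebra.adjoin k (Set.range t), f ≠ 0 → f⁻¹ ∈ V) :
    ∀ a ∈ IntermediateField.adjoin k (Set.range t), a ∈ V := by
  intro a ha
  rw [IntermediateField.mem_adjoin_iff_div] at ha
  obtain ⟨r, hr, s, hs, rfl⟩ := ha
  rw [div_eq_mul_inv]
  refine V.mul_mem _ _ (adjoin_mem t V hk ht r hr) ?_
  by_cases hs0 : s = 0
  · rw [hs0, inv_zero]
    exact V.zero_mem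
  · exact h s hs hs0

/-- a valuation ring that contains `F` contains everything that is algebraic over `F` -/
theorem alg_mem (F : IntermediateField k E) (V : ValuationSubring E) (hF : ∀ a ∈ F, a ∈ V)
    (halg : Algebra.IsAlgebraic F E) (a : E) : a ∈ V := by
  have h1 : IsIntegral F a := (halg.isAlgebraic a).isIntegral
  obtain ⟨P, hP, h2⟩ := h1
  set g : F →+* V := (algebraMap F E).codRestrict V.toSubring fun x => hF _ x.2 with hg
  have h3 : (algebraMap V E).comp g = algebraMap F E := by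
    ext x
    rfl
  have h4 : IsIntegral V a := by
    refine ⟨P.map g, hP.map g, ?_⟩
    rw [Polynomial.eval₂_map, h3]
    exact h2
  obtain ⟨y, hy⟩ := IsIntegrallyClosed.isIntegral_iff.1 h4
  rw [← hy]
  exact y.2

end one

/-- a larger power -/
theorem pow_mono {K : Type u} [Field K] (V : ValuationSubring K) {y a : K} (hy : y ∈ V) {M M' : ℕ}
    (h : y ^ M * a ∈ V) (hM : M ≤ M') : y ^ M' * a ∈ V := by
  obtain ⟨d, rfl⟩ := Nat.exists_eq_add_of_le hM
  have h1 : y ^ (M + d) * a = y ^ d * (y ^ M * a) := by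
    rw [pow_add]
    ring
  rw [h1]
  exact V.mul_mem _ _ (pow_mem hy d) h

/-- the exponents and the polynomial at one valuation ring -/
theorem single {k E K : Type u} [Field k] [Field E] [Field K] [Algebra k E] [Algebra k K]
    [Algebra E K] [IsScalarTower k E K] {n : ℕ} {𝒪 : Set (Subring K)} (h𝒪 : IsSmoothModel k n 𝒪)
    (hD : HasDivisors k n 𝒪) {ν : ℕ} (t : Fin ν → E)
    (halg : Algebra.IsAlgebraic (IntermediateField.adjoin k (Set.range t)) E)
    (V : ValuationSubring K) (hV : V.toSubring ∈ 𝒪) (hE : ¬ ∀ a : E, algebraMap E K a ∈ V)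
    (a σ : K) :
    ∃ (f : E) (M : ℕ), f ∈ Algebra.adjoin k (Set.range t) ∧ f ≠ 0 ∧
      ((∀ i, algebraMap E K (t i) ∈ V) → ∀ M', M ≤ M' → algebraMap E K f ^ M' * a ∈ V) ∧
      (σ ∈ V → σ⁻¹ ∉ V → ∀ M', M ≤ M' → σ ^ M' * a ∈ V) := by
  have hk : ∀ c : k, algebraMap k E c ∈ V.comap (algebraMap E K) := fun c => by
    rw [ValuationSubring.mem_comap, ← IsScalarTower.algebraMap_apply]
    exact h𝒪.base _ hV c
  have h1 : ∃ f ∈ Algebra.adjoin k (Set.range t), f ≠ 0 ∧
      ∃ M : ℕ, (∀ i, algebraMap E K (t i) ∈ V) → ∀ M', M ≤ M' → algebraMap E K f ^ M' * a ∈ V := by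
    by_cases ht : ∀ i, algebraMap E K (t i) ∈ V
    · have ht' : ∀ i, t i ∈ V.comap (algebraMap E K) := fun i => ht i
      by_cases h : ∀ f ∈ Algebra.adjoin k (Set.range t), f ≠ 0 → f⁻¹ ∈ V.comap (algebraMap E K)
      · have h2 := field_mem t (V.comap (algebraMap E K)) hk ht' h
        have h3 := alg_mem _ (V.comap (algebraMap E K)) h2 halg
        exact absurd (fun b => h3 b) hE
      · push Not at h
        obtain ⟨f, hf, hf0, hfV⟩ := h
        have hfV' : algebraMap E K f ∈ V := adjoin_mem t (V.comap (algebraMap E K)) hk ht' f hf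
        have hfV'' : (algebraMap E K f)⁻¹ ∉ V := by
          intro h4
          apply hfV
          rw [ValuationSubring.mem_comap, map_inv₀]
          exact h4
        obtain ⟨M, hM⟩ := hD.arch V hV _ hfV' hfV'' a
        exact ⟨f, hf, hf0, M, fun _ M' hM' => pow_mono V hfV' hM hM'⟩
    · exact ⟨1, one_mem _, one_ne_zero, 0, fun h => absurd h ht⟩
  obtain ⟨f, hf, hf0, M₁, hM₁⟩ := h1
  have h2 : ∃ M : ℕ, σ ∈ V → σ⁻¹ ∉ V → ∀ M', M ≤ M' → σ ^ M' * a ∈ V := by
    by_cases hσ : σ ∈ V ∧ σ⁻¹ ∉ V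
    · obtain ⟨M, hM⟩ := hD.arch V hV σ hσ.1 hσ.2 a
      exact ⟨M, fun _ _ M' hM' => pow_mono V hσ.1 hM hM'⟩
    · exact ⟨0, fun h h' => absurd ⟨h, h'⟩ hσ⟩
  obtain ⟨M₂, hM₂⟩ := h2
  exact ⟨f, max M₁ M₂, hf, hf0, fun h M' hM' => hM₁ h M' (le_trans (le_max_left _ _) hM'),
    fun h h' M' hM' => hM₂ h h' M' (le_trans (le_max_right _ _) hM')⟩

/-- the image of `k[u]` in `L` -/
theorem map_adjoin {k E L : Type u} [Field k] [Field E] [Field L] [Algebra k E] [Algebra k L]
    [Algebra E L] [IsScalarTower k E L] {d : ℕ} (u : Fin d → E) :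
    ∀ f ∈ Algebra.adjoin k (Set.range u), algebraMap E L f ∈ E0 k L u := by
  intro f hf
  induction hf using Algebra.adjoin_induction with
  | mem x hx =>
    obtain ⟨i, rfl⟩ := hx
    exact IntermediateField.subset_adjoin _ _ ⟨i, rfl⟩
  | algebraMap c =>
    rw [← IsScalarTower.algebraMap_apply]
    exact (E0 k L u).algebraMap_mem c
  | add x y _ _ hx hy => rw [map_add]; exact (E0 k L u).add_mem hx hy
  | mul x y _ _ hx hy => rw [map_mul]; exact (E0 k L u).mul_mem hx hy

end SecPAux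

open SecPAux in
theorem t_SecP (h1 : S_MR.{u}) (h2 : S_MRg.{u}) (h3 : S_HMR.{u}) (h4 : S_PlL.{u}) :
    S_SecP.{u} := by
  classical
  intro k E L K _ _ _ _ _ _ _ _ _ _ _ _ _ _ _ p _ _ _ _ e d t u G 𝒪Z 𝒪X W s r hZ hX hD hW hs0 hs
    hus halg hreg hpl m x hx
  obtain ⟨N, X, hXX⟩ := hD.finCoord
  set μ : Fin N → L := fun j => t.car ((∏ i, X j i ^ (p ^ e - 1)) * jac t.ΨK (X j)) with hμ
  set A : Fin N → L := fun j => x / μ j ^ m with hA
  have hμR : ∀ (R : ValuationSubring K) (j : Fin N), R.toSubring ∈ 𝒪X →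
      IsCoord k R.toSubring (X j) → μ j ∈ t.MR R.toSubring ∧ μ j ≠ 0 := by
    intro R j hR hj
    obtain ⟨_, _, _, h5, h6⟩ := h1 k E L K p e d t R.toSubring (X j) hj (hX.normal _ hR)
    exact ⟨h5, h6⟩
  have hxA : ∀ j, μ j ≠ 0 → x = A j * μ j ^ m := fun j hj =>
    (div_mul_cancel₀ x (pow_ne_zero _ hj)).symm
  -- the bad pairs
  set S : Set (Fin N × ValuationSubring K) :=
    {y | y.2.toSubring ∈ 𝒪X ∧ IsCoord k y.2.toSubring (X y.1) ∧ ¬ t.Reg m y.2.toSubring x} with hS
  have hSA : ∀ y ∈ S, algebraMap L K (A y.1) ∉ y.2 := by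
    rintro ⟨j, R⟩ ⟨h5, h6, h7⟩ h8
    obtain ⟨h9, h10⟩ := hμR R j h5 h6
    exact h7 ⟨A j, μ j, h8, h9, hxA j h10⟩
  have hSfin : S.Finite := by
    have h5 : (⋃ j : Fin N, (fun V : ValuationSubring K => (j, V)) ''
        {V : ValuationSubring K | V.toSubring ∈ 𝒪X ∧ algebraMap L K (A j) ∉ V}).Finite :=
      Set.finite_iUnion fun j => (hD.finite (algebraMap L K (A j))).image _
    refine h5.subset ?_
    rintro ⟨j, V⟩ hjV
    exact Set.mem_iUnion.2 ⟨j, V, ⟨hjV.1, hSA _ hjV⟩, rfl⟩
  -- at the bad pairs the field is not contained in the valuation ring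
  have hbad : ∀ y ∈ S, ¬ ∀ a : E, algebraMap E K a ∈ y.2 := by
    rintro ⟨j, R⟩ hjR h5
    have hne : R ≠ ⊤ := by
      intro h
      have h6 : algebraMap L K (A j) ∉ R := hSA _ hjR
      apply h6
      rw [h]
      exact ValuationSubring.mem_top _
    obtain ⟨V', hV'⟩ := (h4 k E L K p e d t u halg).2 R h5 hne
    have h6 : RegularAt k t.ΨL m V'.1.toSubring x := (hreg V' m x).2 (hx V')
    rw [hV'] at h6
    obtain ⟨π, hπ⟩ := hpl R h5 hne
    exact hjR.2.2 ((h3 k E L K p e d t R π hπ).1 m x h6)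
  -- the local functions of `s`
  set gR : ValuationSubring K → E := fun R => s / jac t.ΨE (W R) ^ r with hgR
  have hch : ∀ y : Fin N × ValuationSubring K, ∃ (f : E) (M : ℕ),
      f ∈ Algebra.adjoin k (Set.range u) ∧ f ≠ 0 ∧ (y ∈ S →
        ((∀ i, algebraMap E K (u i) ∈ y.2) → ∀ M', M ≤ M' →
          algebraMap E K f ^ M' * algebraMap L K (A y.1) ∈ y.2) ∧
        (algebraMap E K (gR y.2) ∈ y.2 → (algebraMap E K (gR y.2))⁻¹ ∉ y.2 → ∀ M', M ≤ M' →
          algebraMap E K (gR y.2) ^ M' * algebraMap L K (A y.1) ∈ y.2)) := by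
    intro y
    by_cases hy : y ∈ S
    · obtain ⟨f, M, h5, h6, h7, h8⟩ := single hX hD u halg y.2 hy.1 (hbad y hy)
        (algebraMap L K (A y.1)) (algebraMap E K (gR y.2))
      exact ⟨f, M, h5, h6, fun _ => ⟨h7, h8⟩⟩
    · exact ⟨1, 0, one_mem _, one_ne_zero, fun h => absurd h hy⟩
  choose f M hfa hf0 hfM using hch
  set Mt : ℕ := hSfin.toFinset.sup M with hMt
  have hMle : ∀ y ∈ S, M y ≤ Mt := fun y hy =>
    Finset.le_sup (f := M) (hSfin.mem_toFinset.2 hy)
  set g : E := ∏ y ∈ hSfin.toFinset, f y ^ Mt with hg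
  have hga : g ∈ Algebra.adjoin k (Set.range u) :=
    prod_mem fun y _ => pow_mem (hfa y) _
  have hg0 : g ≠ 0 := Finset.prod_ne_zero_iff.2 fun y _ => pow_ne_zero _ (hf0 y)
  obtain ⟨d₀, hd₀⟩ := B.t_PolySec k E d t.ΨE 𝒪Z hZ r d u s hs hus g hga
  have hgL : algebraMap E L g ∈ E0 k L u := map_adjoin u g hga
  have hgL0 : algebraMap E L g ≠ 0 := by
    rw [Ne, map_eq_zero]
    exact hg0
  have hELK : ∀ b : E, algebraMap L K (algebraMap E L b) = algebraMap E K b := fun b =>
    (IsScalarTower.algebraMap_apply E L K b).symm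
  refine ⟨d₀ + Mt, ?_⟩
  have hmain : algebraMap E L g * x ∈ Sec t u G 𝒪X W s r m (d₀ + Mt) := by
    constructor
    · have h5 := (G.W m).smul_mem (⟨algebraMap E L g, hgL⟩ : E0 k L u) hx
      exact h5
    · intro R hR
      obtain ⟨j, hj⟩ := hXX R.toSubring hR
      obtain ⟨hμ1, hμ2⟩ := hμR R j hR hj
      obtain ⟨hWb, _, hWs⟩ := hW R hR
      have hJ0 : jac t.ΨE (W R) ≠ 0 := psi_ne_zero t.ΨE hWb fun h0 => by
        have h5 := t.nE
        rw [h0] at h5
        exact zero_ne_one h5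
      have hJr : jac t.ΨE (W R) ^ r ≠ 0 := pow_ne_zero _ hJ0
      have hgR0 : gR R ≠ 0 := div_ne_zero hs0 hJr
      have hgRR : algebraMap E K (gR R) ∈ R := hWs r s hs
      have huR : ∀ i, algebraMap E K (u i * gR R) ∈ R := by
        intro i
        have h5 := hWs r (u i * s) (hus i)
        have h6 : u i * s / jac t.ΨE (W R) ^ r = u i * gR R := by
          rw [hgR]
          exact mul_div_assoc _ _ _
        rw [h6] at h5
        exact h5
      have hgd : algebraMap E K (gR R ^ d₀ * g) ∈ R := by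
        have h5 := hWs (d₀ * r) (g * s ^ d₀) (hd₀ d₀ le_rfl)
        have h6 : g * s ^ d₀ / jac t.ΨE (W R) ^ (d₀ * r) = gR R ^ d₀ * g := by
          change g * s ^ d₀ / jac t.ΨE (W R) ^ (d₀ * r) = (s / jac t.ΨE (W R) ^ r) ^ d₀ * g
          rw [div_pow, ← pow_mul, mul_comm r d₀]
          ring
        rw [h6] at h5
        exact h5
      change t.Reg m R.toSubring (algebraMap E L (gR R) ^ (d₀ + Mt) * (algebraMap E L g * x))
      by_cases hreg' : t.Reg m R.toSubring x
      · have h5 : algebraMap E L (gR R) ^ (d₀ + Mt) * (algebraMap E L g * x) =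
            algebraMap E L (gR R ^ Mt * (gR R ^ d₀ * g)) * x := by
          rw [map_mul, map_mul, map_pow, map_pow, pow_add]
          ring
        rw [h5]
        refine (h2 k E L K p e d t R (X j) hj).2.2 m _ x ?_ hreg'
        rw [hELK, map_mul, map_pow]
        exact R.mul_mem _ _ (pow_mem hgRR _) hgd
      · have hyS : ((j, R) : Fin N × ValuationSubring K) ∈ S := ⟨hR, hj, hreg'⟩
        obtain ⟨hf1, hf2⟩ := hfM (j, R) hyS
        by_cases hinv : (algebraMap E K (gR R))⁻¹ ∈ R
        · have huR' : ∀ i, algebraMap E K (u i) ∈ R := by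
            intro i
            have h5 : algebraMap E K (u i) =
                algebraMap E K (u i * gR R) * (algebraMap E K (gR R))⁻¹ := by
              rw [map_mul, mul_assoc, mul_inv_cancel₀, mul_one]
              rw [Ne, map_eq_zero]
              exact hgR0
            rw [h5]
            exact R.mul_mem _ _ (huR i) hinv
          have h6 : algebraMap E K (f (j, R)) ^ Mt * algebraMap L K (A j) ∈ R :=
            hf1 huR' Mt (hMle _ hyS)
          have hk : ∀ c : k, algebraMap k E c ∈ R.comap (algebraMap E K) := fun c => by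
            rw [ValuationSubring.mem_comap, ← IsScalarTower.algebraMap_apply]
            exact hX.base _ hR c
          have h7 : g = f (j, R) ^ Mt * ∏ y ∈ hSfin.toFinset.erase (j, R), f y ^ Mt :=
            (Finset.mul_prod_erase _ _ (hSfin.mem_toFinset.2 hyS)).symm
          have h8 : algebraMap E K (∏ y ∈ hSfin.toFinset.erase (j, R), f y ^ Mt) ∈ R := by
            have h9 : (∏ y ∈ hSfin.toFinset.erase (j, R), f y ^ Mt) ∈
                R.comap (algebraMap E K) :=
              prod_mem fun y _ => pow_mem (adjoin_mem u _ hk (fun i => huR' i) _ (hfa y)) _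
            exact h9
          refine ⟨algebraMap E L (gR R) ^ (d₀ + Mt) * (algebraMap E L g * A j), μ j, ?_, hμ1, ?_⟩
          · rw [map_mul, map_pow, map_mul, hELK, hELK, h7, map_mul, map_pow]
            have h9 : algebraMap E K (gR R) ^ (d₀ + Mt) * (algebraMap E K (f (j, R)) ^ Mt *
                algebraMap E K (∏ y ∈ hSfin.toFinset.erase (j, R), f y ^ Mt) *
                algebraMap L K (A j)) = algebraMap E K (gR R) ^ (d₀ + Mt) *
                ((algebraMap E K (f (j, R)) ^ Mt * algebraMap L K (A j)) *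
                  algebraMap E K (∏ y ∈ hSfin.toFinset.erase (j, R), f y ^ Mt)) := by ring
            rw [h9]
            exact R.mul_mem _ _ (pow_mem hgRR _) (R.mul_mem _ _ h6 h8)
          · conv_lhs => rw [hxA j hμ2]
            ring
        · have h6 : algebraMap E K (gR R) ^ Mt * algebraMap L K (A j) ∈ R :=
            hf2 hgRR hinv Mt (hMle _ hyS)
          refine ⟨algebraMap E L (gR R) ^ (d₀ + Mt) * (algebraMap E L g * A j), μ j, ?_, hμ1, ?_⟩
          · rw [map_mul, map_pow, map_mul, hELK, hELK]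
            have h9 : algebraMap E K (gR R) ^ (d₀ + Mt) * (algebraMap E K g *
                algebraMap L K (A j)) = algebraMap E K (gR R ^ d₀ * g) *
                (algebraMap E K (gR R) ^ Mt * algebraMap L K (A j)) := by
              rw [map_mul, map_pow, pow_add]
              ring
            rw [h9]
            exact R.mul_mem _ _ hgd h6
          · conv_lhs => rw [hxA j hμ2]
            ring
  have hfin : x = (⟨algebraMap E L g, hgL⟩ : E0 k L u)⁻¹ • (algebraMap E L g * x) := by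
    rw [Algebra.smul_def]
    change x = (algebraMap E L g)⁻¹ * (algebraMap E L g * x)
    rw [inv_mul_cancel_left₀ hgL0]
  rw [hfin]
  exact Submodule.smul_mem _ _ (Submodule.subset_span hmain)

end Pool.Agent.Lib.MP_8bcb2e_ag.F
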