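import Pool.Agent.Lib.MP_8bcb2e_ag.F.Spec

/-!
# Coordinates from a relative coordinate
-/

set_option autoImplicit false

universe u

namespace Pool.Agent.Lib.MP_8bcb2e_ag.F

open KaehlerDifferential AlgebraicGeometry CategoryTheory Pool.Agent.Lib.MP_8bcb2e_ag.B

namespace SmAAux

/-- the `O`-span of the differentials -/
noncomputable def NN (k : Type u) {K : Type u} [Field k] [Field K] [Algebra k K] (O : Subring K)
    {n : ℕ} (w : Fin n → K) : Submodule O Ω[K⁄k] :=
  Submodule.span O (Set.range fun i => D k K (w i))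

theorem mem_NN {k : Type u} {K : Type u} [Field k] [Field K] [Algebra k K] {O : Subring K}
    {n : ℕ} {w : Fin n → K} {θ : Ω[K⁄k]} (h : θ ∈ NN k O w) :
    ∃ c : Fin n → K, (∀ i, c i ∈ O) ∧ θ = ∑ i, c i • D k K (w i) := by
  obtain ⟨c, hc⟩ := (Submodule.mem_span_range_iff_exists_fun O).1 h
  exact ⟨fun i => (c i : K), fun i => (c i).2, hc.symm⟩

theorem smul_NN {k : Type u} {K : Type u} [Field k] [Field K] [Algebra k K] {O : Subring K}
    {n : ℕ} {w : Fin n → K} {θ : Ω[K⁄k]} (h : θ ∈ NN k O w) {a : K} (ha : a ∈ O) :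
    a • θ ∈ NN k O w := Submodule.smul_mem (NN k O w) (⟨a, ha⟩ : O) h

theorem D_NN {k : Type u} {K : Type u} [Field k] [Field K] [Algebra k K] (O : Subring K)
    {n : ℕ} (w : Fin n → K) (i : Fin n) : D k K (w i) ∈ NN k O w :=
  Submodule.subset_span ⟨i, rfl⟩

section

variable {k E K : Type u} [Field k] [Field E] [Field K] [Algebra k E] [Algebra k K] [Algebra E K]
  [IsScalarTower k E K] {d : ℕ} {z : Fin d → E} (hz : IsDiffBasis k z) (y : K) {O : Subring K}
  (hO : ∀ a : E, algebraMap E K a ∈ O)

include hz hO in
theorem base (c : E) : D k K (algebraMap E K c) ∈ NN k O (snc (im E K z) y) := by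
  obtain ⟨b, hb⟩ := hz
  have h1 : D k E c = ∑ i, b.repr (D k E c) i • D k E (z i) := by
    conv_lhs => rw [← b.sum_repr (D k E c)]
    exact Finset.sum_congr rfl fun i _ => by rw [hb]
  have h2 := congrArg (KaehlerDifferential.map k k E K) h1
  rw [KaehlerDifferential.map_D, map_sum] at h2
  rw [h2]
  refine Submodule.sum_mem _ fun i _ => ?_
  rw [map_smul, KaehlerDifferential.map_D, ← algebraMap_smul K]
  refine smul_NN ?_ (hO _)
  have h3 := D_NN (k := k) O (snc (im E K z) y) i.castSucc
  rw [snc_castSucc] at h3
  exact h3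

end

end SmAAux

open SmAAux in
theorem t_SmA : S_SmA.{u} := by
  intro k A B E K _ _ _ _ _ _ _ _ _ _ _ _ _ _ _ _ _ _ _ _ _ _ d x₀ hx₀ y hy z hz O hE hB hfr
  set w : Fin (d + 1) → K := snc (im E K z) (algebraMap B K y) with hw
  have hbase : ∀ c : E, D k K (algebraMap E K c) ∈ NN k O w := fun c => base hz _ hE c
  have hA : ∀ ω : Ω[A⁄k],
      KaehlerDifferential.map k k B K (KaehlerDifferential.map k k A B ω) ∈ NN k O w := by
    intro ω
    have h1 : ω ∈ Submodule.span A (Set.range (D k A)) := by
      rw [KaehlerDifferential.span_range_derivation]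
      exact Submodule.mem_top
    refine Submodule.span_induction ?_ ?_ ?_ ?_ h1
    · rintro _ ⟨a, rfl⟩
      rw [KaehlerDifferential.map_D, KaehlerDifferential.map_D,
        ← IsScalarTower.algebraMap_apply A B K, IsScalarTower.algebraMap_apply A E K]
      exact hbase _
    · rw [map_zero, map_zero]
      exact Submodule.zero_mem _
    · intro a b _ _ ha hb
      rw [map_add, map_add]
      exact Submodule.add_mem _ ha hb
    · intro a b _ hb
      have h2 : KaehlerDifferential.map k k A B (a • b) =
          algebraMap A B a • KaehlerDifferential.map k k A B b := by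
        rw [map_smul, algebraMap_smul]
      rw [h2, map_smul, ← algebraMap_smul K]
      exact smul_NN hb (hB _)
  have hker : ∀ t : TensorProduct A B Ω[A⁄k],
      KaehlerDifferential.map k k B K (KaehlerDifferential.mapBaseChange k A B t) ∈ NN k O w := by
    intro t
    induction t with
    | zero =>
      rw [map_zero, map_zero]
      exact Submodule.zero_mem _
    | tmul b ω =>
      rw [KaehlerDifferential.mapBaseChange_tmul, map_smul, ← algebraMap_smul K]
      exact smul_NN (hA ω) (hB b)
    | add s t hs ht =>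
      rw [map_add, map_add]
      exact Submodule.add_mem _ hs ht
  have hyN : D k K (algebraMap B K y) ∈ NN k O w := by
    have h3 := D_NN (k := k) O w (Fin.last d)
    rw [hw, snc_last] at h3
    exact h3
  have hBN : ∀ b : B, D k K (algebraMap B K b) ∈ NN k O w := by
    intro b
    obtain ⟨c, hc⟩ := hy b
    have h1 : D k B b - c • D k B y ∈ LinearMap.ker (KaehlerDifferential.map k A B B) := by
      rw [LinearMap.mem_ker, map_sub, map_smul, KaehlerDifferential.map_D,
        KaehlerDifferential.map_D]
      exact sub_eq_zero.2 hc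
    rw [← KaehlerDifferential.range_mapBaseChange] at h1
    obtain ⟨t, ht⟩ := h1
    have h2 := hker t
    rw [ht, map_sub, map_smul, KaehlerDifferential.map_D, KaehlerDifferential.map_D,
      ← algebraMap_smul K] at h2
    have h3 := Submodule.add_mem _ h2 (smul_NN hyN (hB c))
    rwa [sub_add_cancel] at h3
  have hON : ∀ a ∈ O, D k K a ∈ NN k O w := by
    intro a ha
    obtain ⟨β, s, hs0, hsO, has⟩ := hfr a ha
    have hs : algebraMap B K s ≠ 0 := by
      intro h0
      exact hs0 (IsFractionRing.injective B K (h0.trans (map_zero _).symm))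
    have h1 : a * algebraMap B K s = algebraMap B K β := by
      rw [has, mul_assoc, inv_mul_cancel₀ hs, mul_one]
    have h2 : D k K a = (algebraMap B K s)⁻¹ •
        (D k K (algebraMap B K β) - a • D k K (algebraMap B K s)) := by
      rw [← h1, Derivation.leibniz, add_sub_cancel_left, smul_smul, inv_mul_cancel₀ hs, one_smul]
    rw [h2]
    exact smul_NN (Submodule.sub_mem _ (hBN β) (smul_NN (hBN s) ha)) hsO
  refine ⟨?_, ?_, ?_⟩
  · intro i
    refine Fin.lastCases ?_ (fun j => ?_) i
    · rw [hw, snc_last]
      exact hB y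
    · rw [hw, snc_castSucc]
      exact hE _
  · have hsp : ∀ κ : K, D k K κ ∈ Submodule.span K (Set.range fun i => D k K (w i)) := by
      have h0 : ∀ θ ∈ NN k O w, θ ∈ Submodule.span K (Set.range fun i => D k K (w i)) := by
        intro θ hθ
        obtain ⟨c, -, rfl⟩ := mem_NN hθ
        exact Submodule.sum_mem _ fun i _ =>
          Submodule.smul_mem _ _ (Submodule.subset_span ⟨i, rfl⟩)
      intro κ
      obtain ⟨β, s, hs, rfl⟩ := IsFractionRing.div_surjective (A := B) κ
      have hs' : algebraMap B K s ≠ 0 := by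
        intro h1
        exact (mem_nonZeroDivisors_iff_ne_zero.1 hs)
          (IsFractionRing.injective B K (h1.trans (map_zero _).symm))
      set a : K := algebraMap B K β / algebraMap B K s with ha
      have h1 : a * algebraMap B K s = algebraMap B K β := div_mul_cancel₀ _ hs'
      have h2 : D k K a = (algebraMap B K s)⁻¹ •
          (D k K (algebraMap B K β) - a • D k K (algebraMap B K s)) := by
        rw [← h1, Derivation.leibniz, add_sub_cancel_left, smul_smul, inv_mul_cancel₀ hs',
          one_smul]
      rw [h2]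
      exact Submodule.smul_mem _ _ (Submodule.sub_mem _ (h0 _ (hBN β))
        (Submodule.smul_mem _ _ (h0 _ (hBN s))))
    have htop : ⊤ ≤ Submodule.span K (Set.range fun i => D k K (w i)) := by
      rw [← KaehlerDifferential.span_range_derivation k K, Submodule.span_le]
      rintro _ ⟨κ, rfl⟩
      exact hsp κ
    obtain ⟨b₀, hb₀⟩ := hx₀
    have hcard : Fintype.card (Fin (d + 1)) = Module.finrank K Ω[K⁄k] :=
      (Module.finrank_eq_card_basis b₀).symm
    refine ⟨basisOfTopLeSpanOfCardEqFinrank _ htop hcard, fun i => ?_⟩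
    rw [coe_basisOfTopLeSpanOfCardEqFinrank]
  · intro a ha
    exact mem_NN (hON a ha)

end Pool.Agent.Lib.MP_8bcb2e_ag.F
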