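import Pool.Agent.Lib.MP_8bcb2e_ag.F.Spec
import Pool.Agent.Lib.MP_8bcb2e_ag.SchemeCoord

/-!
# Coordinates at the points of the generic fibre
-/

set_option autoImplicit false

universe u

namespace Pool.Agent.Lib.MP_8bcb2e_ag.F

open KaehlerDifferential AlgebraicGeometry CategoryTheory Pool.Agent.Lib.MP_8bcb2e_ag.B

namespace SmCAux

/-- affine charts with a standard smooth map -/
theorem charts (X Z : Scheme.{u}) (f : X ⟶ Z) (U : Z.Opens)
    (_ : SmoothOfRelativeDimension 1 (f ∣_ U)) (x : X) (hx : f x ∈ U) :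
    ∃ (V : Z.Opens) (_ : IsAffineOpen V) (W : X.Opens) (_ : IsAffineOpen W) (_ : x ∈ W)
      (e : W ≤ f ⁻¹ᵁ V), (f.appLE V W e).hom.IsStandardSmoothOfRelativeDimension 1 := by
  obtain ⟨U', hU', V', hV', hx', e, hf⟩ :=
    SmoothOfRelativeDimension.exists_isStandardSmoothOfRelativeDimension (n := 1) (f := f ∣_ U)
      ⟨x, hx⟩
  rw [morphismRestrict_appLE] at hf
  exact ⟨U.ι ''ᵁ U', hU'.image_of_isOpenImmersion _, (f ⁻¹ᵁ U).ι ''ᵁ V',
    hV'.image_of_isOpenImmersion _, ⟨⟨x, hx⟩, hx', rfl⟩, _, hf⟩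

/-- the map of the function fields on sections -/
theorem ffm_germ (X Z : Scheme.{u}) [IsIntegral X] [IsIntegral Z] (f : X ⟶ Z)
    (h : f (genericPoint X) = genericPoint Z) (V : Z.Opens) (W : X.Opens) [Nonempty V] [Nonempty W]
    (e : W ≤ f ⁻¹ᵁ V) (a : Γ(Z, V)) :
    ffm f h (Z.germToFunctionField V a) = X.germToFunctionField W ((f.appLE V W e).hom a) := by
  have h1 : Z.germToFunctionField V ≫
      (Z.presheaf.stalkSpecializes (specializes_of_eq h) ≫ f.stalkMap (genericPoint X)) =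
      f.appLE V W e ≫ X.germToFunctionField W := by
    have hW : genericPoint X ∈ W :=
      ((genericPoint_spec X).mem_open_set_iff W.isOpen).mpr (by simpa using ‹Nonempty W›)
    rw [Scheme.Hom.appLE, Category.assoc]
    erw [X.presheaf.germ_res (homOfLE e) (genericPoint X) hW]
    erw [TopCat.Presheaf.germ_stalkSpecializes_assoc, Scheme.Hom.germ_stalkMap]
  exact congrArg (fun g => g.hom a) h1

/-- elements of the local ring -/
theorem local_frac (X : Scheme.{u}) [IsIntegral X] (V : X.Opens) (hV : IsAffineOpen V) (x : X)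
    (hx : x ∈ V) [Nonempty V] :
    (∀ β : Γ(X, V), algebraMap Γ(X, V) X.functionField β ∈ localRing X x) ∧
    ∀ a ∈ localRing X x, ∃ β s : Γ(X, V), s ≠ 0 ∧
      (algebraMap Γ(X, V) X.functionField s)⁻¹ ∈ localRing X x ∧
      a = algebraMap Γ(X, V) X.functionField β * (algebraMap Γ(X, V) X.functionField s)⁻¹ := by
  constructor
  · intro β
    exact ⟨X.presheaf.germ V x hx β, Scheme.algebraMap_germ_eq_germToFunctionField X hx β⟩
  · rintro _ ⟨z, rfl⟩
    let algS := TopCat.Presheaf.algebra_section_stalk X.presheaf (⟨x, hx⟩ : V)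
    have hloc := hV.isLocalization_stalk ⟨x, hx⟩
    obtain ⟨β, s, rfl⟩ := IsLocalization.exists_mk'_eq
      (hV.primeIdealOf ⟨x, hx⟩).asIdeal.primeCompl z
    have hgerm : ∀ β : Γ(X, V), algebraMap Γ(X, V) (X.presheaf.stalk x) β =
        X.presheaf.germ V x hx β := fun _ => rfl
    have hK : ∀ β : Γ(X, V), algebraMap (X.presheaf.stalk x) X.functionField
        (algebraMap Γ(X, V) (X.presheaf.stalk x) β) = algebraMap Γ(X, V) X.functionField β :=
      fun β => Scheme.algebraMap_germ_eq_germToFunctionField X hx β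
    obtain ⟨w, hw⟩ := (IsLocalization.map_units (X.presheaf.stalk x) s).exists_right_inv
    have hw' : algebraMap Γ(X, V) X.functionField s *
        algebraMap (X.presheaf.stalk x) X.functionField w = 1 := by
      rw [← hK, ← map_mul, hw, map_one]
    have hs0 : algebraMap Γ(X, V) X.functionField s ≠ 0 := left_ne_zero_of_mul_eq_one hw'
    have hinv : (algebraMap Γ(X, V) X.functionField s)⁻¹ =
        algebraMap (X.presheaf.stalk x) X.functionField w :=
      (eq_inv_of_mul_eq_one_right hw').symm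
    refine ⟨β, s, fun h => hs0 (by rw [h, map_zero]), ⟨w, hinv.symm⟩, ?_⟩
    rw [eq_mul_inv_iff_mul_eq₀ hs0, ← hK, ← hK, ← map_mul, IsLocalization.mk'_spec]

/-- the map from the ground field to the function field factors through sections -/
theorem tower_field (k : Type u) [Field k] (X : Scheme.{u}) [IsIntegral X]
    (g : X ⟶ Spec (.of k)) (V : X.Opens) [Nonempty V] (e : V ≤ g ⁻¹ᵁ ⊤) :
    toFunctionField g = (X.germToFunctionField V).hom.comp
      ((Scheme.ΓSpecIso (.of k)).inv ≫ g.appLE ⊤ V e).hom := by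
  have h1 : g.appLE ⊤ V e ≫ X.germToFunctionField V =
      g.appTop ≫ X.presheaf.germ ⊤ (genericPoint X) trivial := by
    rw [Scheme.Hom.appLE, Category.assoc, X.presheaf.germ_res]
    rfl
  have h2 : ((Scheme.ΓSpecIso (.of k)).inv ≫ g.appLE ⊤ V e) ≫ X.germToFunctionField V =
      (Scheme.ΓSpecIso (.of k)).inv ≫ g.appTop ≫
        X.presheaf.germ ⊤ (genericPoint X) trivial := by
    rw [Category.assoc, h1]
  exact (congrArg CommRingCat.Hom.hom h2).symm

/-- composition of maps of sections -/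
theorem appLE_comp_of {X Z S : Scheme.{u}} (f : X ⟶ Z) (g : Z ⟶ S) (gX : X ⟶ S)
    (hf : f ≫ g = gX) (V : Z.Opens) (W : X.Opens) (e : W ≤ f ⁻¹ᵁ V) (e1 : V ≤ g ⁻¹ᵁ ⊤)
    (e2 : W ≤ gX ⁻¹ᵁ ⊤) : gX.appLE ⊤ W e2 = g.appLE ⊤ V e1 ≫ f.appLE V W e := by
  subst hf
  rw [Scheme.Hom.appLE_comp_appLE]

/-- a standard smooth homomorphism of relative dimension one has a relative coordinate -/
theorem rel_coord (A B : Type u) [CommRing A] [CommRing B] [Algebra A B]
    (h : (algebraMap A B).IsStandardSmoothOfRelativeDimension 1) :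
    ∃ y : B, ∀ b : B, ∃ c : B, D A B b = c • D A B y := by
  have : Algebra.IsStandardSmoothOfRelativeDimension 1 A B := by
    have h' := h
    rw [RingHom.isStandardSmoothOfRelativeDimension_algebraMap] at h'
    exact h'
  obtain ⟨y, b, hb⟩ := SchemeCoordAux.exists_basis A B 1
  refine ⟨y 0, fun β => ⟨b.repr (D A B β) 0, ?_⟩⟩
  conv_lhs => rw [← b.sum_repr (D A B β)]
  rw [Fin.sum_univ_one, hb]

end SmCAux

open SmCAux

theorem t_SmC (h1 : S_FFc.{u}) (h2 : S_Ctr.{u}) (h3 : S_SmA.{u}) : S_SmC.{u} := by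
  intro k _ X Z _ _ d gX _ gZ f hf h U hU hs
  let algEK := ffAlgebra f h
  let algkK := functionFieldAlgebra gX
  let algkE := functionFieldAlgebra gZ
  intro z hz x hx
  have hfx : f x = genericPoint Z := (h2 X Z f h x).2 hx
  have hxU : f x ∈ U := by
    rw [hfx]
    exact ((genericPoint_spec Z).mem_open_set_iff U.isOpen).mpr (by simpa using hU)
  obtain ⟨V, hV, W, hW, hxW, e, hst⟩ := charts X Z f U hs x hxU
  have hfxV : f x ∈ V := e hxW
  have hneV : Nonempty V := ⟨⟨f x, hfxV⟩⟩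
  have hneW : Nonempty W := ⟨⟨x, hxW⟩⟩
  let gA : k →+* Γ(Z, V) := ((Scheme.ΓSpecIso (.of k)).inv ≫ gZ.appLE ⊤ V le_top).hom
  let gB : k →+* Γ(X, W) := ((Scheme.ΓSpecIso (.of k)).inv ≫ gX.appLE ⊤ W le_top).hom
  let algkA : Algebra k Γ(Z, V) := gA.toAlgebra
  let algkB : Algebra k Γ(X, W) := gB.toAlgebra
  let algAB : Algebra Γ(Z, V) Γ(X, W) := (f.appLE V W e).hom.toAlgebra
  let algAK : Algebra Γ(Z, V) X.functionField :=
    ((ffm f h).comp (Z.germToFunctionField V).hom).toAlgebra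
  have t1 : IsScalarTower k Γ(Z, V) Γ(X, W) := by
    apply IsScalarTower.of_algebraMap_eq'
    have h5 : (Scheme.ΓSpecIso (.of k)).inv ≫ gX.appLE ⊤ W le_top =
        ((Scheme.ΓSpecIso (.of k)).inv ≫ gZ.appLE ⊤ V le_top) ≫ f.appLE V W e := by
      rw [Category.assoc, appLE_comp_of f gZ gX hf V W e le_top le_top]
    exact congrArg CommRingCat.Hom.hom h5
  have t2 : IsScalarTower k Γ(Z, V) Z.functionField :=
    IsScalarTower.of_algebraMap_eq' (tower_field k Z gZ V le_top)
  have t3 : IsScalarTower k Γ(X, W) X.functionField :=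
    IsScalarTower.of_algebraMap_eq' (tower_field k X gX W le_top)
  have t4 : IsScalarTower k Z.functionField X.functionField :=
    IsScalarTower.of_algebraMap_eq' (h1 k X Z gX gZ f hf h).symm
  have t5 : IsScalarTower Γ(Z, V) Γ(X, W) X.functionField :=
    IsScalarTower.of_algebraMap_eq (fun a => ffm_germ X Z f h V W e a)
  have t6 : IsScalarTower Γ(Z, V) Z.functionField X.functionField :=
    IsScalarTower.of_algebraMap_eq' rfl
  have hfrac : IsFractionRing Γ(X, W) X.functionField :=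
    functionField_isFractionRing_of_isAffineOpen X W hW
  obtain ⟨y, hy⟩ := rel_coord Γ(Z, V) Γ(X, W) hst
  obtain ⟨x₀, hx₀⟩ := schemeCoord_of k X (d + 1) gX x
  obtain ⟨hB, hO⟩ := local_frac X W hW x hxW
  exact ⟨_, h3 k Γ(Z, V) Γ(X, W) Z.functionField X.functionField d x₀ hx₀.basis y hy z hz
    (localRing X x) hx hB hO⟩

end Pool.Agent.Lib.MP_8bcb2e_ag.F
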