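import Pool.Agent.Lib.MP_8bcb2e_ag.F.Spec
import Pool.Agent.Lib.MP_8bcb2e_ag.TraceSections

/-!
# F/Star: the properties of the relative Cartier operator `car`
-/

set_option autoImplicit false

universe u

namespace Pool.Agent.Lib.MP_8bcb2e_ag.F

open KaehlerDifferential AlgebraicGeometry CategoryTheory Pool.Agent.Lib.MP_8bcb2e_ag.B

theorem t_Star (h1 : S_Tau.{u}) : S_Star.{u} := by
  intro k E L K _ _ _ _ _ _ _ _ _ _ _ _ _ _ _ p _ _ e d t
  obtain ⟨hadd, hmul, -, hdel⟩ := h1 k E L K p e d t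
  have hz : t.tau 0 = 0 := by
    have h := hadd 0 0
    rw [add_zero] at h
    exact left_eq_add.mp h
  have hsum : ∀ (s : Finset (Fin d → Fin (p ^ e))) (f : (Fin d → Fin (p ^ e)) → L),
      t.tau (∑ α ∈ s, f α) = ∑ α ∈ s, t.tau (f α) := fun s f =>
    map_sum (⟨⟨t.tau, hz⟩, hadd⟩ : L →+ K) f s
  have hTadd : ∀ a b : K, t.TK^[e] (a + b) = t.TK^[e] a + t.TK^[e] b := t.trK.iter_add e
  have hTsum : ∀ (s : Finset (Fin d → Fin (p ^ e))) (f : (Fin d → Fin (p ^ e)) → K),
      t.TK^[e] (∑ α ∈ s, f α) = ∑ α ∈ s, t.TK^[e] (f α) := fun s f =>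
    map_sum (⟨⟨t.TK^[e], t.trK.iter_zero e⟩, hTadd⟩ : K →+ K) f s
  have hTmul : ∀ a b : K, t.TK^[e] (a ^ p ^ e * b) = a * t.TK^[e] b := t.trK.iter_mul e
  -- monomials
  have hpow : ∀ α β : Fin d → Fin (p ^ e),
      t.tau ((∏ i, im E L t.z i ^ (p ^ e - 1 - (α i : ℕ))) * ∏ i, im E L t.z i ^ (β i : ℕ)) =
        if β = α then 1 else 0 := by
    intro α β
    rw [← Finset.prod_mul_distrib]
    have h2 : ∀ i, im E L t.z i ^ (p ^ e - 1 - (α i : ℕ)) * im E L t.z i ^ (β i : ℕ) =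
        im E L t.z i ^ (p ^ e - 1 - (α i : ℕ) + (β i : ℕ)) := fun i => (pow_add _ _ _).symm
    rw [Finset.prod_congr rfl fun i _ => h2 i, hdel (fun i => p ^ e - 1 - (α i : ℕ) + (β i : ℕ))
      (fun i => by have := (α i).isLt; have := (β i).isLt; omega)]
    by_cases h : β = α
    · rw [if_pos h, if_pos]
      intro i
      have := (α i).isLt
      rw [h]
      omega
    · rw [if_neg h, if_neg]
      intro h3
      apply h
      funext i
      apply Fin.ext
      have := (α i).isLt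
      have := h3 i
      omega
  -- coordinates
  have hone : ∀ y : L, y = ∑ α : Fin d → Fin (p ^ e),
      t.φ (t.tau ((∏ i, im E L t.z i ^ (p ^ e - 1 - (α i : ℕ))) * y)) *
        ∏ i, im E L t.z i ^ (α i : ℕ) := by
    intro y
    obtain ⟨c, hc⟩ := t.span y
    have hco : ∀ α : Fin d → Fin (p ^ e),
        t.tau ((∏ i, im E L t.z i ^ (p ^ e - 1 - (α i : ℕ))) * y) = c α := by
      intro α
      rw [hc, Finset.mul_sum, hsum]
      have h2 : ∀ β : Fin d → Fin (p ^ e),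
          t.tau ((∏ i, im E L t.z i ^ (p ^ e - 1 - (α i : ℕ))) *
            (t.φ (c β) * ∏ i, im E L t.z i ^ (β i : ℕ))) = if β = α then c β else 0 := by
        intro β
        rw [mul_left_comm, hmul, hpow, mul_ite, mul_one, mul_zero]
      rw [Finset.sum_congr rfl fun β _ => h2 β, Finset.sum_ite_eq' Finset.univ α c,
        if_pos (Finset.mem_univ α)]
    conv_lhs => rw [hc]
    exact Finset.sum_congr rfl fun α _ => by rw [hco α]
  -- `tau` and `car`
  have hmono : ∀ (γ : Fin d → Fin (p ^ e)) (a : K),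
      t.tau ((∏ i, im E L t.z i ^ (γ i : ℕ)) * t.car a) =
        t.TK^[e] ((∏ i, im E K t.z i ^ (γ i : ℕ)) * a) := by
    intro γ a
    have hrv : ∀ i, p ^ e - 1 - ((Fin.rev (γ i) : Fin (p ^ e)) : ℕ) = (γ i : ℕ) := by
      intro i
      rw [Fin.val_rev]
      have := (γ i).isLt
      omega
    have h2 : (∏ i, im E L t.z i ^ (γ i : ℕ)) =
        ∏ i, im E L t.z i ^ (p ^ e - 1 - ((Fin.rev (γ i) : Fin (p ^ e)) : ℕ)) :=
      Finset.prod_congr rfl fun i _ => by rw [hrv i]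
    have h3 : (∏ i, im E K t.z i ^ (γ i : ℕ)) =
        ∏ i, im E K t.z i ^ (p ^ e - 1 - ((Fin.rev (γ i) : Fin (p ^ e)) : ℕ)) :=
      Finset.prod_congr rfl fun i _ => by rw [hrv i]
    rw [h2, h3, Tw.car, Finset.mul_sum, hsum]
    have h4 : ∀ α : Fin d → Fin (p ^ e),
        t.tau ((∏ i, im E L t.z i ^ (p ^ e - 1 - ((Fin.rev (γ i) : Fin (p ^ e)) : ℕ))) *
          (t.φ (t.TK^[e] ((∏ i, im E K t.z i ^ (p ^ e - 1 - (α i : ℕ))) * a)) *
            ∏ i, im E L t.z i ^ (α i : ℕ))) = if α = (fun i => Fin.rev (γ i)) then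
          t.TK^[e] ((∏ i, im E K t.z i ^ (p ^ e - 1 - (α i : ℕ))) * a) else 0 := by
      intro α
      rw [mul_left_comm, hmul, hpow (fun i => Fin.rev (γ i)) α, mul_ite, mul_one, mul_zero]
    rw [Finset.sum_congr rfl fun α _ => h4 α, Finset.sum_ite_eq' Finset.univ (fun i => Fin.rev (γ i))
      (fun α : Fin d → Fin (p ^ e) => t.TK^[e] ((∏ i, im E K t.z i ^ (p ^ e - 1 - (α i : ℕ))) * a)),
      if_pos (Finset.mem_univ _)]
  have htc : ∀ (l : L) (a : K), t.tau (l * t.car a) = t.TK^[e] (algebraMap L K l * a) := by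
    intro l a
    obtain ⟨c, hc⟩ := t.span l
    rw [hc, Finset.sum_mul, hsum, map_sum, Finset.sum_mul, hTsum]
    refine Finset.sum_congr rfl fun γ _ => ?_
    have h2 : algebraMap L K (∏ i, im E L t.z i ^ (γ i : ℕ)) = ∏ i, im E K t.z i ^ (γ i : ℕ) := by
      rw [map_prod]
      refine Finset.prod_congr rfl fun i _ => ?_
      rw [map_pow]
      congr 1
      exact (IsScalarTower.algebraMap_apply E L K (t.z i)).symm
    rw [mul_assoc, hmul, hmono, map_mul, t.coe, h2, mul_assoc, hTmul]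
  -- separation
  have hext : ∀ y y' : L, (∀ m, t.tau (m * y) = t.tau (m * y')) → y = y' := by
    intro y y' h
    rw [hone y, hone y']
    exact Finset.sum_congr rfl fun α _ => by rw [h]
  refine ⟨hone, htc, ?_, ?_⟩
  · intro a b
    rw [Tw.car, Tw.car, Tw.car, ← Finset.sum_add_distrib]
    refine Finset.sum_congr rfl fun α _ => ?_
    rw [mul_add, hTadd, map_add, add_mul]
  · intro l a
    apply hext
    intro m
    rw [htc, ← mul_assoc m l, htc, map_mul, mul_assoc]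

end Pool.Agent.Lib.MP_8bcb2e_ag.F
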