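import Pool.Agent.Lib.MP_8bcb2e_ag.F.Spec

/-!
# `S_TLC`: the relative Cartier operator commutes with the traces
-/

set_option autoImplicit false

universe u

namespace Pool.Agent.Lib.MP_8bcb2e_ag.F

open KaehlerDifferential AlgebraicGeometry CategoryTheory Pool.Agent.Lib.MP_8bcb2e_ag.B

theorem t_TLC (h1 : S_Star.{u}) (h2 : S_TLT.{u}) : S_TLC.{u} := by
  intro k E L K _ _ _ _ _ _ _ _ _ _ _ _ _ _ _ p _ _ _ e d t a
  obtain ⟨s1, s2, -, -⟩ := h1 k E L K p e d t
  have key : ∀ l : L, t.tau (l * t.TL (t.car a)) = t.tau (l * t.car (t.TK a)) := by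
    intro l
    rw [← t.trL.map_pow_mul, h2 k E L K p e d t, s2, s2, map_pow,
      ← Function.iterate_succ_apply' t.TK e, Function.iterate_succ_apply, t.trK.map_pow_mul]
  rw [s1 (t.TL (t.car a)), s1 (t.car (t.TK a))]
  refine Finset.sum_congr rfl fun α _ => ?_
  rw [key]

end Pool.Agent.Lib.MP_8bcb2e_ag.F
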