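import Pool.Agent.Lib.MP_8bcb2e_ag.F.Spec
import Pool.Agent.Lib.MP_8bcb2e_ag.PBasis
import Pool.Agent.Lib.MP_8bcb2e_ag.TraceSections

/-!
# `tau` commutes with the traces
-/

set_option autoImplicit false

universe u

namespace Pool.Agent.Lib.MP_8bcb2e_ag.F

open KaehlerDifferential AlgebraicGeometry CategoryTheory Pool.Agent.Lib.MP_8bcb2e_ag.B

private theorem mono_e (h1 : S_TrIt.{u}) {k K : Type u} [Field k] [Field K] [Algebra k K] {p : ℕ}
    [Fact p.Prime] [CharP k p] {n : ℕ} {Ψ : Ω[K⁄k] [⋀^Fin n]→ₗ[K] K} {T : K → K}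
    (hT : IsFrobTrace k Ψ p T) (e : ℕ) {w : Fin n → K} (hw : jac Ψ w = 1) (α : Fin n → ℕ)
    (hα : ∀ i, α i < p ^ e) (b : K) :
    T^[e] (b ^ p ^ e * ∏ i, w i ^ α i) = if ∀ i, α i + 1 = p ^ e then b else 0 := by
  obtain ⟨h2, h3⟩ := h1 k K p n Ψ T hT e w α hα b
  rw [hw, mul_one, mul_one] at h2
  rw [hw, mul_one] at h3
  split_ifs with h
  · exact h2 h
  · push Not at h
    exact h3 h

private theorem mono_1 (h1 : S_TrIt.{u}) {k K : Type u} [Field k] [Field K] [Algebra k K] {p : ℕ}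
    [Fact p.Prime] [CharP k p] {n : ℕ} {Ψ : Ω[K⁄k] [⋀^Fin n]→ₗ[K] K} {T : K → K}
    (hT : IsFrobTrace k Ψ p T) {w : Fin n → K} (hw : jac Ψ w = 1) (α : Fin n → ℕ)
    (hα : ∀ i, α i < p) (b : K) :
    T (b ^ p * ∏ i, w i ^ α i) = if ∀ i, α i + 1 = p then b else 0 := by
  have h2 := mono_e h1 hT 1 hw α (fun i => by rw [pow_one]; exact hα i) b
  rw [Function.iterate_one, pow_one] at h2
  exact h2

private theorem iter_sum {k K : Type u} [Field k] [Field K] [Algebra k K] {p : ℕ} {n : ℕ}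
    {Ψ : Ω[K⁄k] [⋀^Fin n]→ₗ[K] K} {T : K → K} (hT : IsFrobTrace k Ψ p T) (e : ℕ) {ι : Type}
    (s : Finset ι) (f : ι → K) : T^[e] (∑ i ∈ s, f i) = ∑ i ∈ s, T^[e] (f i) :=
  map_sum (AddMonoidHom.mk' (T^[e]) (hT.iter_add e)) f s

theorem t_TLT (h1 : S_TrIt.{u}) (h2 : S_Tau.{u}) : S_TLT.{u} := by
  classical
  intro k E L K _ _ _ _ _ _ _ _ _ _ _ _ _ _ _ p hpF _ _ e d t l
  obtain ⟨hadd, hmul, -, -⟩ := h2 k E L K p e d t
  have hp := hpF.out.pos
  obtain ⟨f, hf⟩ : ∃ f : L →+ K, ∀ y, f y = t.tau y := ⟨AddMonoidHom.mk' t.tau hadd, fun _ => rfl⟩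
  obtain ⟨q', hq'⟩ : ∃ q', p ^ e = p * q' := by
    obtain ⟨e', he'⟩ : ∃ e', e = e' + 1 := ⟨e - 1, by have := t.he; omega⟩
    exact ⟨p ^ e', by rw [he', pow_succ, mul_comm]⟩
  have hqpos : 0 < p ^ e := pow_pos hp e
  have hq'pos : 0 < q' := by
    rcases Nat.eq_zero_or_pos q' with h | h
    · rw [h, Nat.mul_zero] at hq'
      omega
    · exact h
  -- the terms of low order in `x` vanish
  have hlow : ∀ (c : L) (i : ℕ), i + 1 < p ^ e →
      t.TK^[e] (algebraMap L K c * t.x ^ i) = 0 := by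
    intro c i hi
    obtain ⟨b, hb⟩ := t.span c
    have h3 : algebraMap L K c * t.x ^ i = ∑ γ : Fin d → Fin (p ^ e),
        b γ ^ p ^ e * ∏ j : Fin (d + 1), snc (im E K t.z) t.x j ^
          (snc (fun j => (γ j : ℕ)) i j) := by
      rw [hb, map_sum, Finset.sum_mul]
      refine Finset.sum_congr rfl fun γ _ => ?_
      rw [map_mul, t.coe, map_prod, Fin.prod_univ_castSucc]
      simp only [snc_castSucc, snc_last, map_pow, mul_assoc]
      congr 2
      refine Finset.prod_congr rfl fun j _ => ?_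
      unfold im
      rw [← IsScalarTower.algebraMap_apply]
    rw [h3, iter_sum t.trK]
    refine Finset.sum_eq_zero fun γ _ => ?_
    rw [mono_e h1 t.trK e t.nK _ ?_, if_neg]
    · intro h4
      have h5 := h4 (Fin.last d)
      rw [snc_last] at h5
      omega
    · intro j
      refine Fin.lastCases ?_ (fun j => ?_) j
      · rw [snc_last]
        omega
      · rw [snc_castSucc]
        exact (γ j).2
  obtain ⟨c, hc⟩ := pBasis_of k L p (d + 1) (snc (im E L t.z) (t.φ t.x)) t.bL l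
  have hlhs : t.tau (t.TL l) = ∑ α : Fin (d + 1) → Fin p,
      t.tau (t.TL (c α ^ p * ∏ i, snc (im E L t.z) (t.φ t.x) i ^ (α i : ℕ))) := by
    rw [hc, t.trL.map_sum, ← hf, map_sum]
    exact Finset.sum_congr rfl fun α _ => hf _
  have hrhs : t.TK (t.tau l) = ∑ α : Fin (d + 1) → Fin p,
      t.TK (t.tau (c α ^ p * ∏ i, snc (im E L t.z) (t.φ t.x) i ^ (α i : ℕ))) := by
    rw [hc, ← hf, map_sum, t.trK.map_sum]
    exact Finset.sum_congr rfl fun α _ => by rw [hf]
  rw [hlhs, hrhs]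
  refine Finset.sum_congr rfl fun α _ => ?_
  -- the left side
  rw [mono_1 h1 t.trL t.nL (fun i => (α i : ℕ)) (fun i => (α i).2) (c α)]
  -- the right side
  obtain ⟨j, hj⟩ : ∃ j : ℕ, j = (α (Fin.last d) : ℕ) := ⟨_, rfl⟩
  have hjp : j < p := by rw [hj]; exact (α (Fin.last d)).2
  have hexp : p ^ e - 1 + p ^ e * j = p * (q' * (j + 1) - 1) + (p - 1) := by
    obtain ⟨r, hr⟩ : ∃ r, q' * (j + 1) = r + 1 :=
      ⟨q' * (j + 1) - 1, by
        have : 0 < q' * (j + 1) := Nat.mul_pos hq'pos (Nat.succ_pos j)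
        omega⟩
    have h3 : p ^ e * (j + 1) = p * (r + 1) := by
      rw [hq', mul_assoc, hr]
    rw [hr, Nat.add_sub_cancel]
    have h4 : p ^ e * (j + 1) = p ^ e * j + p ^ e := by ring
    have h5 : p * (r + 1) = p * r + p := by ring
    omega
  have himg : t.x ^ (p ^ e - 1) * algebraMap L K
      (c α ^ p * ∏ i, snc (im E L t.z) (t.φ t.x) i ^ (α i : ℕ)) =
      (algebraMap L K (c α) * t.x ^ (q' * (j + 1) - 1)) ^ p *
        ∏ i : Fin (d + 1), snc (im E K t.z) t.x i ^
          (snc (fun i : Fin d => (α i.castSucc : ℕ)) (p - 1) i) := by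
    rw [map_mul, map_pow, map_prod, Fin.prod_univ_castSucc, Fin.prod_univ_castSucc]
    simp only [snc_castSucc, snc_last, map_pow, t.coe]
    have h3 : ∀ i : Fin d, algebraMap L K (im E L t.z i) = im E K t.z i := by
      intro i
      unfold im
      rw [← IsScalarTower.algebraMap_apply]
    simp only [h3]
    rw [← hj, mul_pow, ← pow_mul, ← pow_mul]
    have h4 : t.x ^ (p ^ e - 1) * t.x ^ (p ^ e * j) =
        t.x ^ ((q' * (j + 1) - 1) * p) * t.x ^ (p - 1) := by
      rw [← pow_add, ← pow_add, hexp, Nat.mul_comm p (q' * (j + 1) - 1)]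
    calc t.x ^ (p ^ e - 1) * (algebraMap L K (c α) ^ p *
          ((∏ i : Fin d, im E K t.z i ^ (α i.castSucc : ℕ)) * t.x ^ (p ^ e * j)))
        = algebraMap L K (c α) ^ p * (∏ i : Fin d, im E K t.z i ^ (α i.castSucc : ℕ)) *
          (t.x ^ (p ^ e - 1) * t.x ^ (p ^ e * j)) := by ring
      _ = _ := by rw [h4]; ring
  have hR : t.TK (t.tau (c α ^ p * ∏ i, snc (im E L t.z) (t.φ t.x) i ^ (α i : ℕ))) =
      t.TK^[e] (if ∀ i, snc (fun i : Fin d => (α i.castSucc : ℕ)) (p - 1) i + 1 = p then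
        algebraMap L K (c α) * t.x ^ (q' * (j + 1) - 1) else 0) := by
    unfold Tw.tau
    rw [himg, ← Function.iterate_succ_apply' t.TK e, Function.iterate_succ_apply,
      mono_1 h1 t.trK t.nK]
    intro i
    refine Fin.lastCases ?_ (fun i => ?_) i
    · rw [snc_last]
      omega
    · rw [snc_castSucc]
      exact (α i.castSucc).2
  rw [hR]
  have htau0 : t.tau 0 = 0 := by rw [← hf, map_zero]
  by_cases hA : ∀ i, (α i : ℕ) + 1 = p
  · rw [if_pos hA, if_pos]
    · have hjp1 : j + 1 = p := by rw [hj]; exact hA _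
      have h3 : q' * (j + 1) - 1 = p ^ e - 1 := by rw [hjp1, hq', mul_comm]
      rw [h3]
      unfold Tw.tau
      rw [mul_comm]
    · intro i
      refine Fin.lastCases ?_ (fun i => ?_) i
      · rw [snc_last]
        omega
      · rw [snc_castSucc]
        exact hA _
  · rw [if_neg hA, htau0]
    by_cases hB : ∀ i, snc (fun i : Fin d => (α i.castSucc : ℕ)) (p - 1) i + 1 = p
    · rw [if_pos hB]
      have hjne : j + 1 ≠ p := by
        intro h3
        apply hA
        intro i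
        refine Fin.lastCases ?_ (fun i => ?_) i
        · rw [← hj]
          exact h3
        · have h4 := hB i.castSucc
          rw [snc_castSucc] at h4
          exact h4
      symm
      apply hlow
      have h3 : q' * (j + 1) < q' * p := Nat.mul_lt_mul_of_pos_left (by omega) hq'pos
      have h4 : q' * p = p ^ e := by rw [hq', mul_comm]
      have h5 : 0 < q' * (j + 1) := Nat.mul_pos hq'pos (Nat.succ_pos j)
      omega
    · rw [if_neg hB]
      exact (t.trK.iter_zero e).symm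

end Pool.Agent.Lib.MP_8bcb2e_ag.F
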