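import Pool.Agent.Lib.MP_8bcb2e_ag.F.Spec

/-!
# The properties of `tau`
-/

set_option autoImplicit false

universe u

namespace Pool.Agent.Lib.MP_8bcb2e_ag.F

open KaehlerDifferential AlgebraicGeometry CategoryTheory Pool.Agent.Lib.MP_8bcb2e_ag.B

/-- The product of the powers of a family `snc w x`. -/
private theorem tau_prod {K : Type u} [Field K] {d : ℕ} (w : Fin d → K) (x : K) (α : Fin d → ℕ)
    (a : ℕ) : ∏ i, snc w x i ^ (Fin.snoc (α := fun _ => ℕ) α a i : ℕ) =
      (∏ i, w i ^ α i) * x ^ a := by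
  rw [Fin.prod_univ_castSucc]
  simp only [snc_castSucc, snc_last, Fin.snoc_castSucc, Fin.snoc_last]

theorem t_Tau (h1 : S_TrIt.{u}) (h2 : S_JE.{u}) : S_Tau.{u} := by
  intro k E L K _ _ _ _ _ _ _ _ _ _ _ _ _ _ _ p hp _ e d t
  have hq : 0 < p ^ e := pow_pos hp.out.pos e
  have hJ := (h2 k E K d t.ΨE t.ΨK t.z t.bE t.nE).1
  -- the exponents of the family `snc w x`
  have hlt : ∀ α : Fin d → ℕ, (∀ i, α i < p ^ e) →
      ∀ i, (Fin.snoc (α := fun _ => ℕ) α (p ^ e - 1) i : ℕ) < p ^ e := by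
    intro α hα i
    refine Fin.lastCases ?_ (fun i => ?_) i
    · rw [Fin.snoc_last]
      omega
    · rw [Fin.snoc_castSucc]
      exact hα i
  have hall : ∀ α : Fin d → ℕ, (∀ i, α i + 1 = p ^ e) →
      ∀ i, (Fin.snoc (α := fun _ => ℕ) α (p ^ e - 1) i : ℕ) + 1 = p ^ e := by
    intro α hα i
    refine Fin.lastCases ?_ (fun i => ?_) i
    · rw [Fin.snoc_last]
      omega
    · rw [Fin.snoc_castSucc]
      exact hα i
  have hex : ∀ α : Fin d → ℕ, (¬ ∀ i, α i + 1 = p ^ e) →
      ∃ i, (Fin.snoc (α := fun _ => ℕ) α (p ^ e - 1) i : ℕ) + 1 ≠ p ^ e := by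
    intro α hα
    push Not at hα
    obtain ⟨i, hi⟩ := hα
    refine ⟨Fin.castSucc i, ?_⟩
    rw [Fin.snoc_castSucc]
    exact hi
  refine ⟨?_, ?_, ?_, ?_⟩
  · intro a b
    unfold Tw.tau
    rw [map_add, mul_add, t.trK.iter_add]
  · intro b l
    unfold Tw.tau
    rw [map_mul, t.coe]
    have e1 : t.x ^ (p ^ e - 1) * (b ^ p ^ e * algebraMap L K l) =
        b ^ p ^ e * (t.x ^ (p ^ e - 1) * algebraMap L K l) := by ring
    rw [e1, t.trK.iter_mul]
  · intro w α hα
    have h3 := h1 k K p (d + 1) t.ΨK t.TK t.trK e (snc (im E K w) t.x)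
      (Fin.snoc (α := fun _ => ℕ) α (p ^ e - 1)) (hlt α hα) 1
    rw [tau_prod, one_pow, one_mul, one_mul, hJ w t.x, t.nK, mul_one] at h3
    have e1 : t.tau ((∏ i, im E L w i ^ α i) * algebraMap E L (jac t.ΨE w)) =
        t.TK^[e] ((∏ i, im E K w i ^ α i) * t.x ^ (p ^ e - 1) *
          algebraMap E K (jac t.ΨE w)) := by
      unfold Tw.tau
      congr 1
      rw [map_mul, map_prod, ← IsScalarTower.algebraMap_apply E L K]
      have e2 : ∀ i, algebraMap L K (im E L w i ^ α i) = im E K w i ^ α i := by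
        intro i
        rw [map_pow]
        unfold im
        rw [← IsScalarTower.algebraMap_apply E L K]
      rw [Finset.prod_congr rfl fun i _ => e2 i]
      ring
    rw [e1]
    by_cases hc : ∀ i, α i + 1 = p ^ e
    · rw [if_pos hc]
      exact h3.1 (hall α hc)
    · rw [if_neg hc]
      exact h3.2 (hex α hc)
  · intro δ hδ
    obtain ⟨δ', hδ'⟩ : ∃ δ' : Fin d → ℕ, δ' = fun i => if δ i < p ^ e then δ i else δ i - p ^ e :=
      ⟨_, rfl⟩
    obtain ⟨b, hb⟩ : ∃ b : K, b = ∏ i, if δ i < p ^ e then 1 else im E K t.z i := ⟨_, rfl⟩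
    have hδ'1 : ∀ i, δ i < p ^ e → δ' i = δ i := by
      intro i hi
      rw [hδ']
      exact if_pos hi
    have hδ'2 : ∀ i, ¬ δ i < p ^ e → δ' i = δ i - p ^ e := by
      intro i hi
      rw [hδ']
      exact if_neg hi
    have hlt' : ∀ i, δ' i < p ^ e := by
      intro i
      by_cases hi : δ i < p ^ e
      · rw [hδ'1 i hi]
        exact hi
      · rw [hδ'2 i hi]
        have := hδ i
        omega
    have h3 := h1 k K p (d + 1) t.ΨK t.TK t.trK e (snc (im E K t.z) t.x)
      (Fin.snoc (α := fun _ => ℕ) δ' (p ^ e - 1)) (hlt δ' hlt') b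
    rw [tau_prod, t.nK, mul_one, mul_one] at h3
    have e1 : t.tau (∏ i, im E L t.z i ^ δ i) =
        t.TK^[e] (b ^ p ^ e * ((∏ i, im E K t.z i ^ δ' i) * t.x ^ (p ^ e - 1))) := by
      unfold Tw.tau
      congr 1
      rw [map_prod, hb, ← Finset.prod_pow, ← mul_assoc, ← Finset.prod_mul_distrib, mul_comm]
      congr 1
      refine Finset.prod_congr rfl fun i _ => ?_
      rw [map_pow]
      have e2 : algebraMap L K (im E L t.z i) = im E K t.z i := by
        unfold im
        rw [← IsScalarTower.algebraMap_apply E L K]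
      rw [e2]
      by_cases hi : δ i < p ^ e
      · rw [if_pos hi, hδ'1 i hi, one_pow, one_mul]
      · rw [if_neg hi, hδ'2 i hi, ← pow_add]
        congr 1
        omega
    rw [e1]
    by_cases hc : ∀ i, δ' i + 1 = p ^ e
    · have hlt2 : ∀ i, δ i < p ^ e := by
        intro i
        by_contra hi
        have h4 := hc i
        rw [hδ'2 i hi] at h4
        have := hδ i
        omega
      have hb1 : b = 1 := by
        rw [hb]
        exact Finset.prod_eq_one fun i _ => if_pos (hlt2 i)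
      rw [if_pos fun i => by rw [← hδ'1 i (hlt2 i)]; exact hc i]
      rw [← hb1]
      exact h3.1 (hall δ' hc)
    · rw [if_neg]
      · exact h3.2 (hex δ' hc)
      · intro h4
        refine hc fun i => ?_
        have h5 := h4 i
        rw [hδ'1 i (by omega)]
        exact h5

end Pool.Agent.Lib.MP_8bcb2e_ag.F
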