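import Pool.Agent.Lib.MP_8bcb2e_ag.F.Spec

/-!
# The coefficients of two regular differentials of the generic fibre
-/

set_option autoImplicit false

universe u

namespace Pool.Agent.Lib.MP_8bcb2e_ag.F

open KaehlerDifferential AlgebraicGeometry CategoryTheory Pool.Agent.Lib.MP_8bcb2e_ag.B

namespace TheAux

/-- the value of the top form with the last entry as the variable -/
noncomputable def lst {k K : Type u} [Field k] [Field K] [Algebra k K] {d : ℕ}
    (ΨK : Ω[K⁄k] [⋀^Fin (d + 1)]→ₗ[K] K) (z : Fin d → K) : Ω[K⁄k] →ₗ[K] K :=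
  ΨK.toMultilinearMap.toLinearMap (fun i => D k K (snc z 0 i)) (Fin.last d)

theorem lst_D {k K : Type u} [Field k] [Field K] [Algebra k K] {d : ℕ}
    (ΨK : Ω[K⁄k] [⋀^Fin (d + 1)]→ₗ[K] K) (z : Fin d → K) (a : K) :
    lst ΨK z (D k K a) = jac ΨK (snc z a) := by
  have h : Function.update (fun i => D k K (snc z 0 i)) (Fin.last d) (D k K a) =
      fun i => D k K (snc z a i) := by
    funext i
    induction i using Fin.lastCases with
    | last => rw [Function.update_self, snc_last]
    | cast i => rw [Function.update_of_ne (Fin.castSucc_lt_last i).ne, snc_castSucc, snc_castSucc]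
  unfold lst jac
  rw [← h]
  rfl

theorem exDer {k E K : Type u} [Field k] [Field E] [Field K] [Algebra k E] [Algebra k K]
    [Algebra E K] [IsScalarTower k E K] (F : Ω[K⁄k] →ₗ[K] K)
    (hF : ∀ a : E, F (D k K (algebraMap E K a)) = 0) :
    ∃ δ : Derivation E K K, ∀ a, δ a = F (D k K a) := by
  refine ⟨Derivation.mk' { toFun := fun a => F (D k K a), map_add' := ?_, map_smul' := ?_ } ?_,
    fun _ => rfl⟩
  · intro a b
    rw [map_add, map_add]
  · intro a b
    rw [Algebra.smul_def, Derivation.leibniz, map_add, map_smul, map_smul, hF, smul_zero, add_zero,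
      RingHom.id_apply, smul_eq_mul]
    exact (Algebra.smul_def a _).symm
  · intro a b
    change F (D k K (a * b)) = a • F (D k K b) + b • F (D k K a)
    rw [Derivation.leibniz, map_add, map_smul, map_smul]

end TheAux

open TheAux

theorem t_The (h1 : S_JE.{u}) (h2 : S_Der.{u}) : S_The.{u} := by
  intro k E K _ _ _ _ _ _ _ d ΨE ΨK z x hz hzE hzx hK hTwo
  obtain ⟨ω₀, ω₁, c, hω, hc, hω1, hreg⟩ := hTwo
  have hJ := (h1 k E K d ΨE ΨK z hz hzE).2
  have hF : ∀ a : E, lst ΨK (im E K z) (D k K (algebraMap E K a)) = 0 := by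
    intro a
    rw [lst_D]
    exact hJ a
  obtain ⟨δ, hδ⟩ := exDer (lst ΨK (im E K z)) hF
  have hdel : ∀ a, δ a = jac ΨK (snc (im E K z) a) := fun a => (hδ a).trans (lst_D ΨK _ a)
  obtain ⟨lam, hlam⟩ : ∃ lam : Ω[K⁄E] →ₗ[K] K, ∀ a, lam (D E K a) = δ a :=
    ⟨δ.liftKaehlerDifferential, fun a => Derivation.liftKaehlerDifferential_comp_D δ a⟩
  have hDx : ∀ a : K, D E K a = lam (D E K a) • D E K x := by
    intro a
    obtain ⟨cc, hcc⟩ := h2 k K d ΨK (im E K z) x hzx hK a
    have h3 := congrArg (KaehlerDifferential.map k E K K) hcc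
    rw [map_add, map_sum, map_smul, KaehlerDifferential.map_D, KaehlerDifferential.map_D] at h3
    have h4 : ∑ i, (KaehlerDifferential.map k E K K) (cc i • D k K (im E K z i)) = 0 := by
      refine Finset.sum_eq_zero fun i _ => ?_
      rw [map_smul, KaehlerDifferential.map_D]
      have h5 : D E K (algebraMap K K (im E K z i)) = 0 := by
        change D E K (algebraMap E K (z i)) = 0
        exact Derivation.map_algebraMap _ _
      rw [h5, smul_zero]
    rw [h4, zero_add] at h3
    rw [hlam, hdel]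
    exact h3
  have hall : ∀ ω : Ω[K⁄E], ω = lam ω • D E K x := by
    intro ω
    have hmem : ω ∈ Submodule.span K (Set.range (D E K)) := by
      rw [KaehlerDifferential.span_range_derivation]
      exact Submodule.mem_top
    induction hmem using Submodule.span_induction with
    | mem y hy =>
      obtain ⟨a, rfl⟩ := hy
      exact hDx a
    | zero => rw [map_zero, zero_smul]
    | add y w _ _ hy hw =>
      rw [map_add, add_smul, ← hy, ← hw]
    | smul a y _ hy =>
      rw [map_smul, smul_assoc, ← hy]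
  have hreg' : ∀ V : ValuationSubring K, ∀ π : K,
      IsCoord k V.toSubring (snc (im E K z) π) → ∀ ω ∈ regDiff E V.toSubring,
      ∃ v ∈ V, lam ω = v * jac ΨK (snc (im E K z) π) := by
    intro V π hπ ω hω
    unfold regDiff at hω
    induction hω using AddSubgroup.closure_induction with
    | mem y hy =>
      obtain ⟨a, ha, b, hb, rfl⟩ := hy
      obtain ⟨cc, hcc, hD⟩ := hπ.gen b hb
      refine ⟨a * cc (Fin.last d), V.mul_mem _ _ ha (hcc _), ?_⟩
      have h6 : δ b = cc (Fin.last d) * jac ΨK (snc (im E K z) π) := by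
        rw [hδ b, hD, map_sum, Fin.sum_univ_castSucc]
        have h7 : ∀ i : Fin d, lst ΨK (im E K z) (cc i.castSucc •
            D k K (snc (im E K z) π i.castSucc)) = 0 := by
          intro i
          rw [map_smul, snc_castSucc]
          change _ • lst ΨK (im E K z) (D k K (algebraMap E K (z i))) = 0
          rw [hF, smul_zero]
        rw [Finset.sum_eq_zero fun i _ => h7 i, zero_add, map_smul, snc_last, lst_D, smul_eq_mul]
      rw [map_smul, hlam, h6, smul_eq_mul, mul_assoc]
    | zero => exact ⟨0, V.zero_mem, by rw [map_zero, zero_mul]⟩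
    | add y w _ _ hy hw =>
      obtain ⟨v, hv, e1⟩ := hy
      obtain ⟨v', hv', e2⟩ := hw
      exact ⟨v + v', V.add_mem _ _ hv hv', by rw [map_add, e1, e2, add_mul]⟩
    | neg y _ hy =>
      obtain ⟨v, hv, e1⟩ := hy
      exact ⟨-v, V.neg_mem _ hv, by rw [map_neg, e1, neg_mul]⟩
  have h0 : lam ω₀ ≠ 0 := by
    intro h
    apply hω
    rw [hall ω₀, h, zero_smul]
  refine ⟨lam ω₀, lam ω₁, h0, ?_, ?_⟩
  · rw [hω1, map_smul, smul_eq_mul, mul_div_assoc, div_self h0, mul_one]
    exact hc
  · intro V hV π hπ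
    obtain ⟨g0, g1⟩ := hreg V hV
    exact ⟨hreg' V π hπ ω₀ g0, hreg' V π hπ ω₁ g1⟩

end Pool.Agent.Lib.MP_8bcb2e_ag.F
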