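import Pool.Agent.Lib.MP_8bcb2e_ag.F.Spec
import Pool.Agent.Lib.MP_8bcb2e_ag.TraceMonomial

/-!
# The iterated trace on monomial forms
-/

set_option autoImplicit false

universe u

namespace Pool.Agent.Lib.MP_8bcb2e_ag.F

open KaehlerDifferential AlgebraicGeometry CategoryTheory Pool.Agent.Lib.MP_8bcb2e_ag.B

namespace TrItAux

theorem div_lt {p a e : ℕ} (h : a < p ^ (e + 1)) : a / p < p ^ e := by
  refine Nat.div_lt_of_lt_mul ?_
  rwa [← pow_succ']

theorem dm {p a e : ℕ} (hp : 0 < p) (h : a + 1 = p ^ (e + 1)) :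
    a % p + 1 = p ∧ a / p + 1 = p ^ e := by
  have hq : 0 < p ^ e := pow_pos hp e
  have h1 : a = p * (p ^ e - 1) + (p - 1) := by
    have h2 : p * (p ^ e - 1) + p = p ^ (e + 1) := by
      rw [pow_succ', ← Nat.mul_succ]
      congr 1
      omega
    omega
  constructor
  · rw [h1, Nat.mul_add_mod, Nat.mod_eq_of_lt (by omega)]
    omega
  · rw [h1, Nat.mul_add_div hp, Nat.div_eq_of_lt (by omega : p - 1 < p)]
    omega

theorem md {p a e : ℕ} (h1 : a % p + 1 = p) (h2 : a / p + 1 = p ^ e) : a + 1 = p ^ (e + 1) := by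
  have h3 := Nat.div_add_mod a p
  rw [pow_succ', ← h2, Nat.mul_add, mul_one]
  omega

end TrItAux

open TrItAux in
theorem t_TrIt : S_TrIt.{u} := by
  intro k K _ _ _ p _ _ n Ψ T hT e
  have hp : p.Prime := Fact.out
  induction e with
  | zero =>
    intro w α hα b
    have h0 : ∀ i, α i = 0 := fun i => by
      have := hα i
      rw [pow_zero] at this
      omega
    constructor
    · intro _
      rw [Function.iterate_zero, id_eq, pow_zero, pow_one, Finset.prod_eq_one, one_mul]
      intro i _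
      rw [h0 i, pow_zero]
    · rintro ⟨i, hi⟩
      exact absurd (by rw [h0 i, pow_zero, zero_add]) hi
  | succ e ih =>
    intro w α hα b
    have hy : T (b ^ p ^ (e + 1) * ((∏ i, w i ^ α i) * jac Ψ w)) =
        (b ^ p ^ e * ∏ i, w i ^ (α i / p)) * T ((∏ i, w i ^ (α i % p)) * jac Ψ w) := by
      rw [← hT.map_pow_mul]
      congr 1
      have h1 : ∀ i ∈ Finset.univ, w i ^ α i = (w i ^ (α i / p)) ^ p * w i ^ (α i % p) := by
        intro i _
        rw [← pow_mul, ← pow_add]
        congr 1
        rw [mul_comm]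
        exact (Nat.div_add_mod (α i) p).symm
      rw [Finset.prod_congr rfl h1, Finset.prod_mul_distrib, Finset.prod_pow, mul_pow, ← pow_mul,
        ← pow_succ]
      ring
    have hTM := traceMonomial_of.{u} k K p n Ψ T hT w fun i => ⟨α i % p, Nat.mod_lt _ hp.pos⟩
    have hI := ih w (fun i => α i / p) (fun i => div_lt (hα i)) b
    constructor
    · intro h
      have h2 : T ((∏ i, w i ^ (α i % p)) * jac Ψ w) = jac Ψ w := hTM.1 fun i => (dm hp.pos (h i)).1
      rw [Function.iterate_succ_apply, hy, h2, mul_assoc]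
      exact hI.1 fun i => (dm hp.pos (h i)).2
    · rintro ⟨i, hi⟩
      rw [Function.iterate_succ_apply, hy]
      by_cases h : ∀ j, α j % p + 1 = p
      · have h2 : T ((∏ i, w i ^ (α i % p)) * jac Ψ w) = jac Ψ w := hTM.1 h
        rw [h2, mul_assoc]
        exact hI.2 ⟨i, fun h3 => hi (md (h i) h3)⟩
      · push Not at h
        have h2 : T ((∏ i, w i ^ (α i % p)) * jac Ψ w) = 0 := hTM.2 h
        rw [h2, mul_zero]
        exact hT.iter_zero e

end Pool.Agent.Lib.MP_8bcb2e_ag.F
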