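import Pool.Agent.Lib.MP_8bcb2e_ag.F.Spec
import Pool.Agent.Lib.MP_8bcb2e_ag.SepExists

/-!
# `(z, x ^ q)` is a differential basis of `L`
-/

set_option autoImplicit false

universe u

namespace Pool.Agent.Lib.MP_8bcb2e_ag.F

open KaehlerDifferential AlgebraicGeometry CategoryTheory Pool.Agent.Lib.MP_8bcb2e_ag.B

/-- The elements with differential in a given subspace form a subring. -/
private def twb_ring (k L : Type u) [Field k] [Field L] [Algebra k L] (S : Submodule L Ω[L⁄k]) :
    Subring L where
  carrier := {a | D k L a ∈ S}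
  mul_mem' := by
    intro a b ha hb
    change D k L (a * b) ∈ S
    rw [Derivation.leibniz]
    exact S.add_mem (S.smul_mem _ hb) (S.smul_mem _ ha)
  one_mem' := by
    change D k L 1 ∈ S
    rw [Derivation.map_one_eq_zero]
    exact S.zero_mem
  add_mem' := by
    intro a b ha hb
    change D k L (a + b) ∈ S
    rw [map_add]
    exact S.add_mem ha hb
  zero_mem' := by
    change D k L 0 ∈ S
    rw [map_zero]
    exact S.zero_mem
  neg_mem' := by
    intro a ha
    change D k L (-a) ∈ S
    rw [map_neg]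
    exact S.neg_mem ha

theorem t_TwB (h1 : S_DPhi.{u}) : S_TwB.{u} := by
  intro k E L K _ _ _ _ _ _ _ _ _ _ _ _ _ _ _ p hp _ _ _ e d he φ hφ z x hspan hK
  obtain ⟨hD1, hD2⟩ := h1 k E L K p e he φ hφ
  obtain ⟨w, hw⟩ : ∃ w : Fin (d + 1) → L, w = snc (im E L z) (φ x) := ⟨_, rfl⟩
  rw [← hw]
  obtain ⟨S, hS⟩ : ∃ S : Submodule L Ω[L⁄k], S = Submodule.span L (Set.range fun i => D k L (w i)) :=
    ⟨_, rfl⟩
  have hwS : ∀ i, D k L (w i) ∈ S := by
    intro i
    rw [hS]
    exact Submodule.subset_span ⟨i, rfl⟩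
  have hzS : ∀ i, D k L (im E L z i) ∈ S := by
    intro i
    have := hwS (Fin.castSucc i)
    rwa [hw, snc_castSucc] at this
  have hxS : D k L (φ x) ∈ S := by
    have := hwS (Fin.last d)
    rwa [hw, snc_last] at this
  -- the differentials of the `φ c`
  have hφS : ∀ c : K, D k L (φ c) ∈ S := by
    intro c
    obtain ⟨b, hb⟩ := hK
    have h2 : D k K c = ∑ i, b.repr (D k K c) i • D k K (snc (im E K z) x i) := by
      conv_lhs => rw [← b.sum_repr (D k K c)]
      exact Finset.sum_congr rfl fun i _ => by rw [hb i]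
    rw [hD1 (d + 1) (snc (im E K z) x) c _ h2]
    refine S.sum_mem fun i _ => S.smul_mem _ ?_
    refine Fin.lastCases ?_ (fun j => ?_) i
    · rw [snc_last]
      exact hxS
    · rw [snc_castSucc]
      unfold im
      rw [hD2]
      exact S.zero_mem
  have hall : ∀ l : L, D k L l ∈ S := by
    intro l
    have h2 : l ∈ twb_ring k L S := by
      obtain ⟨c, hc⟩ := hspan l
      rw [hc]
      refine Subring.sum_mem _ fun α _ => Subring.mul_mem _ (hφS (c α)) ?_
      exact Subring.prod_mem _ fun i _ => Subring.pow_mem _ (hzS i) _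
    exact h2
  have htop : S = ⊤ := by
    rw [eq_top_iff, ← KaehlerDifferential.span_range_derivation k L, Submodule.span_le]
    rintro _ ⟨l, rfl⟩
    exact hall l
  -- the dimension
  have halg : Algebra.IsAlgebraic L K := by
    refine ⟨fun a => IsIntegral.isAlgebraic ?_⟩
    refine IsIntegral.of_pow (n := p ^ e) (pow_pos hp.out.pos e) ?_
    rw [← hφ a]
    exact isIntegral_algebraMap
  obtain ⟨t, ht⟩ := sepExists_of k K (d + 1) _ hK
  have htb : IsTranscendenceBasis k t := by
    have hsep := ht.sep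
    have halg2 : Algebra.IsAlgebraic (IntermediateField.adjoin k (Set.range t)) K := inferInstance
    refine ht.algInd.isTranscendenceBasis_iff_isAlgebraic.2 ?_
    rwa [← IntermediateField.isAlgebraic_adjoin_iff_top]
  obtain ⟨s, hs1, hs2⟩ := exists_isTranscendenceBasis_and_isSeparable_of_perfectField k L
  have hr : Set.range ((↑) : s → L) = (s : Set L) := Subtype.range_coe
  have hs3 : Algebra.IsSeparable (IntermediateField.adjoin k (Set.range ((↑) : s → L))) L := by
    rw [hr]
    exact hs2
  obtain ⟨b, hb⟩ := exists_basis_of_separating ((↑) : s → L) hs1.1 hs3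
  have hs4 : IsTranscendenceBasis k (algebraMap L K ∘ ((↑) : s → L)) := hs1.algebraMap_comp
  have hcard : Fintype.card s = d + 1 := by
    have h3 := hs4.lift_cardinalMk_eq htb
    rw [Cardinal.mk_fintype, Cardinal.lift_natCast, Cardinal.mk_fin, Cardinal.lift_natCast] at h3
    exact_mod_cast h3
  have hfr : Fintype.card (Fin (d + 1)) = Module.finrank L Ω[L⁄k] := by
    rw [Module.finrank_eq_card_basis b, hcard, Fintype.card_fin]
  have hle : ⊤ ≤ Submodule.span L (Set.range fun i => D k L (w i)) := by
    rw [← hS, htop]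
  refine ⟨basisOfTopLeSpanOfCardEqFinrank _ hle hfr, fun i => ?_⟩
  rw [coe_basisOfTopLeSpanOfCardEqFinrank]

end Pool.Agent.Lib.MP_8bcb2e_ag.F
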