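import Pool.Agent.Lib.MP_8bcb2e_ag.F.Spec

/-!
# TwF: the field `L = E K^q`
-/

set_option autoImplicit false

universe u

namespace Pool.Agent.Lib.MP_8bcb2e_ag.F

open KaehlerDifferential AlgebraicGeometry CategoryTheory Pool.Agent.Lib.MP_8bcb2e_ag.B

namespace TwFAux

/-- The sums. -/
def Q (E K : Type u) [Field E] [Field K] [Algebra E K] (q d : ℕ) (z : Fin d → E) (l : K) : Prop :=
  ∃ c : (Fin d → Fin q) → K, l = ∑ α, c α ^ q * ∏ i, im E K z i ^ (α i : ℕ)

variable {E K : Type u} [Field E] [Field K] [Algebra E K] {p e d : ℕ} {z : Fin d → E}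

theorem zero (hq : p ^ e ≠ 0) : Q E K (p ^ e) d z 0 := by
  refine ⟨fun _ => 0, ?_⟩
  simp [zero_pow hq]

theorem add [Fact p.Prime] [CharP K p] {l l' : K} (h : Q E K (p ^ e) d z l)
    (h' : Q E K (p ^ e) d z l') : Q E K (p ^ e) d z (l + l') := by
  obtain ⟨c, rfl⟩ := h
  obtain ⟨c', rfl⟩ := h'
  refine ⟨fun α => c α + c' α, ?_⟩
  rw [← Finset.sum_add_distrib]
  refine Finset.sum_congr rfl fun α _ => ?_
  rw [add_pow_char_pow, add_mul]

theorem mul {a l : K} (h : Q E K (p ^ e) d z l) : Q E K (p ^ e) d z (a ^ p ^ e * l) := by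
  obtain ⟨c, rfl⟩ := h
  refine ⟨fun α => a * c α, ?_⟩
  rw [Finset.mul_sum]
  refine Finset.sum_congr rfl fun α _ => ?_
  rw [mul_pow, mul_assoc]

end TwFAux

theorem t_TwF (h1 : S_PbIt.{u}) : S_TwF.{u} := by
  intro k E K _ _ _ _ _ _ _ _ p _ _ _ e d z hz
  have hq : p ^ e ≠ 0 := pow_ne_zero _ (Fact.out : p.Prime).ne_zero
  have hcK : CharP K p := charP_of_injective_algebraMap (algebraMap k K).injective p
  obtain ⟨A, hA⟩ : ∃ A : Subalgebra E K, A = Algebra.adjoin E (Set.range fun a : K => a ^ p ^ e) :=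
    ⟨_, rfl⟩
  have hpow : ∀ a : K, a ^ p ^ e ∈ A := fun a => by
    rw [hA]
    exact Algebra.subset_adjoin ⟨a, rfl⟩
  have hinv : ∀ x ∈ A, x⁻¹ ∈ A := by
    intro x hx
    by_cases hx0 : x = 0
    · rw [hx0, inv_zero]
      exact A.zero_mem
    · have e1 : x⁻¹ = x⁻¹ ^ p ^ e * x ^ (p ^ e - 1) := by
        obtain ⟨m, hm⟩ : ∃ m, p ^ e = m + 1 := ⟨p ^ e - 1, by omega⟩
        rw [hm, Nat.add_sub_cancel, pow_succ', mul_assoc, ← mul_pow, inv_mul_cancel₀ hx0, one_pow,
          mul_one]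
      rw [e1]
      exact A.mul_mem (hpow _) (A.pow_mem hx _)
  refine ⟨A.toIntermediateField hinv, hpow, fun l hl => ?_⟩
  have hl' : l ∈ Algebra.adjoin E (Set.range fun a : K => a ^ p ^ e) := by
    rw [← hA]
    exact hl
  have halg : ∀ ε : E, TwFAux.Q E K (p ^ e) d z (algebraMap E K ε) := by
    intro ε
    obtain ⟨c, hc⟩ := h1 k E p d z hz e ε
    refine ⟨fun α => algebraMap E K (c α), ?_⟩
    rw [hc, map_sum]
    refine Finset.sum_congr rfl fun α _ => ?_
    rw [map_mul, map_pow, map_prod]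
    refine congrArg _ (Finset.prod_congr rfl fun i _ => ?_)
    rw [map_pow]
    rfl
  have hcl : ∀ x ∈ Submonoid.closure (Set.range fun a : K => a ^ p ^ e), ∃ a : K, x = a ^ p ^ e := by
    intro x hx
    induction hx using Submonoid.closure_induction with
    | mem x hx =>
      obtain ⟨a, rfl⟩ := hx
      exact ⟨a, rfl⟩
    | one => exact ⟨1, by rw [one_pow]⟩
    | mul x y _ _ hx hy =>
      obtain ⟨a, rfl⟩ := hx
      obtain ⟨b, rfl⟩ := hy
      exact ⟨a * b, by rw [mul_pow]⟩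
  rw [← Subalgebra.mem_toSubmodule, Algebra.adjoin_eq_span] at hl'
  clear hl
  have key : TwFAux.Q E K (p ^ e) d z l := by
    induction hl' using Submodule.closure_induction with
    | zero => exact TwFAux.zero hq
    | add x y _ _ hx hy => exact TwFAux.add hx hy
    | smul_mem r x hx =>
      obtain ⟨a, rfl⟩ := hcl x hx
      rw [Algebra.smul_def, mul_comm]
      exact TwFAux.mul (halg r)
  exact key

end Pool.Agent.Lib.MP_8bcb2e_ag.F
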