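import Pool.Agent.Lib.MP_8bcb2e_ag.F.Spec

/-!
# TwG: `L` is essentially of finite type over `k`
-/

set_option autoImplicit false

universe u

namespace Pool.Agent.Lib.MP_8bcb2e_ag.F

open KaehlerDifferential AlgebraicGeometry CategoryTheory Pool.Agent.Lib.MP_8bcb2e_ag.B

theorem t_TwG : S_TwG.{u} := by
  classical
  intro k E K _ _ _ _ _ _ _ p _ _ _ e d z L hpow hspan
  have hcK : CharP K p := charP_of_injective_algebraMap (algebraMap k K).injective p
  obtain ⟨s, hs⟩ := IntermediateField.fg_top k K
  obtain ⟨M, hM⟩ : ∃ M : IntermediateField k K, M = IntermediateField.adjoin k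
      ((Finset.univ.image (im E K z) ∪ s.image fun a => a ^ p ^ e : Finset K) : Set K) := ⟨_, rfl⟩
  have hfg : M.FG := ⟨_, hM.symm⟩
  have hz : ∀ i, im E K z i ∈ M := by
    intro i
    rw [hM]
    apply IntermediateField.subset_adjoin
    rw [Finset.mem_coe]
    exact Finset.mem_union_left _ (Finset.mem_image_of_mem _ (Finset.mem_univ i))
  have hsM : ∀ a ∈ s, a ^ p ^ e ∈ M := by
    intro a ha
    rw [hM]
    apply IntermediateField.subset_adjoin
    rw [Finset.mem_coe]
    exact Finset.mem_union_right _ (Finset.mem_image_of_mem (fun a => a ^ p ^ e) ha)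
  -- all `q`-th powers are in `M`
  have hall : ∀ a : K, a ^ p ^ e ∈ M := by
    let N : IntermediateField k K :=
      (M.toSubfield.comap (iterateFrobenius K p e)).toIntermediateField (fun c => by
        change iterateFrobenius K p e (algebraMap k K c) ∈ M.toSubfield
        rw [iterateFrobenius_def, ← map_pow]
        exact M.algebraMap_mem _)
    have hN : ∀ a, a ∈ N ↔ a ^ p ^ e ∈ M := by
      intro a
      change iterateFrobenius K p e a ∈ M.toSubfield ↔ _
      rw [iterateFrobenius_def]
      rfl
    have htop : (⊤ : IntermediateField k K) ≤ N := by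
      rw [← hs, IntermediateField.adjoin_le_iff]
      intro a ha
      exact (hN a).2 (hsM a ha)
    intro a
    exact (hN a).1 (htop IntermediateField.mem_top)
  have hLM : ∀ l : K, l ∈ L ↔ l ∈ M := by
    intro l
    constructor
    · intro hl
      obtain ⟨c, rfl⟩ := hspan l hl
      exact sum_mem fun α _ => mul_mem (hall _) (prod_mem fun i _ => pow_mem (hz i) _)
    · intro hl
      have h1 : M ≤ L.restrictScalars k := by
        rw [hM, IntermediateField.adjoin_le_iff]
        intro a ha
        rw [Finset.mem_coe] at ha
        rcases Finset.mem_union.1 ha with h | h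
        · obtain ⟨i, _, rfl⟩ := Finset.mem_image.1 h
          exact L.algebraMap_mem (z i)
        · obtain ⟨b, _, rfl⟩ := Finset.mem_image.1 h
          exact hpow b
      exact h1 hl
  have hEq : M = L.restrictScalars k := by
    ext l
    exact (hLM l).symm
  have h2 : Algebra.EssFiniteType k M := IntermediateField.essFiniteType_iff.2 hfg
  rw [hEq] at h2
  exact h2

end Pool.Agent.Lib.MP_8bcb2e_ag.F
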