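import Pool.Agent.Lib.MP_8bcb2e_ag.F.Scheme
import Pool.Agent.Lib.MP_8bcb2e_ag.F.RelTower
import Pool.Agent.Lib.MP_8bcb2e_ag.F.TrIt
import Pool.Agent.Lib.MP_8bcb2e_ag.F.PbIt
import Pool.Agent.Lib.MP_8bcb2e_ag.F.JE
import Pool.Agent.Lib.MP_8bcb2e_ag.F.Der
import Pool.Agent.Lib.MP_8bcb2e_ag.F.DPhi
import Pool.Agent.Lib.MP_8bcb2e_ag.F.TwF
import Pool.Agent.Lib.MP_8bcb2e_ag.F.TwG
import Pool.Agent.Lib.MP_8bcb2e_ag.F.TwB
import Pool.Agent.Lib.MP_8bcb2e_ag.F.TwE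
import Pool.Agent.Lib.MP_8bcb2e_ag.F.Tau
import Pool.Agent.Lib.MP_8bcb2e_ag.F.Star
import Pool.Agent.Lib.MP_8bcb2e_ag.F.TLT
import Pool.Agent.Lib.MP_8bcb2e_ag.F.TLC
import Pool.Agent.Lib.MP_8bcb2e_ag.F.MR
import Pool.Agent.Lib.MP_8bcb2e_ag.F.Cpp
import Pool.Agent.Lib.MP_8bcb2e_ag.F.MRg
import Pool.Agent.Lib.MP_8bcb2e_ag.F.HCo
import Pool.Agent.Lib.MP_8bcb2e_ag.F.HMR
import Pool.Agent.Lib.MP_8bcb2e_ag.F.PlL
import Pool.Agent.Lib.MP_8bcb2e_ag.F.Dat
import Pool.Agent.Lib.MP_8bcb2e_ag.F.Ufr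
import Pool.Agent.Lib.MP_8bcb2e_ag.F.Fam
import Pool.Agent.Lib.MP_8bcb2e_ag.F.SecA
import Pool.Agent.Lib.MP_8bcb2e_ag.F.SecP
import Pool.Agent.Lib.MP_8bcb2e_ag.F.SecG
import Pool.Agent.Lib.MP_8bcb2e_ag.F.DsL
import Pool.Agent.Lib.MP_8bcb2e_ag.F.Hrt
import Pool.Agent.Lib.MP_8bcb2e_ag.F.DsG
import Pool.Agent.Lib.MP_8bcb2e_ag.F.Ndg
import Pool.Agent.Lib.MP_8bcb2e_ag.F.The
import Pool.Agent.Lib.MP_8bcb2e_ag.F.Scl
import Pool.Agent.Lib.MP_8bcb2e_ag.F.FFc
import Pool.Agent.Lib.MP_8bcb2e_ag.F.Ctr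
import Pool.Agent.Lib.MP_8bcb2e_ag.F.Rk1
import Pool.Agent.Lib.MP_8bcb2e_ag.F.HDv
import Pool.Agent.Lib.MP_8bcb2e_ag.F.SmA
import Pool.Agent.Lib.MP_8bcb2e_ag.F.SmC
import Pool.Agent.Lib.MP_8bcb2e_ag.F.Bas
import Pool.Agent.Lib.MP_8bcb2e_ag.F.Cur
import Pool.Agent.Lib.MP_8bcb2e_ag.F.Htr

/-!
# Fibrations in curves: all pieces in place
-/

set_option autoImplicit false

universe u

namespace Pool.Agent.Lib.MP_8bcb2e_ag.F

open KaehlerDifferential AlgebraicGeometry CategoryTheory Pool.Agent.Lib.MP_8bcb2e_ag.B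

theorem c_Tau : S_Tau.{u} := t_Tau t_TrIt t_JE

theorem c_Star : S_Star.{u} := t_Star c_Tau

theorem c_TLT : S_TLT.{u} := t_TLT t_TrIt c_Tau

theorem c_TLC : S_TLC.{u} := t_TLC c_Star c_TLT

theorem c_MR : S_MR.{u} := t_MR t_TrIt c_Star c_TLC

theorem c_Cpp : S_Cpp.{u} := t_Cpp t_PbIt c_Tau c_MR

theorem c_MRg : S_MRg.{u} := t_MRg c_MR

theorem c_HCo : S_HCo.{u} := t_HCo t_TrIt t_Der t_DPhi

theorem c_HMR : S_HMR.{u} := t_HMR t_TrIt c_HCo

theorem c_DsL : S_DsL.{u} := t_DsL c_Tau c_MR c_Cpp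

theorem allM : AllM.{u} where
  twE := t_TwE (t_TwF t_PbIt) t_TwG (t_TwB t_DPhi)
  hmr := c_HMR
  plL := t_PlL
  dat := t_Dat
  ufr := t_Ufr
  fam := t_Fam
  secA := t_SecA c_MRg
  secP := t_SecP c_MR c_MRg c_HMR t_PlL
  secG := t_SecG
  dsG := t_DsG c_DsL t_Hrt
  ndg := t_Ndg c_Tau c_Star
  the := t_The t_JE t_Der
  scl := t_Scl

theorem allS : AllS.{u} where
  ffc := t_FFc
  ctr := t_Ctr
  rk1 := t_Rk1
  hdv := t_HDv t_FFc t_Ctr t_Rk1
  smc := t_SmC t_FFc t_Ctr t_SmA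
  bas := t_Bas
  cur := t_Cur t_Rk1 t_Htr
  htr := t_Htr

/-- one fibration -/
theorem step_all {k : Type u} [Field k] [PerfectField k] (p : ℕ) [Fact p.Prime] [CharP k p]
    {X Z : Scheme.{u}} [IsIntegral X] [IsIntegral Z] {d : ℕ} (hd : 1 ≤ d)
    (gX : X ⟶ Spec (.of k)) [IsProper gX] [SmoothOfRelativeDimension (d + 1) gX]
    (gZ : Z ⟶ Spec (.of k)) [IsProper gZ] [SmoothOfRelativeDimension d gZ] (f : X ⟶ Z)
    [IsDominant f] (hf : f ≫ gZ = gX) (hsm : SmoothGeneric f) (hg : GenusTwo f) :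
    letI := functionFieldAlgebra gX
    letI := functionFieldAlgebra gZ
    ∀ (ΨZ : Ω[Z.functionField⁄k] [⋀^Fin d]→ₗ[Z.functionField] Z.functionField)
      (ΨX : Ω[X.functionField⁄k] [⋀^Fin (d + 1)]→ₗ[X.functionField] X.functionField),
      ΨZ ≠ 0 → ΨX ≠ 0 → ∃ T : X.functionField → X.functionField, IsFrobTrace k ΨX p T ∧
        (∀ T', IsFrobTrace k ΨX p T' → T' = T) ∧
        ∀ r : ℕ, 1 ≤ r → GenericallyFinite k (sections k ΨZ (localRings Z) r) →
          GenericallyFinite k (sections k ΨX (localRings X) (1 + r * (d + 2))) ∧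
          ∀ j : ℕ, d + 3 ≤ j →
            Birational k (S0 k ΨX p T (localRings X) (1 + j * (1 + r * (d + 2)))) := by
  letI := functionFieldAlgebra gX
  letI := functionFieldAlgebra gZ
  intro ΨZ ΨX hΨZ hΨX
  obtain ⟨T, hT, huniq, hbir⟩ := main_scheme pBasis_of traceMonomial_of topMem_of sepExists_of
    derivBound_of integralOfHeightOne_of inftyChart_of twoCharts_of integralSections_of wSection_of
    spread_of traceExists_of schemeCoord_of schemeComplete_of schemeFin_of p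
    (by omega : 1 ≤ d + 1) gX ΨX hΨX
  refine ⟨T, hT, huniq, fun r hr hgf => ?_⟩
  have h1 := step allM allS p hd gX gZ f hf hsm hg ΨZ ΨX hΨZ hΨX r hr hgf
  exact ⟨h1, fun j hj => hbir _ h1 j (by omega)⟩

/-- a larger linear system -/
theorem birational_mono {k K : Type u} [Field k] [Field K] [Algebra k K] {V V' : Set K}
    (h : V ⊆ V') (hV : Birational k V) : Birational k V' := by
  have h1 : ratioField k V ≤ ratioField k V' := by
    rw [ratioField, IntermediateField.adjoin_le_iff]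
    rintro _ ⟨a, ha, b, hb, rfl⟩
    exact IntermediateField.subset_adjoin k _ ⟨a, h ha, b, h hb, rfl⟩
  have h2 : ratioField k V = ⊤ := hV
  rw [h2] at h1
  exact top_le_iff.1 h1

/-- towers over a base -/
theorem curveTower_all {k : Type u} [Field k] [PerfectField k] (p : ℕ) [Fact p.Prime] [CharP k p]
    {d r m : ℕ} (hd : 1 ≤ d) (hr : 1 ≤ r) {X : Scheme.{u}} {gX : X ⟶ Spec (.of k)}
    (h : CurveTower k d r m X gX) [IsIntegral X] :
    letI := functionFieldAlgebra gX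
    ∀ Ψ : Ω[X.functionField⁄k] [⋀^Fin (d + m)]→ₗ[X.functionField] X.functionField, Ψ ≠ 0 →
      ∃ T : X.functionField → X.functionField, IsFrobTrace k Ψ p T ∧
        (∀ T', IsFrobTrace k Ψ p T' → T' = T) ∧
        GenericallyFinite k (sections k Ψ (localRings X) (towerBound d r m)) ∧
        (∀ j : ℕ, d + m + 2 ≤ j →
          Birational k (S0 k Ψ p T (localRings X) (1 + j * towerBound d r m))) ∧
        Birational k (sections k Ψ (localRings X) (1 + (d + m + 2) * towerBound d r m)) := by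
  have hinst := h.inst
  have hp := hinst.2.1
  have hs := hinst.2.2
  have hsX : Smooth gX := SmoothOfRelativeDimension.smooth (d + m) gX
  letI := functionFieldAlgebra gX
  intro Ψ hΨ
  have hess := (schemeFin_of k X gX).1
  have h𝒪 := isSmoothModel_of_scheme schemeCoord_of schemeComplete_of schemeFin_of X (d + m) gX
  obtain ⟨T, hT, huniq, hbir⟩ := main_scheme pBasis_of traceMonomial_of topMem_of sepExists_of
    derivBound_of integralOfHeightOne_of inftyChart_of twoCharts_of integralSections_of wSection_of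
    spread_of traceExists_of schemeCoord_of schemeComplete_of schemeFin_of p
    (by omega : 1 ≤ d + m) gX Ψ hΨ
  have h1 := curveTower allM allS p hd hr h inferInstance Ψ hΨ
  have h2 := hbir _ h1
  refine ⟨T, hT, huniq, h1, h2, birational_mono ?_ (h2 (d + m + 2) le_rfl)⟩
  intro F hF
  obtain ⟨G, hG, rfl⟩ := hF 1 le_rfl
  have h3 : 1 + (d + m + 2) * towerBound d r m - 1 = (d + m + 2) * towerBound d r m := by omega
  rw [h3, pow_one] at hG
  exact trace_sections pBasis_of traceMonomial_of topMem_of hT h𝒪 hG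

end Pool.Agent.Lib.MP_8bcb2e_ag.F
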