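import Pool.Agent.Lib.MP_8bcb2e_ag.F.Spec

/-!
# Local rings and the map of the function fields
-/

set_option autoImplicit false

universe u

namespace Pool.Agent.Lib.MP_8bcb2e_ag.F

open KaehlerDifferential AlgebraicGeometry CategoryTheory Pool.Agent.Lib.MP_8bcb2e_ag.B

namespace CtrAux

theorem ffm_alg {X Z : Scheme.{u}} [IsIntegral X] [IsIntegral Z] (f : X ⟶ Z)
    (h : f (genericPoint X) = genericPoint Z) (x : X) (b : Z.presheaf.stalk (f x)) :
    ffm f h (algebraMap (Z.presheaf.stalk (f x)) Z.functionField b) =
      algebraMap (X.presheaf.stalk x) X.functionField ((f.stalkMap x).hom b) := by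
  have hx : genericPoint X ⤳ x := (genericPoint_spec X).specializes trivial
  have hz : genericPoint Z ⤳ f x := (genericPoint_spec Z).specializes trivial
  have h1 : Z.presheaf.stalkSpecializes hz ≫
      (Z.presheaf.stalkSpecializes (specializes_of_eq h) ≫ f.stalkMap (genericPoint X)) =
      f.stalkMap x ≫ X.presheaf.stalkSpecializes hx := by
    rw [← Category.assoc, TopCat.Presheaf.stalkSpecializes_comp]
    exact Scheme.Hom.stalkSpecializes_stalkMap f (genericPoint X) x hx
  exact DFunLike.congr_fun (CommRingCat.hom_ext_iff.mp h1) b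

theorem alg_inj (X : Scheme.{u}) [IsIntegral X] (x : X) :
    Function.Injective (algebraMap (X.presheaf.stalk x) X.functionField) :=
  IsFractionRing.injective _ _

end CtrAux

theorem t_Ctr : S_Ctr.{u} := by
  intro X Z _ _ f h x
  refine ⟨?_, ?_⟩
  · rintro _ ⟨b, rfl⟩
    exact ⟨(f.stalkMap x).hom b, (CtrAux.ffm_alg f h x b).symm⟩
  · intro hall
    have hunit : ∀ b : Z.presheaf.stalk (f x), b ≠ 0 → IsUnit b := by
      intro b hb
      have ha : algebraMap (Z.presheaf.stalk (f x)) Z.functionField b ≠ 0 := by
        intro h0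
        exact hb (CtrAux.alg_inj Z (f x) (h0.trans (map_zero _).symm))
      obtain ⟨c, hc⟩ := hall (algebraMap (Z.presheaf.stalk (f x)) Z.functionField b)⁻¹
      have h1 : (f.stalkMap x).hom b * c = 1 := by
        apply CtrAux.alg_inj X x
        rw [map_mul, map_one, hc, ← CtrAux.ffm_alg f h x b, ← map_mul, mul_inv_cancel₀ ha,
          map_one]
      exact isUnit_of_map_unit (f.stalkMap x).hom b (IsUnit.of_mul_eq_one c h1)
    have hz : genericPoint Z ⤳ f x := (genericPoint_spec Z).specializes trivial
    have h2 : genericPoint Z ∈ Set.range (Z.fromSpecStalk (f x)) := by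
      rw [Scheme.range_fromSpecStalk]
      exact hz
    obtain ⟨y, hy⟩ := h2
    have h3 : y = IsLocalRing.closedPoint (Z.presheaf.stalk (f x)) := by
      apply PrimeSpectrum.ext
      apply le_antisymm (IsLocalRing.le_maximalIdeal y.isPrime.ne_top)
      intro b hb
      by_cases hb0 : b = 0
      · rw [hb0]
        exact Ideal.zero_mem _
      · exact absurd (hunit b hb0) ((IsLocalRing.mem_maximalIdeal b).1 hb)
    rw [← hy, h3, Scheme.fromSpecStalk_closedPoint]

end Pool.Agent.Lib.MP_8bcb2e_ag.F
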