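import Pool.Agent.Lib.MP_8bcb2e_ag.B.SpecC
import Pool.Agent.Lib.MP_8bcb2e_ag.TraceSections

/-!
# Fibrations in curves: definitions

`k ⊆ E ⊆ K`: `E` is the function field of the base `Z` (dimension `d`), `K` the function field of `X`
(dimension `d + 1`). `q = p ^ e`, `L = E K^q`: the function field of the `e`-th Frobenius twist of the
generic fibre.
-/

set_option autoImplicit false

universe u

namespace Pool.Agent.Lib.MP_8bcb2e_ag.F

open KaehlerDifferential AlgebraicGeometry CategoryTheory Pool.Agent.Lib.MP_8bcb2e_ag.B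

/-- the family `z` followed by `x` -/
def snc {A : Type u} {d : ℕ} (z : Fin d → A) (x : A) : Fin (d + 1) → A :=
  Fin.snoc (α := fun _ => A) z x

@[simp] theorem snc_castSucc {A : Type u} {d : ℕ} (z : Fin d → A) (x : A) (i : Fin d) :
    snc z x i.castSucc = z i := Fin.snoc_castSucc _ _ _

@[simp] theorem snc_last {A : Type u} {d : ℕ} (z : Fin d → A) (x : A) :
    snc z x (Fin.last d) = x := Fin.snoc_last _ _

/-- the image of a family -/
def im (E K : Type u) [Field E] [Field K] [Algebra E K] {d : ℕ} (z : Fin d → E) : Fin d → K :=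
  fun i => algebraMap E K (z i)

/-- the value of a top form on the differentials of a family -/
noncomputable def jac {k K : Type u} [Field k] [Field K] [Algebra k K] {n : ℕ}
    (Ψ : Ω[K⁄k] [⋀^Fin n]→ₗ[K] K) (w : Fin n → K) : K := Ψ fun i => D k K (w i)

/-- `L = E K^q`, `q = p ^ e`, `e ≥ 1`, `φ : K → L` the `q`-th power map; `z` is a differential basis of
`E`, `(z, x)` one of `K`, `(z, x ^ q)` one of `L`; the top forms are normalized; `TK`, `TL` are the
traces of the Frobenius. -/
structure Tw (k E L K : Type u) [Field k] [Field E] [Field L] [Field K] [Algebra k E] [Algebra k L]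
    [Algebra k K] [Algebra E L] [Algebra E K] [Algebra L K] (p e d : ℕ) where
  z : Fin d → E
  x : K
  φ : K →+* L
  ΨE : Ω[E⁄k] [⋀^Fin d]→ₗ[E] E
  ΨL : Ω[L⁄k] [⋀^Fin (d + 1)]→ₗ[L] L
  ΨK : Ω[K⁄k] [⋀^Fin (d + 1)]→ₗ[K] K
  TL : L → L
  TK : K → K
  he : 1 ≤ e
  coe : ∀ a, algebraMap L K (φ a) = a ^ p ^ e
  span : ∀ l : L, ∃ c : (Fin d → Fin (p ^ e)) → K,
    l = ∑ α, φ (c α) * ∏ i, im E L z i ^ (α i : ℕ)
  bE : IsDiffBasis k z
  bL : IsDiffBasis k (snc (im E L z) (φ x))
  bK : IsDiffBasis k (snc (im E K z) x)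
  nE : jac ΨE z = 1
  nL : jac ΨL (snc (im E L z) (φ x)) = 1
  nK : jac ΨK (snc (im E K z) x) = 1
  trL : IsFrobTrace k ΨL p TL
  trK : IsFrobTrace k ΨK p TK

namespace Tw

variable {k E L K : Type u} [Field k] [Field E] [Field L] [Field K] [Algebra k E] [Algebra k L]
    [Algebra k K] [Algebra E L] [Algebra E K] [Algebra L K] {p e d : ℕ} (t : Tw k E L K p e d)

/-- The trace `L → K` of the projection of the twist: `τ (∑ z^α a_α^q) = a_(q-1,…,q-1)`. -/
noncomputable def tau (l : L) : K := t.TK^[e] (t.x ^ (p ^ e - 1) * algebraMap L K l)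

/-- The relative Cartier operator `K → L`: the coefficient of `x ^ (q - 1)` in `K = ⊕ L x ^ i`. -/
noncomputable def car (a : K) : L :=
  ∑ α : Fin d → Fin (p ^ e),
    t.φ (t.TK^[e] ((∏ i, im E K t.z i ^ (p ^ e - 1 - (α i : ℕ))) * a)) *
      ∏ i, im E L t.z i ^ (α i : ℕ)

/-- The lattice of the top forms of `L` that are images of regular top forms of `K` along `O`. -/
def MR (O : Subring K) : Set L := {y | ∃ F, RegularAt k t.ΨK 1 O F ∧ y = t.car F}

/-- `F` is in the `m`-th power of the lattice `MR O`. -/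
def Reg (m : ℕ) (O : Subring K) (F : L) : Prop :=
  ∃ l μ : L, algebraMap L K l ∈ O ∧ μ ∈ t.MR O ∧ F = l * μ ^ m

end Tw

/-- the field `k(u)` in `L` -/
abbrev E0 (k : Type u) {E : Type u} (L : Type u) [Field k] [Field E] [Field L] [Algebra k L]
    [Algebra E L] {d : ℕ} (u : Fin d → E) : IntermediateField k L :=
  IntermediateField.adjoin k (Set.range (im E L u))

/-- Coordinates `w` of a point of the base below the valuation ring `R` of `K`: for every section `s` of
`mK_Z` the quotient `s / (dw)^m` is in `R`. -/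
def ZDat {k E K : Type u} [Field k] [Field E] [Field K] [Algebra k E] [Algebra E K] {d : ℕ}
    (ΨE : Ω[E⁄k] [⋀^Fin d]→ₗ[E] E) (𝒪Z : Set (Subring E)) (R : ValuationSubring K)
    (w : Fin d → E) : Prop :=
  IsDiffBasis k w ∧ (∀ i, algebraMap E K (w i) ∈ R) ∧
    ∀ (m : ℕ) (s : E), s ∈ sections k ΨE 𝒪Z m → algebraMap E K (s / jac ΨE w ^ m) ∈ R

section sec

variable {k E L K : Type u} [Field k] [Field E] [Field L] [Field K] [Algebra k E] [Algebra k L]
    [Algebra k K] [Algebra E L] [Algebra E K] [Algebra L K] {p e d : ℕ} (t : Tw k E L K p e d)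

/-- The sections of `m K` on the twist with poles of order at most `b` along the pullback of the
divisor of `s ∈ H⁰(r K_Z)`; `W R` are the coordinates of the base below the divisor `R` of `X`. -/
def Sec (u : Fin d → E) (G : Curve (E0 k L u) L p (Pl (E0 k L u))) (𝒪 : Set (Subring K))
    (W : ValuationSubring K → Fin d → E) (s : E) (r m b : ℕ) : Set L :=
  {F | F ∈ G.W m ∧ ∀ R : ValuationSubring K, R.toSubring ∈ 𝒪 →
    t.Reg m R.toSubring (algebraMap E L (s / jac t.ΨE (W R) ^ r) ^ b * F)}

/-- the `k(u)`-span of `Sec` -/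
noncomputable def ASp (u : Fin d → E) (G : Curve (E0 k L u) L p (Pl (E0 k L u)))
    (𝒪 : Set (Subring K)) (W : ValuationSubring K → Fin d → E) (s : E) (r m b : ℕ) :
    Submodule (E0 k L u) L :=
  Submodule.span _ (Sec t u G 𝒪 W s r m b)

end sec

/-- Two regular differentials of the function field `K/E` with a quotient that is transcendental over
`E` (for a smooth curve: genus at least two). A differential is regular if at every place (valuation ring of
`K` that contains `E`) it is a sum of differentials `a db` with `a`, `b` in the valuation ring. -/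
def TwoForms (E K : Type u) [Field E] [Field K] [Algebra E K] : Prop :=
  ∃ (ω₀ ω₁ : Ω[K⁄E]) (c : K), ω₀ ≠ 0 ∧ Transcendental E c ∧ ω₁ = c • ω₀ ∧
    ∀ V : ValuationSubring K, (∀ a : E, algebraMap E K a ∈ V) →
      ω₀ ∈ regDiff E V.toSubring ∧ ω₁ ∈ regDiff E V.toSubring

/-- The homomorphism of the function fields of a dominant morphism. -/
noncomputable def ffm {X Z : Scheme.{u}} [IsIntegral X] [IsIntegral Z] (f : X ⟶ Z)
    (h : f (genericPoint X) = genericPoint Z) : Z.functionField →+* X.functionField :=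
  (Z.presheaf.stalkSpecializes (specializes_of_eq h) ≫ f.stalkMap (genericPoint X)).hom

/-- The function field of `X` as an algebra over the function field of `Z`. -/
noncomputable abbrev ffAlgebra {X Z : Scheme.{u}} [IsIntegral X] [IsIntegral Z] (f : X ⟶ Z)
    (h : f (genericPoint X) = genericPoint Z) : Algebra Z.functionField X.functionField :=
  (ffm f h).toAlgebra

end Pool.Agent.Lib.MP_8bcb2e_ag.F
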