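import Pool.Agent.Lib.MP_8bcb2e_ag.F.Spec
import Pool.Agent.Lib.MP_8bcb2e_ag.B.All

/-!
# Fibrations in curves: the theorem for models, from the pieces
-/

set_option autoImplicit false

universe u

namespace Pool.Agent.Lib.MP_8bcb2e_ag.F

open KaehlerDifferential AlgebraicGeometry CategoryTheory Pool.Agent.Lib.MP_8bcb2e_ag.B

/-- the pieces used for models -/
structure AllM : Prop where
  twE : S_TwE.{u}
  hmr : S_HMR.{u}
  plL : S_PlL.{u}
  dat : S_Dat.{u}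
  ufr : S_Ufr.{u}
  fam : S_Fam.{u}
  secA : S_SecA.{u}
  secP : S_SecP.{u}
  secG : S_SecG.{u}
  dsG : S_DsG.{u}
  ndg : S_Ndg.{u}
  the : S_The.{u}
  scl : S_Scl.{u}

section

theorem ne_zero_of_jac {k K : Type u} [Field k] [Field K] [Algebra k K] {n : ℕ}
    {Ψ : Ω[K⁄k] [⋀^Fin n]→ₗ[K] K} {w : Fin n → K} (h : jac Ψ w = 1) : Ψ ≠ 0 := by
  rintro rfl
  exact zero_ne_one h

/-- an element transcendental over `E` remains transcendental over `k(u)` in `L`, after `φ` -/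
theorem transcendental_phi {k E L K : Type u} [Field k] [Field E] [Field L] [Field K] [Algebra k E]
    [Algebra k K] [Algebra E K] [Algebra k L] [Algebra E L] [Algebra L K] [IsScalarTower k E L]
    [IsScalarTower k L K] [IsScalarTower E L K] {p : ℕ} [Fact p.Prime] {e d : ℕ}
    (t : Tw k E L K p e d) (u : Fin d → E) {c : K} (hc : Transcendental E c) :
    Transcendental (E0 k L u) (t.φ c) := by
  intro halg
  apply hc
  have hpos : 0 < p ^ e := pow_pos (Fact.out : p.Prime).pos e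
  -- the image of `k(u)` in `L` is contained in the image of `E`
  have h1 : IsAlgebraic E (t.φ c) := by
    obtain ⟨P, hP, hP0⟩ := halg
    have hmem : ∀ a : E0 k L u, (a : L) ∈ (algebraMap E L).fieldRange := by
      intro a
      have : E0 k L u ≤ (IsScalarTower.toAlgHom k E L).fieldRange := by
        rw [IntermediateField.adjoin_le_iff]
        rintro _ ⟨i, rfl⟩
        exact ⟨u i, rfl⟩
      exact this a.2
    choose g hg using hmem
    have hg' : ∀ a b : E0 k L u, g (a + b) = g a + g b := fun a b => by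
      apply (algebraMap E L).injective
      rw [map_add, hg, hg, hg]; rfl
    have hgm : ∀ a b : E0 k L u, g (a * b) = g a * g b := fun a b => by
      apply (algebraMap E L).injective
      rw [map_mul, hg, hg, hg]; rfl
    have hg1 : g 1 = 1 := by
      apply (algebraMap E L).injective
      rw [map_one, hg]; rfl
    have hg0 : g 0 = 0 := by
      apply (algebraMap E L).injective
      rw [map_zero, hg]; rfl
    let γ : E0 k L u →+* E := ⟨⟨⟨g, hg1⟩, hgm⟩, hg0, hg'⟩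
    refine ⟨P.map γ, (Polynomial.map_ne_zero_iff γ.injective).2 hP, ?_⟩
    rw [Polynomial.aeval_def, Polynomial.eval₂_map]
    rw [Polynomial.aeval_def] at hP0
    have : (algebraMap E L).comp γ = algebraMap (E0 k L u) L := by
      ext a
      exact hg a
    rw [this]
    exact hP0
  have h2 : IsAlgebraic E (algebraMap L K (t.φ c)) := h1.algebraMap
  rw [t.coe] at h2
  exact (IsAlgebraic.of_pow hpos h2)

theorem core (hM : AllM.{u}) {k E K : Type u} [Field k] [Field E] [Field K] [Algebra k E]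
    [Algebra k K] [Algebra E K] [IsScalarTower k E K] [PerfectField k] (p : ℕ) [Fact p.Prime]
    [CharP k p] [Algebra.EssFiniteType k E] [Algebra.EssFiniteType k K] {d : ℕ} (hd : 1 ≤ d) (ΨE : Ω[E⁄k] [⋀^Fin d]→ₗ[E] E)
    (ΨK : Ω[K⁄k] [⋀^Fin (d + 1)]→ₗ[K] K) (z : Fin d → E) (x : K) (hz : IsDiffBasis k z)
    (hx : IsDiffBasis k (snc (im E K z) x)) (hnE : jac ΨE z = 1)
    (hnK : jac ΨK (snc (im E K z) x) = 1) {𝒪Z : Set (Subring E)} {𝒪X : Set (Subring K)}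
    (hZ : IsSmoothModel k d 𝒪Z) (hX : IsSmoothModel k (d + 1) 𝒪X)
    (hdiv : HasDivisors k (d + 1) 𝒪X)
    (hsm : ∀ V : ValuationSubring K, (∀ a : E, algebraMap E K a ∈ V) → V ≠ ⊤ →
      ∃ π, IsCoord k V.toSubring (snc (im E K z) π))
    (htwo : TwoForms E K) {r : ℕ} (hr : 1 ≤ r)
    (hgf : GenericallyFinite k (sections k ΨE 𝒪Z r)) :
    GenericallyFinite k (sections k ΨK 𝒪X (1 + r * (d + 2))) := by
  have hΨE : ΨE ≠ 0 := ne_zero_of_jac hnE
  have hΨK : ΨK ≠ 0 := ne_zero_of_jac hnK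
  obtain ⟨TK, hTK, -⟩ := traceExists_of pBasis_of traceMonomial_of k K p (d + 1) _
    (by omega : 1 ≤ d + 1) hx ΨK hΨK
  obtain ⟨s, u, hs0, hs, hus, hui, hualg⟩ := hM.ufr k E d z hd hz _ hgf
  obtain ⟨M, y, b₁, hy, hspan⟩ := hM.fam k E d ΨE 𝒪Z hΨE hZ r u s hs0 hs hus hualg
  obtain ⟨e, he, hq⟩ : ∃ e, 1 ≤ e ∧
      (d + 1) * (1 + r * (d + 2)) + (d + 2) + b₁ ≤ p ^ e := by
    refine ⟨(d + 1) * (1 + r * (d + 2)) + (d + 2) + b₁, by omega, ?_⟩
    exact (Nat.lt_pow_self (Fact.out : p.Prime).one_lt).le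
  obtain ⟨L, hess, t, rfl, rfl, rfl, rfl, rfl⟩ := hM.twE k E K p e d he z x ΨE ΨK TK hz hx hnE hnK hTK
  have hsc : IsScalarTower k L K := IsScalarTower.of_algebraMap_eq fun c => rfl
  have hΨL : t.ΨL ≠ 0 := ne_zero_of_jac t.nL
  -- the data of the base
  have hdat : ∀ R : ValuationSubring K, ∃ w : Fin d → E,
      R.toSubring ∈ 𝒪X → ZDat t.ΨE 𝒪Z R w := by
    intro R
    by_cases hR : R.toSubring ∈ 𝒪X
    · obtain ⟨w, hw⟩ := hM.dat k E K d t.ΨE 𝒪Z hΨE hZ R (hX.base _ hR)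
      exact ⟨w, fun _ => hw⟩
    · exact ⟨t.z, fun h => absurd h hR⟩
  choose W hW using hdat
  -- the curve
  have huL : AlgebraicIndependent k (im E L u) := by
    have := hui.map' (f := IsScalarTower.toAlgHom k E L) (algebraMap E L).injective
    exact this
  have hfg := allC.fg sepExists_of k L d _ t.bL (im E L u) huL
  obtain ⟨G₀, hG₀⟩ := allC.places allC.depMod allC.dvr allC.approx allC.finZeros k L
    (E0 k L u) hfg
  obtain ⟨G, hG1, hGT, hreg⟩ := allC.curve allC.coordAt allC.coordFin allC.traceLoc pBasis_of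
    traceMonomial_of topMem_of sepExists_of derivBound_of
    allC.heightOne allC.depMod allC.diffBasis allC.monoIndep allC.resBasis k L p d _ t.bL t.ΨL hΨL
    t.TL t.trL (im E L u) huL hfg G₀ hG₀
  -- the two forms
  obtain ⟨θ₀, θ₁, hθ0, hθt, hθ⟩ := hM.the k E K d t.ΨE t.ΨK t.z t.x hz hnE hx hnK htwo
  have hW1 : ∀ θ : K, (∀ V : ValuationSubring K, (∀ a : E, algebraMap E K a ∈ V) → ∀ π : K,
      IsCoord k V.toSubring (snc (im E K t.z) π) →
      ∃ v ∈ V, θ = v * jac t.ΨK (snc (im E K t.z) π)) → t.φ θ ∈ G.W 1 := by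
    intro θ hθ V'
    obtain ⟨V, hEV, hVt, hVV⟩ := (hM.plL k E L K p e d t u hualg).1 V'
    obtain ⟨π, hπ⟩ := hsm V hEV hVt
    obtain ⟨v, hv, hvθ⟩ := hθ V hEV π hπ
    have h1 := (hM.hmr k E L K p e d t V π hπ).2 v hv
    rw [← hvθ, hVV] at h1
    have h2 := (hreg V' 1 (t.φ θ)).1 h1
    exact h2
  have hφ0 : t.φ θ₀ ≠ 0 := (map_ne_zero t.φ).2 hθ0
  have hf0 : t.φ θ₀ ∈ G.W 1 := hW1 θ₀ fun V hE π hπ => (hθ V hE π hπ).1
  have hf1 : t.φ θ₁ ∈ G.W 1 := hW1 θ₁ fun V hE π hπ => (hθ V hE π hπ).2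
  have htr : Transcendental (E0 k L u) (t.φ θ₁ / t.φ θ₀) := by
    rw [← map_div₀]
    exact transcendental_phi t u hθt
  have hvan : HasVan G := allA.van allA.polyOrd allA.transc allA.polyRes allA.decomp allA.polyPart
    allA.vanOfDec _ _ _ p G 1 _ _ hf0 hf1 hφ0 htr
  have hne : Nonempty (Pl (E0 k L u)) := by
    by_contra hcon
    rw [not_nonempty_iff] at hcon
    exact htr (G.alg _ fun i => isEmptyElim i)
  have hfin : ∀ m, FiniteDimensional (E0 k L u) (G.W m) := by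
    intro m
    refine allA.finDim allA.polyOrd allA.transc allA.polyRes allA.finStep _ _ _ G.toPlaces
      ⟨_, htr⟩ _ ?_
    refine G.fin_c.subset ?_
    intro i hi hci
    apply hi
    change (m : ℤ) * G.c i = 0
    rw [hci, mul_zero]
  obtain ⟨m, v₀, v₁, hm, hv₀, hv₁, hT₀, hT₁, N₂, hN₂⟩ := allA.pair allA.kk allA.tLarge _ _ _ p G
    hne hvan
  obtain ⟨hA1, hA2, hA3⟩ := hM.secA k E L K p e d t u G 𝒪Z 𝒪X W s r hX hW hs hus hGT
  have hA4 := hM.secP k E L K p e d t u G 𝒪Z 𝒪X W s r hZ hX hdiv hW hs0 hs hus hualg hreg hsm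
  have hp2 : 2 ≤ p := (Fact.out : p.Prime).two_le
  have hl3 : 3 ≤ r * (d + 2) := by nlinarith
  obtain ⟨e₀, he₀⟩ := allA.slope _ _ p (d + 1) hp2 (by omega) t.TL G.W
    (fun m b => ASp t u G 𝒪X W s r m b) hA1 hA2 (by simpa using hA3) hA4 hfin m v₀ v₁ hm hv₀ hv₁
    (by rw [← hGT]; exact hT₀) (by rw [← hGT]; exact hT₁) N₂ hN₂ (r * (d + 2)) (by omega)
  obtain ⟨F₀, hF₀, F₁, hF₁, hne0, htrF⟩ := allA.two allA.polyOrd allA.transc allA.polyRes
    allA.polyPart allA.decomp allA.vanOfDec allA.frobVan _ _ _ p G 1 (t.φ θ₀) hφ0 hf0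
    (t.φ θ₁ / t.φ θ₀) 1 htr (by
      have hφ1 : t.φ θ₁ ≠ 0 := by
        intro h
        apply htr
        rw [h, zero_div]
        exact isAlgebraic_zero
      intro i
      rw [G.ord_div i hφ1 hφ0]
      have h1 := (G.ge_iff hφ1).1 (hf1 i)
      push_cast at h1 ⊢
      linarith) e₀
  rw [hGT] at hne0 htrF
  -- multiply by a power of `φ θ₀`
  have hmul : ∀ F : L, F ∈ G.W (1 + p ^ e₀ * (3 * 1)) →
      (t.φ θ₀ ^ (r * (d + 2) - 3)) ^ p ^ e₀ * F ∈ G.W (1 + p ^ e₀ * (r * (d + 2))) := by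
    intro F hF
    rw [← pow_mul]
    have h1 := G.W_mul (G.W_pow hf0 ((r * (d + 2) - 3) * p ^ e₀)) hF
    have h2 : (r * (d + 2) - 3) * p ^ e₀ * 1 + (1 + p ^ e₀ * (3 * 1)) =
        1 + p ^ e₀ * (r * (d + 2)) := by
      obtain ⟨c, hc⟩ := Nat.exists_eq_add_of_le hl3
      rw [hc, Nat.add_sub_cancel_left]
      ring
    rwa [h2] at h1
  have hTmul : ∀ F : L, t.TL^[e₀] ((t.φ θ₀ ^ (r * (d + 2) - 3)) ^ p ^ e₀ * F) =
      t.φ θ₀ ^ (r * (d + 2) - 3) * t.TL^[e₀] F := fun F => t.trL.iter_mul e₀ _ _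
  have h0 := he₀ e₀ le_rfl _ (hmul F₀ hF₀)
  have h1 := he₀ e₀ le_rfl _ (hmul F₁ hF₁)
  rw [hTmul] at h0 h1
  obtain ⟨F, hF, F', hF', hF'0, hFF⟩ := hM.secG k L (E0 k L u) _ _ _ h0 h1 (by
    rwa [mul_div_mul_left _ _ (pow_ne_zero _ hφ0)])
  -- descent
  have hdesc := fun H (hH : H ∈ Sec t u G 𝒪X W s r (1 + r * (d + 2))
      ((d + 1) * (1 + r * (d + 2)))) j (α : Fin d → ℕ) (hα : ∀ i, α i < p ^ e) =>
    hM.dsG k E L K p e d t u G 𝒪Z 𝒪X W s r hX hdiv hW hs0 hs hus (y j) b₁ (hy j) α hα hq H hH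
  refine hM.ndg k E L K p e d t u hui M y s hs0 hspan (d + 2) F F' hF'0 hFF _ ?_
  rintro H (rfl | rfl) j α hα
  · exact hdesc _ hF j α hα
  · exact hdesc _ hF' j α hα

/-- the theorem for complete nonsingular models -/
theorem model (hM : AllM.{u}) {k E K : Type u} [Field k] [Field E] [Field K] [Algebra k E]
    [Algebra k K] [Algebra E K] [IsScalarTower k E K] [PerfectField k] (p : ℕ) [Fact p.Prime]
    [CharP k p] [Algebra.EssFiniteType k E] [Algebra.EssFiniteType k K] {d : ℕ} (hd : 1 ≤ d)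
    {ΨZ : Ω[E⁄k] [⋀^Fin d]→ₗ[E] E} (hΨZ : ΨZ ≠ 0) {ΨX : Ω[K⁄k] [⋀^Fin (d + 1)]→ₗ[K] K}
    (hΨX : ΨX ≠ 0) {𝒪Z : Set (Subring E)} {𝒪X : Set (Subring K)}
    (hZ : IsSmoothModel k d 𝒪Z) (hX : IsSmoothModel k (d + 1) 𝒪X)
    (hdiv : HasDivisors k (d + 1) 𝒪X)
    (hsm : ∀ z : Fin d → E, IsDiffBasis k z → ∀ V : ValuationSubring K,
      (∀ a : E, algebraMap E K a ∈ V) → V ≠ ⊤ → ∃ π, IsCoord k V.toSubring (snc (im E K z) π))
    (htwo : TwoForms E K) {r : ℕ} (hr : 1 ≤ r)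
    (hgf : GenericallyFinite k (sections k ΨZ 𝒪Z r)) :
    GenericallyFinite k (sections k ΨX 𝒪X (1 + r * (d + 2))) := by
  obtain ⟨z, hz⟩ := exists_diffBasis hZ
  have htwo' := htwo
  obtain ⟨_, _, c, -, hc, -, -⟩ := htwo'
  have hV : ∃ V : ValuationSubring K, (∀ a : E, algebraMap E K a ∈ V) ∧ V ≠ ⊤ := by
    by_contra! hcon
    apply hc
    have h1 : IsIntegral (algebraMap E K).range c := by
      refine isIntegral_of_forall_valuationSubring _ c fun V hV => ?_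
      rw [hcon V fun a => hV ⟨a, rfl⟩]
      exact ValuationSubring.mem_top _
    have h2 : IsIntegral E c := by
      obtain ⟨P, hP, hP0⟩ := h1
      obtain ⟨Q, hQ, -, hQm⟩ := Polynomial.lifts_and_degree_eq_and_monic
        (f := (algebraMap E K).rangeRestrict) (p := P)
        (Polynomial.mem_lifts _ |>.2 (Polynomial.map_surjective _
          (algebraMap E K).rangeRestrict_surjective P)) hP
      refine ⟨Q, hQm, ?_⟩
      rw [← hQ, Polynomial.eval₂_map] at hP0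
      exact hP0
    exact h2.isAlgebraic
  obtain ⟨V, hEV, hVt⟩ := hV
  obtain ⟨x, hx⟩ := hsm z hz V hEV hVt
  have hcE : jac ΨZ z ≠ 0 := psi_ne_zero ΨZ hz hΨZ
  have hcK : jac ΨX (snc (im E K z) x) ≠ 0 := psi_ne_zero ΨX hx.basis hΨX
  have hgf' : GenericallyFinite k (sections k ((jac ΨZ z)⁻¹ • ΨZ) 𝒪Z r) := by
    apply hM.scl k E d ((jac ΨZ z)⁻¹ • ΨZ) 𝒪Z r (jac ΨZ z) hcE
    rwa [smul_smul, mul_inv_cancel₀ hcE, one_smul]
  have h1 := core hM p hd ((jac ΨZ z)⁻¹ • ΨZ) ((jac ΨX (snc (im E K z) x))⁻¹ • ΨX) z x hz hx.basis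
    (inv_mul_cancel₀ hcE) (inv_mul_cancel₀ hcK) hZ hX hdiv (hsm z hz) htwo hr hgf'
  exact hM.scl k K (d + 1) ΨX 𝒪X _ _ (inv_ne_zero hcK) h1

end

end Pool.Agent.Lib.MP_8bcb2e_ag.F
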