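import Pool.Agent.Lib.MP_8bcb2e_ag.F.Main

/-!
# Fibrations in curves: the theorem for schemes, from the pieces
-/

set_option autoImplicit false

universe u

namespace Pool.Agent.Lib.MP_8bcb2e_ag.F

open KaehlerDifferential AlgebraicGeometry CategoryTheory Pool.Agent.Lib.MP_8bcb2e_ag.B

/-- the pieces used for schemes -/
structure AllS : Prop where
  ffc : S_FFc.{u}
  ctr : S_Ctr.{u}
  rk1 : S_Rk1.{u}
  hdv : S_HDv.{u}
  smc : S_SmC.{u}
  bas : S_Bas.{u}
  cur : S_Cur.{u}
  htr : S_Htr.{u}

/-- A dominant morphism maps the generic point to the generic point. -/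
theorem generic_of_dominant {X Z : Scheme.{u}} [IsIntegral X] [IsIntegral Z] (f : X ⟶ Z)
    [IsDominant f] : f (genericPoint X) = genericPoint Z := by
  have h1 := (genericPoint_spec X).image f.continuous
  rw [Set.image_univ, f.denseRange.closure_range] at h1
  exact h1.eq (genericPoint_spec Z)

/-- The generic fibre of `f` is smooth of dimension one: `f` is smooth of relative dimension one over a
nonempty open set. -/
def SmoothGeneric {X Z : Scheme.{u}} (f : X ⟶ Z) : Prop :=
  ∃ U : Z.Opens, (U : Set Z).Nonempty ∧ SmoothOfRelativeDimension 1 (f ∣_ U)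

/-- The generic fibre of the dominant morphism `f` has two regular differentials with nonconstant
quotient (for a smooth curve: the genus is at least two). -/
def GenusTwo {X Z : Scheme.{u}} [IsIntegral X] [IsIntegral Z] (f : X ⟶ Z) [IsDominant f] : Prop :=
  letI := ffAlgebra f (generic_of_dominant f)
  TwoForms Z.functionField X.functionField

theorem step {k : Type u} [Field k] [PerfectField k] (hM : AllM.{u}) (hS : AllS.{u}) (p : ℕ) [Fact p.Prime] [CharP k p]
    {X Z : Scheme.{u}} [IsIntegral X] [IsIntegral Z] {d : ℕ} (hd : 1 ≤ d)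
    (gX : X ⟶ Spec (.of k)) [IsProper gX] [SmoothOfRelativeDimension (d + 1) gX]
    (gZ : Z ⟶ Spec (.of k)) [IsProper gZ] [SmoothOfRelativeDimension d gZ] (f : X ⟶ Z)
    [IsDominant f] (hf : f ≫ gZ = gX) (hsm : SmoothGeneric f) (hg : GenusTwo f) :
    letI := functionFieldAlgebra gX
    letI := functionFieldAlgebra gZ
    ∀ (ΨZ : Ω[Z.functionField⁄k] [⋀^Fin d]→ₗ[Z.functionField] Z.functionField)
      (ΨX : Ω[X.functionField⁄k] [⋀^Fin (d + 1)]→ₗ[X.functionField] X.functionField),
      ΨZ ≠ 0 → ΨX ≠ 0 → ∀ r : ℕ, 1 ≤ r →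
      GenericallyFinite k (sections k ΨZ (localRings Z) r) →
      GenericallyFinite k (sections k ΨX (localRings X) (1 + r * (d + 2))) := by
  have hsX : Smooth gX := SmoothOfRelativeDimension.smooth (d + 1) gX
  have hsZ : Smooth gZ := SmoothOfRelativeDimension.smooth d gZ
  letI := functionFieldAlgebra gX
  letI := functionFieldAlgebra gZ
  letI := ffAlgebra f (generic_of_dominant f)
  have htower : IsScalarTower k Z.functionField X.functionField := by
    refine IsScalarTower.of_algebraMap_eq fun c => ?_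
    exact (RingHom.congr_fun (hS.ffc k X Z gX gZ f hf (generic_of_dominant f)) c).symm
  have hessX := (schemeFin_of k X gX).1
  have hessZ := (schemeFin_of k Z gZ).1
  have h𝒪X := isSmoothModel_of_scheme schemeCoord_of schemeComplete_of schemeFin_of X (d + 1) gX
  have h𝒪Z := isSmoothModel_of_scheme schemeCoord_of schemeComplete_of schemeFin_of Z d gZ
  have hdiv : HasDivisors k (d + 1) (localRings X) :=
    ⟨t_SchemeFinCoord k X (d + 1) gX, (t_SchemeFinite k X gX).1, (t_SchemeFinite k X gX).2,
      t_SchemeHartogs k X gX⟩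
  obtain ⟨z₀, hz₀⟩ := exists_diffBasis h𝒪Z
  obtain ⟨x₀, hx₀⟩ := exists_diffBasis h𝒪X
  have htr : ∀ y : X.functionField, Transcendental Z.functionField y →
      Algebra.IsAlgebraic (IntermediateField.adjoin Z.functionField {y}) X.functionField :=
    hS.htr k Z.functionField X.functionField d z₀ x₀ hz₀ hx₀
  obtain ⟨U, hU, hUs⟩ := hsm
  intro ΨZ ΨX hΨZ hΨX r hr hgf
  refine model hM p hd hΨZ hΨX h𝒪Z h𝒪X hdiv ?_ hg hr hgf
  intro z hz V hEV hVt
  obtain ⟨x, hx⟩ := hS.hdv k X Z gX gZ f hf (generic_of_dominant f) htr V hEV hVt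
  obtain ⟨π, hπ⟩ := hS.smc k X Z d gX gZ f hf (generic_of_dominant f) U hU hUs z hz x (by
    intro a
    rw [hx]
    exact hEV a)
  rw [hx] at hπ
  exact ⟨π, hπ⟩

theorem base {k : Type u} [Field k] [PerfectField k] (hS : AllS.{u}) {X : Scheme.{u}} [IsIntegral X] (gX : X ⟶ Spec (.of k)) [IsProper gX]
    [SmoothOfRelativeDimension 1 gX] :
    letI := functionFieldAlgebra gX
    TwoForms k X.functionField →
    ∀ Ψ : Ω[X.functionField⁄k] [⋀^Fin 1]→ₗ[X.functionField] X.functionField, Ψ ≠ 0 →
      GenericallyFinite k (sections k Ψ (localRings X) 1) := by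
  have hsX : Smooth gX := SmoothOfRelativeDimension.smooth 1 gX
  letI := functionFieldAlgebra gX
  have hessX := (schemeFin_of k X gX).1
  have h𝒪X := isSmoothModel_of_scheme schemeCoord_of schemeComplete_of schemeFin_of X 1 gX
  intro htwo Ψ hΨ
  exact hS.bas k X.functionField Ψ (localRings X) hΨ h𝒪X (hS.cur k X gX) htwo

/-- **Towers of fibrations in curves.** `Tower k n X gX`: `X → Spec k` is obtained from a smooth projective
curve of genus at least two by `n - 1` fibrations in curves with smooth generic fibre of genus at least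
two; all the varieties are smooth and proper over `k`. -/
inductive Tower (k : Type u) [Field k] : (n : ℕ) → (X : Scheme.{u}) → (X ⟶ Spec (.of k)) → Prop
  | curve (X : Scheme.{u}) [IsIntegral X] (gX : X ⟶ Spec (.of k)) [IsProper gX]
      [SmoothOfRelativeDimension 1 gX]
      (htwo : letI := functionFieldAlgebra gX; TwoForms k X.functionField) : Tower k 1 X gX
  | step (n : ℕ) (X Z : Scheme.{u}) [IsIntegral X] [IsIntegral Z] (gX : X ⟶ Spec (.of k))
      [IsProper gX] [SmoothOfRelativeDimension (n + 1) gX] (gZ : Z ⟶ Spec (.of k)) (f : X ⟶ Z)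
      [IsDominant f] (hf : f ≫ gZ = gX) (hsm : SmoothGeneric f) (hg : GenusTwo f)
      (hZ : Tower k n Z gZ) : Tower k (n + 1) X gX

/-- The bound: `bound 1 = 1`, `bound (n + 1) = 1 + (n + 2) bound n`; `1, 4, 17, 86, …`. -/
def bound : ℕ → ℕ
  | 0 => 0
  | n + 1 => 1 + bound n * (n + 2)

theorem Tower.pos {k : Type u} [Field k] {n : ℕ} {X : Scheme.{u}} {gX : X ⟶ Spec (.of k)} (h : Tower k n X gX) :
    1 ≤ n := by
  cases h <;> omega

theorem one_le_bound {n : ℕ} (h : 1 ≤ n) : 1 ≤ bound n := by
  obtain ⟨m, rfl⟩ := Nat.exists_eq_add_of_le' h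
  simp [bound]

theorem Tower.inst {k : Type u} [Field k] {n : ℕ} {X : Scheme.{u}} {gX : X ⟶ Spec (.of k)} (h : Tower k n X gX) :
    IsIntegral X ∧ IsProper gX ∧ SmoothOfRelativeDimension n gX := by
  cases h with
  | curve => exact ⟨inferInstance, inferInstance, inferInstance⟩
  | step => exact ⟨inferInstance, inferInstance, inferInstance⟩

theorem tower {k : Type u} [Field k] [PerfectField k] (hM : AllM.{u}) (hS : AllS.{u}) (p : ℕ) [Fact p.Prime] [CharP k p] {n : ℕ}
    {X : Scheme.{u}} {gX : X ⟶ Spec (.of k)} (h : Tower k n X gX) : ∀ (_ : IsIntegral X),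
    letI := functionFieldAlgebra gX
    ∀ Ψ : Ω[X.functionField⁄k] [⋀^Fin n]→ₗ[X.functionField] X.functionField, Ψ ≠ 0 →
      GenericallyFinite k (sections k Ψ (localRings X) (bound n)) := by
  induction h with
  | curve X gX htwo =>
    intro _
    exact base hS gX htwo
  | step n X Z gX gZ f hf hsm hg hZ ih =>
    intro _
    have hinst := hZ.inst
    have hpZ := hinst.2.1
    have hsZ := hinst.2.2
    letI := functionFieldAlgebra gX
    letI := functionFieldAlgebra gZ
    have h𝒪Z := isSmoothModel_of_scheme schemeCoord_of schemeComplete_of schemeFin_of Z n gZ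
    obtain ⟨z, hz⟩ := exists_diffBasis h𝒪Z
    obtain ⟨b, hb⟩ := hz
    have hdet : b.det ≠ 0 := by
      intro h0
      have h1 := b.det_self
      rw [h0] at h1
      exact zero_ne_one h1
    intro Ψ hΨ
    exact step hM hS p hZ.pos gX gZ f hf hsm hg b.det Ψ hdet hΨ (bound n)
      (one_le_bound hZ.pos) (ih inferInstance b.det hdet)

end Pool.Agent.Lib.MP_8bcb2e_ag.F
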