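import Pool.Agent.Lib.MP_8bcb2e_ag.F.Defs

/-!
# Fibrations in curves over a base of general type: statements with complete proofs

THEOREM F. `k` perfect of characteristic `p`, `f : X → Z` dominant, `X`, `Z` smooth proper, `dim Z = d ≥ 1`,
`dim X = d + 1`, the generic fibre a smooth curve with two regular differentials with nonconstant quotient. If
`|r K_Z|` is generically finite then `|(1 + (d + 2) r) K_X|` is generically finite.

HOW TO USE THIS FILE. Every statement `S_X` is proved in the file `Pool/Agent/Lib/MP_8bcb2e_ag/F/X.lean`,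
namespace `Pool.Agent.Lib.MP_8bcb2e_ag.F`, as `theorem t_X : S_X.{u}` or `theorem t_X (h1 : S_Y.{u}) … : S_X.{u}`;
the statements listed under `uses` are hypotheses, in this order. The theorems of the folder
`MP_8bcb2e_ag` (`traceMonomial_of`, `pBasis_of`, `topMem_of`, `sepExists_of`, `traceExists_of`,
`integralSections_of`, `IsFrobTrace.iter_add`, `iter_mul`, …) and `MP_8bcb2e_ag/B` (`B.t_TraceLoc`, `B.t_LocCoord`,
`B.t_PolySec`, `B.t_MonoSpan`, `B.t_DiffBasis`, `B.t_Fg`, …) are proved: import the file that you need (the file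
names are those of the statements, e.g. `Pool.Agent.Lib.MP_8bcb2e_ag.TraceMonomial`, `….B.TraceLoc`).
Auxiliary declarations `private` or in a namespace `XAux`.

NOTATION. `q = p ^ e`, `z^α = ∏ i, z i ^ α i`, `J(w) = jac Ψ w`; elements of `E` are regarded as
elements of `L` and `K` (`im`, `algebraMap`), `φ : K → L` is the `q`-th power.
-/

set_option autoImplicit false

universe u

namespace Pool.Agent.Lib.MP_8bcb2e_ag.F

open KaehlerDifferential AlgebraicGeometry CategoryTheory Pool.Agent.Lib.MP_8bcb2e_ag.B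

/-! ### The iterated trace -/

/-- **TrIt** (80 lines). The iterated trace on monomial forms.

Proof. Induction on `e` (for all `b`, `α`). `e = 0`: `α = 0`. Step: `α i = α' i + p * α'' i`, `α' i < p`. By `map_pow_mul`
`T (b ^ p^(e+1) * (w^α * J)) = (b ^ p^e * w^α'') * T (w^α' * J)`; by `traceMonomial_of` `T (w^α' * J)` is `J` if all
`α' i + 1 = p` and `0` otherwise; then use the induction hypothesis. `α i + 1 = p ^ (e + 1)` iff `α' i + 1 = p`
and `α'' i + 1 = p ^ e`. `T^[e + 1] a = T^[e] (T a)`, `T^[e] 0 = 0` (`IsFrobTrace.iter_zero`). -/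
def S_TrIt : Prop := ∀ (k K : Type u) [Field k] [Field K] [Algebra k K] (p : ℕ) [Fact p.Prime]
  [CharP k p] (n : ℕ) (Ψ : Ω[K⁄k] [⋀^Fin n]→ₗ[K] K) (T : K → K), IsFrobTrace k Ψ p T →
  ∀ (e : ℕ) (w : Fin n → K) (α : Fin n → ℕ), (∀ i, α i < p ^ e) → ∀ b : K,
    ((∀ i, α i + 1 = p ^ e) → T^[e] (b ^ p ^ e * ((∏ i, w i ^ α i) * jac Ψ w)) = b * jac Ψ w) ∧
    ((∃ i, α i + 1 ≠ p ^ e) → T^[e] (b ^ p ^ e * ((∏ i, w i ^ α i) * jac Ψ w)) = 0)

/-- **PbIt** (80 lines). A differential basis is a `p`-basis, for `p ^ e`.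

Proof. Induction on `e`. `e = 0`: one index. Step: `a = ∑ c_α ^ (p^e) x^α` by induction, `c_α = ∑ b_{α,β} ^ p x^β` by
`pBasis_of`; `c_α ^ (p^e) = ∑ b_{α,β} ^ (p^(e+1)) x^(p^e β)` (`sum_pow_char_pow`), and `(α, β) ↦ α + p^e β` is a bijection
`Fin (p^e) × Fin p ≃ Fin (p^(e+1))` in every coordinate (`finProdFinEquiv`, or: it is enough to show that the set of all
sums is closed under addition and contains all `b ^ (p^(e+1)) * x^γ` with `γ i < p ^ (e+1)`). -/
def S_PbIt : Prop := ∀ (k K : Type u) [Field k] [Field K] [Algebra k K] [PerfectField k] (p : ℕ)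
  [Fact p.Prime] [CharP k p] [Algebra.EssFiniteType k K] (n : ℕ) (x : Fin n → K),
  IsDiffBasis k x → ∀ (e : ℕ) (a : K), ∃ c : (Fin n → Fin (p ^ e)) → K,
    a = ∑ α, c α ^ p ^ e * ∏ i, x i ^ (α i : ℕ)

/-! ### The Jacobians -/

/-- **JE** (100 lines). The Jacobian of `(w, y)`, `w` a family of the subfield `E`.

Proof. (1) For fixed `y` both sides are, as functions of the family `D w : Fin d → Ω[E⁄k]`, restrictions of
alternating `E`-multilinear maps `Ω[E⁄k]^d → K`: `θ ↦ ΨK (snc (map θ) (D y))` (`map = KaehlerDifferential.map k k E K`) and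
`θ ↦ algebraMap (ΨE θ) * c`. They agree at the basis `D z` (`Module.Basis.ext_alternating`; at a noninjective family both
are zero). Or with determinants: `D w_i = ∑ a_ij D z_j` in `Ω[E⁄k]`, `psi_eq_det` in `E` and, for a basis `(z, x)` of `K`
if there is one, in `K`; the first method does not need this. (2) `D a = ∑ a_j D z_j` in `Ω[E⁄k]`, so the last entry is a
combination of the others (`AlternatingMap.map_update_sum`/linear dependence: `map_eq_zero_of_eq`). -/
def S_JE : Prop := ∀ (k E K : Type u) [Field k] [Field E] [Field K] [Algebra k E] [Algebra k K]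
  [Algebra E K] [IsScalarTower k E K] (d : ℕ) (ΨE : Ω[E⁄k] [⋀^Fin d]→ₗ[E] E)
  (ΨK : Ω[K⁄k] [⋀^Fin (d + 1)]→ₗ[K] K) (z : Fin d → E), IsDiffBasis k z → jac ΨE z = 1 →
  (∀ (w : Fin d → E) (y : K), jac ΨK (snc (im E K w) y) =
    algebraMap E K (jac ΨE w) * jac ΨK (snc (im E K z) y)) ∧
  ∀ a : E, jac ΨK (snc (im E K z) (algebraMap E K a)) = 0

/-- **Der** (60 lines). The last coefficient of a differential is a Jacobian.

Proof. `D y = ∑ c_i D z_i + c D x` in the basis `(z, x)`. Apply `ΨK` to `(D z, D y)` (multilinearity in the last argument,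
repeated entries): `jac ΨK (snc z y) = c * jac ΨK (snc z x) = c`. (`psi_eq_det` also works.) -/
def S_Der : Prop := ∀ (k K : Type u) [Field k] [Field K] [Algebra k K] (d : ℕ)
  (ΨK : Ω[K⁄k] [⋀^Fin (d + 1)]→ₗ[K] K) (z : Fin d → K) (x : K), IsDiffBasis k (snc z x) →
  jac ΨK (snc z x) = 1 → ∀ y : K, ∃ c : Fin d → K,
    D k K y = ∑ i, c i • D k K (z i) + jac ΨK (snc z y) • D k K x

/-- **DPhi** (100 lines). Differentials and the `q`-th power map `φ : K → L`.

Proof. (1) `k` is perfect, so `φ (algebraMap k K c) = algebraMap k L (c ^ q)` (the images in `K` are equal, `algebraMap L K` is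
injective, tower). `δ = D k L ∘ φ : K → Ω[L⁄k]` is additive, `δ (a b) = φ a • δ b + φ b • δ a` and `δ (algebraMap c) = 0`. Make
`Ω[L⁄k]` a `K`-module via `φ` (`Module.compHom`); `δ` is a derivation over `ℤ` (or over `k` via `k → K → L`), which vanishes on
`k`, so it is `k`-linear for the structure of `k`-module via `k → K → L`, and `Derivation.liftKaehlerDifferential`
gives a `K`-linear map `Ω[K⁄k] → Ω[L⁄k]`, `D a ↦ δ a`. Apply it to the relation. (2) `φ (algebraMap E K a) = (algebraMap E L a) ^ q`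
(images in `K`), `q = p ^ e` with `e ≥ 1`, and `D (b ^ q) = q b^(q-1) D b = 0`. -/
def S_DPhi : Prop := ∀ (k E L K : Type u) [Field k] [Field E] [Field L] [Field K] [Algebra k E]
  [Algebra k L] [Algebra k K] [Algebra E L] [Algebra E K] [Algebra L K] [IsScalarTower k E L]
  [IsScalarTower k E K] [IsScalarTower k L K] [IsScalarTower E L K] [PerfectField k] (p : ℕ)
  [Fact p.Prime] [CharP k p] (e : ℕ), 1 ≤ e → ∀ φ : K →+* L,
  (∀ a, algebraMap L K (φ a) = a ^ p ^ e) →
  (∀ (n : ℕ) (x : Fin n → K) (a : K) (c : Fin n → K), D k K a = ∑ i, c i • D k K (x i) →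
    D k L (φ a) = ∑ i, φ (c i) • D k L (φ (x i))) ∧
  ∀ a : E, D k L (φ (algebraMap E K a)) = 0

/-! ### The field `L` -/

/-- **TwF** (120 lines, uses `S_PbIt`). The field `L = E K^q`.

Proof. `L = Algebra.adjoin E {a ^ q | a : K}`. The set of the `a ^ q` is closed under multiplication and contains `1`, so every
element of `L` is a sum of elements `ε a ^ q`, `ε ∈ E` (`Algebra.adjoin_eq_span`); write `ε = ∑ c_α ^ q z^α` with `c_α ∈ E`
(`S_PbIt` for `E`). The sums `∑ c_α ^ q z^α`, `c_α ∈ K`, are closed under addition (`add_pow_char_pow`) and under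
multiplication by `a ^ q`. `L` is a field: `l⁻¹ = (l⁻¹) ^ q * l ^ (q - 1)` (`Subalgebra.toIntermediateField`). -/
def S_TwF : Prop := ∀ (k E K : Type u) [Field k] [Field E] [Field K] [Algebra k E] [Algebra k K]
  [Algebra E K] [IsScalarTower k E K] [PerfectField k] (p : ℕ) [Fact p.Prime] [CharP k p]
  [Algebra.EssFiniteType k E] (e d : ℕ) (z : Fin d → E), IsDiffBasis k z →
  ∃ L : IntermediateField E K, (∀ a : K, a ^ p ^ e ∈ L) ∧
    ∀ l ∈ L, ∃ c : (Fin d → Fin (p ^ e)) → K,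
      l = ∑ α, c α ^ p ^ e * ∏ i, im E K z i ^ (α i : ℕ)

/-- **TwG** (120 lines). `L` is essentially of finite type over `k`.

Proof. `K = k(x_1, …, x_N)` as a field (`K` is essentially of finite type; `IntermediateField` lemmas such as
`IntermediateField.essFiniteType_iff`, `IntermediateField.fg_top…`). Let `M = k(z_1, …, z_d, x_1^q, …, x_N^q) ⊆ K`. The set of all
`a ∈ K` with `a ^ q ∈ M` is a subfield which contains `k` and the `x_j`, so it is `K`. So all `∑ c_α ^ q z^α` are in `M`: `L ⊆ M`, and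
`M ⊆ L`. So `L` is a finitely generated field over `k`. -/
def S_TwG : Prop := ∀ (k E K : Type u) [Field k] [Field E] [Field K] [Algebra k E] [Algebra k K]
  [Algebra E K] [IsScalarTower k E K] (p : ℕ) [Fact p.Prime] [CharP k p]
  [Algebra.EssFiniteType k K] (e d : ℕ) (z : Fin d → E) (L : IntermediateField E K),
  (∀ a : K, a ^ p ^ e ∈ L) → (∀ l ∈ L, ∃ c : (Fin d → Fin (p ^ e)) → K,
      l = ∑ α, c α ^ p ^ e * ∏ i, im E K z i ^ (α i : ℕ)) → Algebra.EssFiniteType k L

/-- **TwB** (200 lines, uses `S_DPhi`). `(z, x ^ q)` is a differential basis of `L`.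

Proof. (1) `Ω[L⁄k]` is spanned by the `D z_i` and `D (φ x)`: for `l = ∑ φ (c_α) z^α`, `D l` is a combination of `D (φ (c_α))` and
`D z_i`; `D c = ∑ c_i D z_i + c' D x` in `Ω[K⁄k]` (`IsDiffBasis` of `(z, x)`), so `D (φ c) = φ (c') D (φ x)` by `S_DPhi` (1) and (2).
(2) `Ω[L⁄k]` has dimension `d + 1`: let `s : Fin (d + 1) → K` be a transcendence basis of `K/k` (`sepExists_of`, `SepBasis`; see
`card_transcendenceBasis` in `Main.lean`). The `φ (s i)` are algebraically independent over `k` (their images in `K` are the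
`s i ^ q`; e.g. a transcendence basis of `L` has `d + 1` elements since `K` is algebraic over `L`:
`a ^ q ∈ L`; `Algebra.trdeg` of a tower), and `B.t_DiffBasis` gives a differential basis of `L` with `d + 1` elements.
(3) `d + 1` spanning elements of a space of dimension `d + 1` form a basis (`basisOfTopLeSpanOfCardEqFinrank`). -/
def S_TwB : Prop := ∀ (k E L K : Type u) [Field k] [Field E] [Field L] [Field K] [Algebra k E]
  [Algebra k L] [Algebra k K] [Algebra E L] [Algebra E K] [Algebra L K] [IsScalarTower k E L]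
  [IsScalarTower k E K] [IsScalarTower k L K] [IsScalarTower E L K] [PerfectField k] (p : ℕ)
  [Fact p.Prime] [CharP k p] [Algebra.EssFiniteType k L] [Algebra.EssFiniteType k K] (e d : ℕ),
  1 ≤ e → ∀ φ : K →+* L, (∀ a, algebraMap L K (φ a) = a ^ p ^ e) → ∀ (z : Fin d → E) (x : K),
  (∀ l : L, ∃ c : (Fin d → Fin (p ^ e)) → K, l = ∑ α, φ (c α) * ∏ i, im E L z i ^ (α i : ℕ)) →
  IsDiffBasis k (snc (im E K z) x) → IsDiffBasis k (snc (im E L z) (φ x))

/-- **TwE** (120 lines, uses `S_TwF`, `S_TwG`, `S_TwB`). The twist exists.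

Proof. `L` from `S_TwF`, `S_TwG`. `φ a = ⟨a ^ q, _⟩`, a ring homomorphism (characteristic `p`: `add_pow_char_pow`;
`CharP K p` from `charP_of_injective_algebraMap`). `ΨL`: the determinant of the basis of `S_TwB` (`Module.Basis.det`), so
`jac ΨL (z, φ x) = 1`, `ΨL ≠ 0`. `TL` from `traceExists_of` (`n = d + 1`). -/
def S_TwE : Prop := ∀ (k E K : Type u) [Field k] [Field E] [Field K] [Algebra k E] [Algebra k K]
  [Algebra E K] [IsScalarTower k E K] [PerfectField k] (p : ℕ) [Fact p.Prime] [CharP k p]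
  [Algebra.EssFiniteType k E] [Algebra.EssFiniteType k K] (e d : ℕ), 1 ≤ e →
  ∀ (z : Fin d → E) (x : K) (ΨE : Ω[E⁄k] [⋀^Fin d]→ₗ[E] E)
  (ΨK : Ω[K⁄k] [⋀^Fin (d + 1)]→ₗ[K] K) (TK : K → K), IsDiffBasis k z →
  IsDiffBasis k (snc (im E K z) x) → jac ΨE z = 1 → jac ΨK (snc (im E K z) x) = 1 →
  IsFrobTrace k ΨK p TK →
  ∃ (L : IntermediateField E K) (_ : Algebra.EssFiniteType k L) (t : Tw k E L K p e d),
    t.z = z ∧ t.x = x ∧ t.ΨE = ΨE ∧ t.ΨK = ΨK ∧ t.TK = TK

/-! ### `tau` and `car` -/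

/-- **Tau** (150 lines, uses `S_TrIt`, `S_JE`). The properties of `tau`.

Proof. (1), (2): `IsFrobTrace.iter_add`, `iter_mul`, `Tw.coe`. (3) The image in `K` of the argument is `w^α * J_E(w)`, and
`J_E(w) = jac ΨK (w, x)` by `S_JE` (1) and `Tw.nK`. So `tau (…) = TK^[e] (x^(q-1) w^α jac ΨK (w, x))`, and `S_TrIt` for the family
`snc w x` and the exponents `snc α (q - 1)` (`Fin.prod_univ_castSucc`), `b = 1`. (4) Let `δ' i = δ i` if `δ i < q` and
`δ i - q` otherwise: `z^δ = b ^ q z^δ'` with `b` the product of the `z i` with `δ i ≥ q`. By `S_TrIt` for `(z, x)` (`Tw.nK`) the value is `b`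
or `0`. If all `δ' i + 1 = q` then no `δ i ≥ q` (`δ i - q + 2 ≤ q`), so `b = 1` and `δ i + 1 = q`. -/
def S_Tau : Prop := ∀ (k E L K : Type u) [Field k] [Field E] [Field L] [Field K] [Algebra k E]
  [Algebra k L] [Algebra k K] [Algebra E L] [Algebra E K] [Algebra L K] [IsScalarTower k E L]
  [IsScalarTower k E K] [IsScalarTower k L K] [IsScalarTower E L K] [PerfectField k] (p : ℕ)
  [Fact p.Prime] [CharP k p] (e d : ℕ) (t : Tw k E L K p e d),
  (∀ a b, t.tau (a + b) = t.tau a + t.tau b) ∧ (∀ (b : K) (l : L), t.tau (t.φ b * l) = b * t.tau l) ∧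
  (∀ (w : Fin d → E) (α : Fin d → ℕ), (∀ i, α i < p ^ e) →
    t.tau ((∏ i, im E L w i ^ α i) * algebraMap E L (jac t.ΨE w)) =
      if ∀ i, α i + 1 = p ^ e then algebraMap E K (jac t.ΨE w) else 0) ∧
  ∀ δ : Fin d → ℕ, (∀ i, δ i + 2 ≤ 2 * p ^ e) →
    t.tau (∏ i, im E L t.z i ^ δ i) = if ∀ i, δ i + 1 = p ^ e then 1 else 0

/-- **Star** (150 lines, uses `S_Tau`). The properties of `car`.

Proof. (1) Write `y = ∑_β φ (c_β) z^β` (`Tw.span`). `tau (z^(q-1-α) y) = ∑_β c_β tau (z^(q-1-α+β)) = c_α` by `S_Tau` (2), (4).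
(2) First `l = z^γ`, `γ i < q`: `tau (z^γ car a) = ∑_α TK^[e] (z^(q-1-α) a) tau (z^(α+γ)) = TK^[e] (z^γ a)` (`S_Tau` (4): only
`α = q - 1 - γ`). Then `l = φ (b) z^γ` (`S_Tau` (2), `iter_mul`), then sums (`Tw.span`, additivity). (3) additivity from the
definition (`iter_add`). (4) by (1) it is enough that `tau (m * car (l a)) = tau (m * (l * car a))` for all `m ∈ L`; both sides are
`TK^[e] (m l a)` by (2). -/
def S_Star : Prop := ∀ (k E L K : Type u) [Field k] [Field E] [Field L] [Field K] [Algebra k E]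
  [Algebra k L] [Algebra k K] [Algebra E L] [Algebra E K] [Algebra L K] [IsScalarTower k E L]
  [IsScalarTower k E K] [IsScalarTower k L K] [IsScalarTower E L K] [PerfectField k] (p : ℕ)
  [Fact p.Prime] [CharP k p] (e d : ℕ) (t : Tw k E L K p e d),
  (∀ y : L, y = ∑ α : Fin d → Fin (p ^ e),
    t.φ (t.tau ((∏ i, im E L t.z i ^ (p ^ e - 1 - (α i : ℕ))) * y)) *
      ∏ i, im E L t.z i ^ (α i : ℕ)) ∧
  (∀ (l : L) (a : K), t.tau (l * t.car a) = t.TK^[e] (algebraMap L K l * a)) ∧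
  (∀ a b, t.car (a + b) = t.car a + t.car b) ∧
  ∀ (l : L) (a : K), t.car (algebraMap L K l * a) = l * t.car a

/-- **TLT** (200 lines, uses `S_TrIt`, `S_Tau`). `tau` commutes with the traces.

Proof. By `pBasis_of` for `L` and the basis `(z, φ x)` (`Tw.bL`) and additivity it is enough to consider
`l = c ^ p * (z^δ * φ x ^ j)`, `c ∈ L`, `δ i < p`, `j < p`. `TL l = c * TL (z^δ φ x ^ j)`, and by `traceMonomial_of` and `Tw.nL`
`TL (z^δ φ x ^ j) = 1` if all `δ i = p - 1`, `j = p - 1`, and `0` otherwise. So the left side is `tau c = TK^[e] (x^(q-1) c)` or `0`.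
Right side: `TK (tau l) = TK^[e] (TK (c ^ p * (z^δ x^(q-1+q j)))) = TK^[e] (c * TK (z^δ x^(q(j+1)-1)))`, as `TK` commutes with `TK^[e]`,
the image of `φ x` in `K` is `x ^ q`. `q = p q'`, `q (j + 1) - 1 = (p - 1) + p (q' (j + 1) - 1)`, so (`map_pow_mul`, `traceMonomial_of`,
`Tw.nK`) `TK (z^δ x^(q(j+1)-1)) = x^(q'(j+1)-1)` if all `δ i = p - 1` and `0` otherwise. It remains: `TK^[e] (c x^(q'(j+1)-1))` is
`TK^[e] (c x^(q-1))` for `j = p - 1` (clear, `q' p = q`) and `0` for `j < p - 1`: `c = ∑ φ (b_γ) z^γ` (`Tw.span`), and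
`TK^[e] (b ^ q z^γ x^i) = 0` for `i < q - 1` by `S_TrIt`. -/
def S_TLT : Prop := ∀ (k E L K : Type u) [Field k] [Field E] [Field L] [Field K] [Algebra k E]
  [Algebra k L] [Algebra k K] [Algebra E L] [Algebra E K] [Algebra L K] [IsScalarTower k E L]
  [IsScalarTower k E K] [IsScalarTower k L K] [IsScalarTower E L K] [PerfectField k] (p : ℕ)
  [Fact p.Prime] [CharP k p] [Algebra.EssFiniteType k L] (e d : ℕ) (t : Tw k E L K p e d) (l : L),
  t.tau (t.TL l) = t.TK (t.tau l)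

/-- **TLC** (60 lines, uses `S_Star`, `S_TLT`). `car` commutes with the traces.

Proof. By `S_Star` (1) it is enough that `tau (l * TL (car a)) = tau (l * car (TK a))` for all `l ∈ L`.
`l * TL (car a) = TL (l ^ p * car a)`, so the left side is `TK (tau (l ^ p * car a)) = TK (TK^[e] (l ^ p * a))`
`= TK^[e] (TK (l ^ p * a)) = TK^[e] (l * TK a)` (`S_TLT`, `S_Star` (2)), which is the right side (`S_Star` (2)). -/
def S_TLC : Prop := ∀ (k E L K : Type u) [Field k] [Field E] [Field L] [Field K] [Algebra k E]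
  [Algebra k L] [Algebra k K] [Algebra E L] [Algebra E K] [Algebra L K] [IsScalarTower k E L]
  [IsScalarTower k E K] [IsScalarTower k L K] [IsScalarTower E L K] [PerfectField k] (p : ℕ)
  [Fact p.Prime] [CharP k p] [Algebra.EssFiniteType k L] (e d : ℕ) (t : Tw k E L K p e d) (a : K),
  t.TL (t.car a) = t.car (t.TK a)

/-! ### The lattices -/

/-- **MR** (120 lines, uses `S_TrIt`, `S_Star`, `S_TLC`). The lattice `MR O`.

Proof. `RegularAt 1 O F` iff `F = G J(X)`, `G ∈ O` (`regularAt_iff`). (1) `l * car F = car (l F)` (`S_Star` (4)), and `l F` is regular. (2)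
`TL (car F) = car (TK F)` (`S_TLC`) and `B.t_TraceLoc` with `s = 0`. (3) `tau (car F) = TK^[e] F` (`S_Star` (2) with `l = 1`), and
`B.t_TraceLoc` with `s = 0`, `e` times. (4) regular as `∏ X i ^ (q-1) ∈ O`; `tau (car (…)) = TK^[e] (X^(q-1) J(X)) = J(X) ≠ 0` (`S_TrIt`,
`psi_ne_zero`; `ΨK ≠ 0` because of `Tw.nK`), so it is not zero (`tau 0 = 0`). -/
def S_MR : Prop := ∀ (k E L K : Type u) [Field k] [Field E] [Field L] [Field K] [Algebra k E]
  [Algebra k L] [Algebra k K] [Algebra E L] [Algebra E K] [Algebra L K] [IsScalarTower k E L]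
  [IsScalarTower k E K] [IsScalarTower k L K] [IsScalarTower E L K] [PerfectField k] (p : ℕ)
  [Fact p.Prime] [CharP k p] [Algebra.EssFiniteType k L] [Algebra.EssFiniteType k K] (e d : ℕ)
  (t : Tw k E L K p e d) (O : Subring K) (X : Fin (d + 1) → K), IsCoord k O X →
  (∀ a : K, IsIntegral O a → a ∈ O) →
  (∀ l : L, algebraMap L K l ∈ O → ∀ y ∈ t.MR O, l * y ∈ t.MR O) ∧
  (∀ y ∈ t.MR O, t.TL y ∈ t.MR O) ∧ (∀ y ∈ t.MR O, RegularAt k t.ΨK 1 O (t.tau y)) ∧
  t.car ((∏ i, X i ^ (p ^ e - 1)) * jac t.ΨK X) ∈ t.MR O ∧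
  t.car ((∏ i, X i ^ (p ^ e - 1)) * jac t.ΨK X) ≠ 0

/-- **Cpp** (150 lines, uses `S_PbIt`, `S_Tau`, `S_MR`). The lattice `MR R` and coordinates of the base.

Proof. `J = jac ΨE w ≠ 0` (`psi_ne_zero`; `ΨE ≠ 0` by `Tw.nE`), `j = jac ΨK X ≠ 0`. Every element of `L` is `∑_β φ (a_β) w^β`,
`0 ≤ β i < q`: by `Tw.span` it is enough for `φ (c) z^α`, and `z^α ∈ E` is `∑ b_β ^ q w^β`, `b_β ∈ E` (`S_PbIt` for `E` and `w`;
`b_β ^ q = φ (b_β)`). Write `y / (J φ (j/J)) = ∑ φ (a_β) w^β`. `w^(q-1-β) y ∈ MR R` (`S_MR` (1), `w i ∈ R`), so `tau (w^(q-1-β) y)` is regular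
(`S_MR` (3)): it is in `R j` (`regularAt_iff`). It is equal to `∑_γ (j/J) a_γ tau (J w^(q-1-β+γ)) = (j/J) a_β J = j a_β`: the exponents
`δ = q - 1 - β + γ` are at most `2 q - 2`; split off `w i ^ q = φ (w i)` where `δ i ≥ q` as in the proof of `S_Tau` (4), and use `S_Tau` (3).
So `a_β ∈ R`, and `l = ∑ φ (a_β) w^β` has the image `∑ a_β ^ q w^β ∈ R`. -/
def S_Cpp : Prop := ∀ (k E L K : Type u) [Field k] [Field E] [Field L] [Field K] [Algebra k E]
  [Algebra k L] [Algebra k K] [Algebra E L] [Algebra E K] [Algebra L K] [IsScalarTower k E L]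
  [IsScalarTower k E K] [IsScalarTower k L K] [IsScalarTower E L K] [PerfectField k] (p : ℕ)
  [Fact p.Prime] [CharP k p] [Algebra.EssFiniteType k E] [Algebra.EssFiniteType k L]
  [Algebra.EssFiniteType k K] (e d : ℕ) (t : Tw k E L K p e d) (R : ValuationSubring K)
  (X : Fin (d + 1) → K), IsCoord k R.toSubring X → ∀ w : Fin d → E, IsDiffBasis k w →
  (∀ i, algebraMap E K (w i) ∈ R) → ∀ y ∈ t.MR R.toSubring, ∃ l : L, algebraMap L K l ∈ R ∧
    y = l * (algebraMap E L (jac t.ΨE w) *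
      t.φ (jac t.ΨK X / algebraMap E K (jac t.ΨE w)))

/-- **MRg** (150 lines, uses `S_MR`). The powers of the lattice.

Proof. `R' = {l : L | l ∈ R}` satisfies `l ∈ R'` or `l⁻¹ ∈ R'` for every `l` (`ValuationSubring.mem_or_inv_mem`). So for `μ, μ' ∈ L`
there is `c ∈ R'` with `μ = c μ'` or `μ' = c μ` (also if one of them is zero). (1) `F = l μ^m`, `F' = l' μ'^m'`; if `μ = c μ'` then
`F F' = (l l' c^m) μ'^(m+m')`, otherwise similar. (2) `F = l μ^(1 + p^e' σ)`; `TL^[e'] F = μ^σ * TL^[e'] (l μ)` (`IsFrobTrace.iter_mul`), and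
`μ'' = TL^[e'] (l μ) ∈ MR R` (`S_MR` (1), (2)). If `μ'' = c μ` then it is `c μ^(1+σ)`, if `μ = c μ''` it is `c^σ μ''^(1+σ)`. (3) clear. -/
def S_MRg : Prop := ∀ (k E L K : Type u) [Field k] [Field E] [Field L] [Field K] [Algebra k E]
  [Algebra k L] [Algebra k K] [Algebra E L] [Algebra E K] [Algebra L K] [IsScalarTower k E L]
  [IsScalarTower k E K] [IsScalarTower k L K] [IsScalarTower E L K] [PerfectField k] (p : ℕ)
  [Fact p.Prime] [CharP k p] [Algebra.EssFiniteType k L] [Algebra.EssFiniteType k K] (e d : ℕ)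
  (t : Tw k E L K p e d) (R : ValuationSubring K) (X : Fin (d + 1) → K),
  IsCoord k R.toSubring X →
  (∀ m m' F F', t.Reg m R.toSubring F → t.Reg m' R.toSubring F' →
    t.Reg (m + m') R.toSubring (F * F')) ∧
  (∀ e' σ F, t.Reg (1 + p ^ e' * σ) R.toSubring F → t.Reg (1 + σ) R.toSubring (t.TL^[e'] F)) ∧
  ∀ m l F, algebraMap L K l ∈ R → t.Reg m R.toSubring F → t.Reg m R.toSubring (l * F)

/-! ### The places over `E` -/

/-- **HCo** (200 lines, uses `S_TrIt`, `S_Der`, `S_DPhi`). Coordinates at the places of `L`.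

Proof. `j = jac ΨK (z, π) ≠ 0`. First the Jacobian: `D π = ∑ c_i D z_i + j D x` (`S_Der`), so by `S_DPhi` (1), (2) `D (φ π) = φ (j) D (φ x)` in
`Ω[L⁄k]`, and `jac ΨL (z, φ π) = φ j * jac ΨL (z, φ x) = φ j` (`Tw.nL`, linearity in the last entry). Basis: `IsDiffBasis k (z, φ π)` as
`D (φ π) = φ (j) D (φ x)`, `φ j ≠ 0` (`Tw.bL`; e.g. spanning and the number of elements). `mem`: `z i`, `φ π` have images `z i`, `π ^ q` in `V`.
`gen`: let `l ∈ L` with image in `V`, `l = ∑ φ (a_α) z^α` (`Tw.span`). CLAIM `a_α ∈ V`: `z^(q-1-α) π^(q-1) l ∈ V`, so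
`z^(q-1-α) π^(q-1) l j` is regular at `V` (`regularAt_iff`), so is its image under `TK^[e]` (`B.t_TraceLoc` with `s = 0`; valuation
subrings are integrally closed), which is `a_α j` by `S_TrIt` for the family `(z, π)` (split off `q`-th powers of the `z i` as in the
proof of `S_Tau` (4)). So `a_α ∈ V`. For `a ∈ V`: `D a = ∑ c_i D z_i + c D π` with `c_i, c ∈ V`, so `D (φ a) = φ (c) D (φ π)`, `φ c` has the
image `c ^ q ∈ V`. So `D l = ∑_α (z^α D (φ a_α) + φ (a_α) D (z^α))` is a combination of the `D z_i`, `D (φ π)` with coefficients in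
`V' = V ∩ L`. -/
def S_HCo : Prop := ∀ (k E L K : Type u) [Field k] [Field E] [Field L] [Field K] [Algebra k E]
  [Algebra k L] [Algebra k K] [Algebra E L] [Algebra E K] [Algebra L K] [IsScalarTower k E L]
  [IsScalarTower k E K] [IsScalarTower k L K] [IsScalarTower E L K] [PerfectField k] (p : ℕ)
  [Fact p.Prime] [CharP k p] [Algebra.EssFiniteType k K] (e d : ℕ) (t : Tw k E L K p e d)
  (V : ValuationSubring K) (π : K), IsCoord k V.toSubring (snc (im E K t.z) π) →
  IsCoord k (V.comap (algebraMap L K)).toSubring (snc (im E L t.z) (t.φ π)) ∧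
  jac t.ΨL (snc (im E L t.z) (t.φ π)) = t.φ (jac t.ΨK (snc (im E K t.z) π))

/-- **HMR** (100 lines, uses `S_TrIt`, `S_HCo`). Regular forms of `L` at a place with coordinates `(z, π)` are in the lattice.

Proof. `j = jac ΨK (z, π)`. `φ j = car (π^(q-1) j)`: in the definition of `car` the term `TK^[e] (z^(q-1-α) π^(q-1) j)` is `j` for `α = 0` and `0`
otherwise (`S_TrIt` for `(z, π)`). So `φ j ∈ MR V`. (1) by `regularAt_iff` and `S_HCo`: `F = l (φ j)^m`, `l ∈ V ∩ L`. (2) `φ (v j) = φ v * φ j`,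
the image of `φ v` is `v ^ q ∈ V`. -/
def S_HMR : Prop := ∀ (k E L K : Type u) [Field k] [Field E] [Field L] [Field K] [Algebra k E]
  [Algebra k L] [Algebra k K] [Algebra E L] [Algebra E K] [Algebra L K] [IsScalarTower k E L]
  [IsScalarTower k E K] [IsScalarTower k L K] [IsScalarTower E L K] [PerfectField k] (p : ℕ)
  [Fact p.Prime] [CharP k p] [Algebra.EssFiniteType k K] (e d : ℕ) (t : Tw k E L K p e d)
  (V : ValuationSubring K) (π : K), IsCoord k V.toSubring (snc (im E K t.z) π) →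
  (∀ m F, RegularAt k t.ΨL m (V.comap (algebraMap L K)).toSubring F → t.Reg m V.toSubring F) ∧
  ∀ v ∈ V, RegularAt k t.ΨL 1 (V.comap (algebraMap L K)).toSubring
    (t.φ (v * jac t.ΨK (snc (im E K t.z) π)))

/-- **PlL** (100 lines). The places of `L` over `k(u)` are the places of `K` over `E`.

Proof. (1) `V = V'.comap φ` (`{a | φ a ∈ V'}`). `l ∈ V ∩ L` iff `φ (image of l) = l ^ q ∈ V'` iff `l ∈ V'` (`φ (algebraMap L K l) = l ^ q` as the images
in `K` agree; valuation subrings are integrally closed). `E ⊆ V`: an element `a ∈ E` is algebraic over `k(u)` (hypothesis), so its image in `L`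
is integral over the field `k(u) ⊆ V'`, so it is in `V'`, and `φ a = a ^ q ∈ V'`. `V ≠ ⊤`: otherwise `V' = V ∩ L = ⊤`. (2) `k(u) ⊆ V`, and `V ∩ L ≠ ⊤`:
otherwise `a ^ q ∈ V` for all `a ∈ K`, so `V = ⊤`. -/
def S_PlL : Prop := ∀ (k E L K : Type u) [Field k] [Field E] [Field L] [Field K] [Algebra k E]
  [Algebra k L] [Algebra k K] [Algebra E L] [Algebra E K] [Algebra L K] [IsScalarTower k E L]
  [IsScalarTower k E K] [IsScalarTower k L K] [IsScalarTower E L K] (p : ℕ) [Fact p.Prime]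
  [CharP k p] (e d : ℕ) (_ : Tw k E L K p e d) (u : Fin d → E),
  Algebra.IsAlgebraic (IntermediateField.adjoin k (Set.range u)) E →
  (∀ V' : Pl (E0 k L u), ∃ V : ValuationSubring K, (∀ a : E, algebraMap E K a ∈ V) ∧ V ≠ ⊤ ∧
    V.comap (algebraMap L K) = V'.1) ∧
  ∀ V : ValuationSubring K, (∀ a : E, algebraMap E K a ∈ V) → V ≠ ⊤ →
    ∃ V' : Pl (E0 k L u), V'.1 = V.comap (algebraMap L K)

/-! ### The base -/

/-- **Dat** (60 lines). Coordinates of the base below a valuation ring.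

Proof. `R ∩ E = R.comap (algebraMap E K)` contains `k`, so it contains some `O ∈ 𝒪Z` (`complete`); `w` coordinates at `O`; `regularAt_iff`:
`s = g * jac ΨE w ^ m`, `g ∈ O`; `jac ΨE w ≠ 0` (`psi_ne_zero`). -/
def S_Dat : Prop := ∀ (k E K : Type u) [Field k] [Field E] [Field K] [Algebra k E] [Algebra k K]
  [Algebra E K] [IsScalarTower k E K] (d : ℕ) (ΨE : Ω[E⁄k] [⋀^Fin d]→ₗ[E] E)
  (𝒪Z : Set (Subring E)), ΨE ≠ 0 → IsSmoothModel k d 𝒪Z → ∀ R : ValuationSubring K,
  (∀ c : k, algebraMap k K c ∈ R) → ∃ w : Fin d → E, ZDat ΨE 𝒪Z R w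

/-- **Ufr** (120 lines). Sections of `r K_Z` with independent quotients.

Proof. `E` is algebraic over `ratioField k V`, `V` the set of sections, so the transcendence degree of `ratioField k V` over `k` is that of
`E`, which is `d` (`card_transcendenceBasis` in `Main.lean`, `sepExists_of`). `B.t_Choose` gives `s`, `u` with `u` algebraically independent.
A family of `d` algebraically independent elements is a transcendence basis
(`AlgebraicIndependent.isTranscendenceBasis_of…`, see `B/Fg.lean`), so `E` is algebraic over `k(u)`. -/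
def S_Ufr : Prop := ∀ (k E : Type u) [Field k] [Field E] [Algebra k E] [PerfectField k]
  [Algebra.EssFiniteType k E] (d : ℕ) (x : Fin d → E), 1 ≤ d → IsDiffBasis k x → ∀ V : Set E,
  GenericallyFinite k V → ∃ (s : E) (u : Fin d → E), s ≠ 0 ∧ s ∈ V ∧ (∀ i, u i * s ∈ V) ∧
    AlgebraicIndependent k u ∧ Algebra.IsAlgebraic (IntermediateField.adjoin k (Set.range u)) E

/-- **Fam** (120 lines). A finite family of bounded poles that spans `E` over `k(u)`.

Proof. `E` is finite over `k(u)` (algebraic and essentially of finite type: `Algebra.finite_of_essFiniteType_of_isAlgebraic`, see `B/Fg.lean`); let `a_1, …, a_M`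
be a basis. `integralSections_of`: `g_j ∈ k[u]`, `g_j ≠ 0`, `N_j` with `g_j a_j s^N_j ∈ sections (N_j r)`. `y_j = g_j a_j`, `b₁ = ∑ N_j`;
multiply by `s ^ (b₁ - N_j)` (`sections_mul`, `sections_pow`). -/
def S_Fam : Prop := ∀ (k E : Type u) [Field k] [Field E] [Algebra k E] [PerfectField k]
  [Algebra.EssFiniteType k E] (d : ℕ) (ΨE : Ω[E⁄k] [⋀^Fin d]→ₗ[E] E) (𝒪Z : Set (Subring E)),
  ΨE ≠ 0 → IsSmoothModel k d 𝒪Z → ∀ (r : ℕ) (u : Fin d → E) (s : E), s ≠ 0 →
  s ∈ sections k ΨE 𝒪Z r → (∀ i, u i * s ∈ sections k ΨE 𝒪Z r) →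
  Algebra.IsAlgebraic (IntermediateField.adjoin k (Set.range u)) E →
  ∃ (M : ℕ) (y : Fin M → E) (b₁ : ℕ), (∀ j, y j * s ^ b₁ ∈ sections k ΨE 𝒪Z (b₁ * r)) ∧
    ∀ a : E, ∃ c : Fin M → IntermediateField.adjoin k (Set.range u), a = ∑ j, (c j : E) * y j

/-! ### The filtration -/

/-- **SecA** (200 lines, uses `S_MRg`). The filtration `ASp` and the trace (the hypotheses of `B.S_Slope`).

Proof. For `R ∈ 𝒪X` there are coordinates (`IsSmoothModel.coord`), so `S_MRg` applies. Put `g_R = s / J_R^r`, `J_R = jac ΨE (W R)`; `g_R ∈ R` and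
`u i * g_R = (u i s)/J_R^r ∈ R` by `ZDat`. (1) `g_R^b' F = g_R^(b'-b) (g_R^b F)`, `S_MRg` (3); `Submodule.span_mono`. (2) `F ∈ Sec m b`,
`F' ∈ Sec m' b'` imply `F F' ∈ Sec (m+m') (b+b')` (`G.W_mul`, `S_MRg` (1)); `Submodule.span_induction` twice. (3) by `span_induction` and
`IsFrobTrace.iter_add` it is enough that `TL^[e'] (ε F) ∈ ASp (1+σ) b` for `ε ∈ k(u)`, `F ∈ Sec (1+p^e'σ) a`, and by `B.t_MonoSpan` for
`ε = u^α`, `α i < p ^ e'`. `|α| = ∑ α i ≤ d (p^e' - 1)`, so `a + |α| ≤ p^e' b`. `TL^[e'] (u^α F) ∈ Sec (1+σ) b`: it is in `G.W (1+σ)` (`u^α F ∈ G.W (1+p^e'σ)` as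
`W` is a `k(u)`-space, `G.iter_reg`), and `g_R^b TL^[e'] (u^α F) = TL^[e'] (g_R^(p^e' b) u^α F)` (`iter_mul`),
`g_R^(p^e' b) u^α F = g_R^(p^e' b - a - |α|) ∏ (u i g_R)^(α i) (g_R^a F)`; `S_MRg` (3), (2). -/
def S_SecA : Prop := ∀ (k E L K : Type u) [Field k] [Field E] [Field L] [Field K] [Algebra k E]
  [Algebra k L] [Algebra k K] [Algebra E L] [Algebra E K] [Algebra L K] [IsScalarTower k E L]
  [IsScalarTower k E K] [IsScalarTower k L K] [IsScalarTower E L K] [PerfectField k] (p : ℕ)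
  [Fact p.Prime] [CharP k p] [Algebra.EssFiniteType k L] [Algebra.EssFiniteType k K] (e d : ℕ)
  (t : Tw k E L K p e d) (u : Fin d → E) (G : Curve (E0 k L u) L p (Pl (E0 k L u)))
  (𝒪Z : Set (Subring E)) (𝒪X : Set (Subring K)) (W : ValuationSubring K → Fin d → E) (s : E)
  (r : ℕ), IsSmoothModel k (d + 1) 𝒪X →
  (∀ R : ValuationSubring K, R.toSubring ∈ 𝒪X → ZDat t.ΨE 𝒪Z R (W R)) →
  s ∈ sections k t.ΨE 𝒪Z r → (∀ i, u i * s ∈ sections k t.ΨE 𝒪Z r) → G.T = t.TL →
  (∀ m b b', b ≤ b' → ASp t u G 𝒪X W s r m b ≤ ASp t u G 𝒪X W s r m b') ∧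
  (∀ m m' b b' x y, x ∈ ASp t u G 𝒪X W s r m b → y ∈ ASp t u G 𝒪X W s r m' b' →
    x * y ∈ ASp t u G 𝒪X W s r (m + m') (b + b')) ∧
  ∀ e' σ a b x, x ∈ ASp t u G 𝒪X W s r (1 + p ^ e' * σ) a → a + d * (p ^ e' - 1) ≤ p ^ e' * b →
    t.TL^[e'] x ∈ ASp t u G 𝒪X W s r (1 + σ) b

/-- **SecP** (300 lines, uses `S_MR`, `S_MRg`, `S_HMR`, `S_PlL`). Poles (compare `B/Poles.lean`).

Proof. Let `X_1, …, X_N` be the coordinate systems of `HasDivisors.finCoord`, `μ_j = car ((∏ X_j i ^ (q-1)) J(X_j)) ≠ 0`, `μ_j ∈ MR R` for all `R ∈ 𝒪X` with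
coordinates `X_j` (`S_MR` (4); valuation rings are integrally closed), `a_j = x / μ_j^m ∈ L`. BAD = the set of the valuation rings `R ∈ 𝒪X` such that
`Reg m R x` is false: if `R` has coordinates `X_j` then `a_j ∉ R` (otherwise `x = a_j μ_j^m`), so BAD is finite (`HasDivisors.finite`). If `R ∈ 𝒪X` contains
`E` then `R` is not in BAD: if `R = ⊤` then `a_j ∈ R`; otherwise there is `V' ∈ Pl` with `V'.1 = R ∩ L` (`S_PlL` (2)), `x` is regular there (`x ∈ G.W m` and `hreg`),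
and `S_HMR` (1) with the hypothesis on the places gives `Reg m R x`. Let `R ∈ BAD`, `g_R = s / J_R^r ∈ R`, `g_R ≠ 0`. CLAIM: there is `f_R ∈ k[u]`, `f_R ≠ 0`, such
that: if all `u i ∈ R` then `f_R⁻¹ ∉ R`. If some `u i ∉ R` take `f_R = 1`. Otherwise, if all nonzero `f ∈ k[u]` had `f⁻¹ ∈ R`, then `k(u) ⊆ R`
(`IntermediateField.mem_adjoin_range_iff`), so `E ⊆ R` (`E` is algebraic over `k(u)`, `R` is integrally closed), impossible for `R ∈ BAD`.
By `HasDivisors.arch` there is `M_R` with: if `g_R⁻¹ ∉ R` then `g_R^M a_j ∈ R` for `M ≥ M_R`; if `f_R⁻¹ ∉ R` (and `f_R ∈ R`) then `f_R^M a_j ∈ R` for `M ≥ M_R`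
(`j` with coordinates `X_j` at `R`). Let `M` be the maximum of the `M_R`, `f = ∏_{R ∈ BAD} f_R^M`, `D` a number with `f s^D ∈ sections (D r)` (`B.t_PolySec` for `Z`), so
`g_R^D f = (f s^D)/J_R^(D r) ∈ R` for all `R ∈ 𝒪X` (`ZDat`). Claim `f x ∈ Sec m (D + M)`: `f x ∈ G.W m` (a `k(u)`-space). `g_R^(D+M) f x`: if `R ∉ BAD`:
`g_R^M (g_R^D f) x`, `S_MRg` (3). If `R ∈ BAD` and `g_R⁻¹ ∉ R`: `(g_R^D f) (g_R^M a_j) μ_j^m`. If `R ∈ BAD` and `g_R⁻¹ ∈ R`: all `u i = (u i g_R)/g_R ∈ R`, so `k[u] ⊆ R`,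
`f a_j = (∏_{R' ≠ R} f_{R'}^M) (f_R^M a_j) ∈ R`. Finally `x = f⁻¹ (f x) ∈ ASp m (D + M)`. -/
def S_SecP : Prop := ∀ (k E L K : Type u) [Field k] [Field E] [Field L] [Field K] [Algebra k E]
  [Algebra k L] [Algebra k K] [Algebra E L] [Algebra E K] [Algebra L K] [IsScalarTower k E L]
  [IsScalarTower k E K] [IsScalarTower k L K] [IsScalarTower E L K] [PerfectField k] (p : ℕ)
  [Fact p.Prime] [CharP k p] [Algebra.EssFiniteType k L] [Algebra.EssFiniteType k K] (e d : ℕ)
  (t : Tw k E L K p e d) (u : Fin d → E) (G : Curve (E0 k L u) L p (Pl (E0 k L u)))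
  (𝒪Z : Set (Subring E)) (𝒪X : Set (Subring K)) (W : ValuationSubring K → Fin d → E) (s : E)
  (r : ℕ), IsSmoothModel k d 𝒪Z → IsSmoothModel k (d + 1) 𝒪X → HasDivisors k (d + 1) 𝒪X →
  (∀ R : ValuationSubring K, R.toSubring ∈ 𝒪X → ZDat t.ΨE 𝒪Z R (W R)) → s ≠ 0 →
  s ∈ sections k t.ΨE 𝒪Z r → (∀ i, u i * s ∈ sections k t.ΨE 𝒪Z r) →
  Algebra.IsAlgebraic (IntermediateField.adjoin k (Set.range u)) E →
  (∀ V m F, RegularAt k t.ΨL m V.1.toSubring F ↔ G.Ge V (m * G.c V) F) →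
  (∀ V : ValuationSubring K, (∀ a : E, algebraMap E K a ∈ V) → V ≠ ⊤ →
    ∃ π, IsCoord k V.toSubring (snc (im E K t.z) π)) →
  ∀ m x, x ∈ G.W m → ∃ b, x ∈ ASp t u G 𝒪X W s r m b

/-- **SecG** (60 lines). From the span to the generators.

Proof. As in `B/GenFin.lean`: if all quotients `F / F'` of elements `F`, `F' ≠ 0` of `Sec m b` are algebraic over `k(u)`, then `φ₀`, `φ₁` are sums of `ε F`, so
`φ₀ / F`, `φ₁ / F` are algebraic for some nonzero `F ∈ Sec`, and `φ₁ / φ₀` is algebraic. -/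
def S_SecG : Prop := ∀ (k L : Type u) [Field k] [Field L] [Algebra k L] (E' : IntermediateField k L)
  (S : Set L) (φ₀ φ₁ : L), φ₀ ∈ Submodule.span E' S → φ₁ ∈ Submodule.span E' S →
  Transcendental E' (φ₁ / φ₀) → ∃ F ∈ S, ∃ F' ∈ S, F' ≠ 0 ∧ Transcendental E' (F / F')

/-! ### The descent -/

/-- **DsL** (180 lines, uses `S_Tau`, `S_MR`, `S_Cpp`). The descent at one divisor.

Proof. `J = jac ΨE w ≠ 0`, `j = jac ΨK X ≠ 0`, `g ≠ 0`. `g^b F = l μ^(1+rc)` (`Reg`), `μ = l₁ J φ(j/J)` (`S_Cpp`), `l, l₁ ∈ R ∩ L`. So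
`(a/s^c) F = (g^N' a) g^(-N'-b) s^(-c) l l₁^(rc) J^(rc) φ((j/J)^(rc)) μ`, and `s^(-c) J^(rc) = g^(-c)`. With `n' = N q - (b + c + N') ≥ 0` this is
`l₂ φ (g^(-N) (j/J)^(rc)) μ`, `l₂ = (g^N' a) g^n' l l₁^(rc) ∈ R ∩ L` (`φ (algebraMap E K g) = algebraMap E L g ^ q`: the images in `K` agree). By `S_Tau` (2)
`tau ((a/s^c) F) = g^(-N) (j/J)^(rc) tau (l₂ μ)`, and `tau (l₂ μ) = v j` with `v ∈ R` (`S_MR` (1), (3), `regularAt_iff`). Multiply by
`s^c = g^c J^(rc)`: `g^(c-N) v j^(1+rc)`; `Y' = v j^(1+rc)`. -/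
def S_DsL : Prop := ∀ (k E L K : Type u) [Field k] [Field E] [Field L] [Field K] [Algebra k E]
  [Algebra k L] [Algebra k K] [Algebra E L] [Algebra E K] [Algebra L K] [IsScalarTower k E L]
  [IsScalarTower k E K] [IsScalarTower k L K] [IsScalarTower E L K] [PerfectField k] (p : ℕ)
  [Fact p.Prime] [CharP k p] [Algebra.EssFiniteType k E] [Algebra.EssFiniteType k L]
  [Algebra.EssFiniteType k K] (e d : ℕ) (t : Tw k E L K p e d) (R : ValuationSubring K)
  (X : Fin (d + 1) → K), IsCoord k R.toSubring X → ∀ w : Fin d → E, IsDiffBasis k w →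
  (∀ i, algebraMap E K (w i) ∈ R) → ∀ (r c b N N' : ℕ) (s g a : E) (F : L), s ≠ 0 →
  s = g * jac t.ΨE w ^ r → algebraMap E K g ∈ R → algebraMap E K (g ^ N' * a) ∈ R →
  t.Reg (1 + r * c) R.toSubring (algebraMap E L g ^ b * F) → b + c + N' ≤ N * p ^ e → N ≤ c →
  ∃ Y', RegularAt k t.ΨK (1 + r * c) R.toSubring Y' ∧
    algebraMap E K (s ^ c) * t.tau (algebraMap E L (a / s ^ c) * F) =
      algebraMap E K (g ^ (c - N)) * Y'

/-- **Hrt** (50 lines). A form is regular if it is regular along all divisors.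

Proof. Let `O ∈ 𝒪` with coordinates `x`, `J = Ψ (D x) ≠ 0`. `F / J^m ∈ O` by `HasDivisors.hartogs`: for `V ∈ 𝒪` with `Loc O V`, `x` are coordinates at `V`
(`B.t_LocCoord`), so `F / J^m ∈ V` (`regularAt_iff`). -/
def S_Hrt : Prop := ∀ (k K : Type u) [Field k] [Field K] [Algebra k K] (n : ℕ)
  (Ψ : Ω[K⁄k] [⋀^Fin n]→ₗ[K] K) (𝒪 : Set (Subring K)), Ψ ≠ 0 → IsSmoothModel k n 𝒪 →
  HasDivisors k n 𝒪 → ∀ (m : ℕ) (F : K),
  (∀ R : ValuationSubring K, R.toSubring ∈ 𝒪 → RegularAt k Ψ m R.toSubring F) →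
  F ∈ sections k Ψ 𝒪 m

/-- **DsG** (150 lines, uses `S_DsL`, `S_Hrt`). The descended forms are sections.

Proof. `S_Hrt` (`ΨK ≠ 0` by `Tw.nK`). Let `R ∈ 𝒪X`, `w = W R`, `J = jac ΨE w`, `g = s/J^r ∈ R`, `g_i = (u i s)/J^r = u i g ∈ R`, `(y s^b₁)/J^(r b₁) = y g^b₁ ∈ R` (`ZDat`). `S_DsL` for
`c = d + 2`, `N = d + 1`, `b = (d+1) m`, `N' = |α| + b₁`, `a = u^α y`: `g^N' a = ∏ (u i g)^(α i) (y g^b₁) ∈ R`, and `b + c + N' ≤ (d + 1) q` because `|α| ≤ d (q - 1)` and by
hypothesis `b + c + b₁ ≤ q`. So `Y = g Y'`, and `u i Y = (u i g) Y'`, with `Y'` regular of weight `m`: multiples by elements of `R` of a regular form are regular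
(`regularAt_iff` or the definition). -/
def S_DsG : Prop := ∀ (k E L K : Type u) [Field k] [Field E] [Field L] [Field K] [Algebra k E]
  [Algebra k L] [Algebra k K] [Algebra E L] [Algebra E K] [Algebra L K] [IsScalarTower k E L]
  [IsScalarTower k E K] [IsScalarTower k L K] [IsScalarTower E L K] [PerfectField k] (p : ℕ)
  [Fact p.Prime] [CharP k p] [Algebra.EssFiniteType k E] [Algebra.EssFiniteType k L]
  [Algebra.EssFiniteType k K] (e d : ℕ) (t : Tw k E L K p e d) (u : Fin d → E)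
  (G : Curve (E0 k L u) L p (Pl (E0 k L u))) (𝒪Z : Set (Subring E)) (𝒪X : Set (Subring K))
  (W : ValuationSubring K → Fin d → E) (s : E) (r : ℕ), IsSmoothModel k (d + 1) 𝒪X →
  HasDivisors k (d + 1) 𝒪X →
  (∀ R : ValuationSubring K, R.toSubring ∈ 𝒪X → ZDat t.ΨE 𝒪Z R (W R)) → s ≠ 0 →
  s ∈ sections k t.ΨE 𝒪Z r → (∀ i, u i * s ∈ sections k t.ΨE 𝒪Z r) →
  ∀ (y : E) (b₁ : ℕ), y * s ^ b₁ ∈ sections k t.ΨE 𝒪Z (b₁ * r) → ∀ α : Fin d → ℕ,
  (∀ i, α i < p ^ e) → (d + 1) * (1 + r * (d + 2)) + (d + 2) + b₁ ≤ p ^ e →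
  ∀ F ∈ Sec t u G 𝒪X W s r (1 + r * (d + 2)) ((d + 1) * (1 + r * (d + 2))),
  algebraMap E K (s ^ (d + 2)) *
      t.tau (algebraMap E L ((∏ i, u i ^ α i) * y / s ^ (d + 2)) * F) ∈
    sections k t.ΨK 𝒪X (1 + r * (d + 2)) ∧
  ∀ i, algebraMap E K (u i) * (algebraMap E K (s ^ (d + 2)) *
      t.tau (algebraMap E L ((∏ i, u i ^ α i) * y / s ^ (d + 2)) * F)) ∈
    sections k t.ΨK 𝒪X (1 + r * (d + 2))

/-- **Ndg** (250 lines, uses `S_Tau`, `S_Star`). The descended forms define a generically finite map.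

Proof. Write `Y(H, j, α)` for the elements of the hypothesis (`H ∈ {F, F'}`). `𝔽 = ratioField k V`, `𝔽' ⊆ K` the algebraic closure of `𝔽` in `K` (a subfield; `algebraicClosure 𝔽 K`).
(1) For `H ∈ {F, F'}` and `a ∈ E` the element `tau (a H)` is in the `k(u)`-span (`k(u) ⊆ K`) of the `s^(-c₀) Y(H, j, α)`: `a s^c₀ = ∑ c_j y_j`, `c_j ∈ k(u)`, so `tau (a H) = ∑_j TK^[e] (c_j θ_j)` with
`θ_j = x^(q-1) y_j s^(-c₀) H ∈ K`; apply `B.t_MonoSpan` for `K`, `TK`, the family `im E K u` and the span `W`; `TK^[e] (u^α θ_j) = s^(-c₀) Y(H, j, α)`.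
(2) Some `Y₀ = Y(H, j, α)` is not zero: otherwise `tau (a F') = 0` for all `a ∈ E`, and `S_Star` (1) gives `F' = 0`. `Y₀ ∈ V`, so `u i = (u i Y₀)/Y₀ ∈ 𝔽`: `k(u) ⊆ 𝔽`, and `E ⊆ 𝔽'` as `E` is spanned by finitely many
elements over `k(u)`, so algebraic. All `Y/Y₀` are in `𝔽`. So `tau (a H)/Y₀ ∈ 𝔽'` by (1) (`s ∈ E ⊆ 𝔽'`).
(3) `S_Star` (1): the image of `H` in `K` is `∑ f_α^q z^α`, `f_α = tau (z^(q-1-α) H) ∈ 𝔽' Y₀`; so it is in `𝔽' Y₀^q`. So the image of `F/F'` in `K` is in `𝔽'`. It is transcendental over `k(u) ⊆ K` (`L → K` is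
injective and maps `k(u) ⊆ L` onto `k(u) ⊆ K`). `B.t_Fg` for `K` (basis `Tw.bK`) and the algebraically independent family `im E K u`: `K` is finite over `k(u)(F/F')`, so `K` is algebraic over `𝔽'` and over `𝔽`. -/
def S_Ndg : Prop := ∀ (k E L K : Type u) [Field k] [Field E] [Field L] [Field K] [Algebra k E]
  [Algebra k L] [Algebra k K] [Algebra E L] [Algebra E K] [Algebra L K] [IsScalarTower k E L]
  [IsScalarTower k E K] [IsScalarTower k L K] [IsScalarTower E L K] [PerfectField k] (p : ℕ)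
  [Fact p.Prime] [CharP k p] [Algebra.EssFiniteType k K] (e d : ℕ) (t : Tw k E L K p e d)
  (u : Fin d → E), AlgebraicIndependent k u → ∀ (M : ℕ) (y : Fin M → E) (s : E), s ≠ 0 →
  (∀ a : E, ∃ c : Fin M → IntermediateField.adjoin k (Set.range u), a = ∑ j, (c j : E) * y j) →
  ∀ (c₀ : ℕ) (F F' : L), F' ≠ 0 → Transcendental (E0 k L u) (F / F') → ∀ V : Set K,
  (∀ H : L, H = F ∨ H = F' → ∀ (j : Fin M) (α : Fin d → ℕ), (∀ i, α i < p ^ e) →
    algebraMap E K (s ^ c₀) *
      t.tau (algebraMap E L ((∏ i, u i ^ α i) * y j / s ^ c₀) * H) ∈ V ∧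
    ∀ i, algebraMap E K (u i) * (algebraMap E K (s ^ c₀) *
      t.tau (algebraMap E L ((∏ i, u i ^ α i) * y j / s ^ c₀) * H)) ∈ V) →
  GenericallyFinite k V

/-! ### Differentials of the generic fibre -/

/-- **The** (150 lines, uses `S_JE`, `S_Der`). The coefficients of two regular differentials.

Proof. `∂ a = jac ΨK (z, a)` is a derivation `K → K` over `k` (`ΨK` in the last argument is linear, composed with `D`), and it vanishes on `E` (`S_JE` (2)), so it is an
`E`-derivation; let `λ : Ω[K⁄E] → K` be the `K`-linear map with `λ (D a) = ∂ a` (`Derivation.liftKaehlerDifferential`). `D_E a = ∂ a • D_E x` in `Ω[K⁄E]`: map the relation of `S_Der` to `Ω[K⁄E]`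
(`KaehlerDifferential.map k E K K`; `D_E (z i) = 0`). So `ω = λ ω • D_E x` for all `ω ∈ Ω[K⁄E]` (the `D a` span) and `λ` is injective. `θ_i = λ ω_i`: `θ₀ ≠ 0`,
`θ₁ = c θ₀`. Let `V`, `π` be given, `j = jac ΨK (z, π)`. For `b ∈ V`: `D b = ∑ c_i D z_i + c' D π` with `c' ∈ V` (`IsCoord.gen`), so `∂ b = c' j` (`Fin.sum_univ_castSucc`, repeated entries). So
`λ (a • D b) = a c' j ∈ V j` for `a, b ∈ V`, and `λ ω ∈ V j` for `ω ∈ regDiff E V` (`AddSubgroup.closure_induction`). -/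
def S_The : Prop := ∀ (k E K : Type u) [Field k] [Field E] [Field K] [Algebra k E] [Algebra k K]
  [Algebra E K] [IsScalarTower k E K] (d : ℕ) (ΨE : Ω[E⁄k] [⋀^Fin d]→ₗ[E] E)
  (ΨK : Ω[K⁄k] [⋀^Fin (d + 1)]→ₗ[K] K) (z : Fin d → E) (x : K), IsDiffBasis k z →
  jac ΨE z = 1 → IsDiffBasis k (snc (im E K z) x) → jac ΨK (snc (im E K z) x) = 1 →
  TwoForms E K → ∃ θ₀ θ₁ : K, θ₀ ≠ 0 ∧ Transcendental E (θ₁ / θ₀) ∧
    ∀ V : ValuationSubring K, (∀ a : E, algebraMap E K a ∈ V) → ∀ π : K,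
      IsCoord k V.toSubring (snc (im E K z) π) →
      (∃ v ∈ V, θ₀ = v * jac ΨK (snc (im E K z) π)) ∧
      ∃ v ∈ V, θ₁ = v * jac ΨK (snc (im E K z) π)

/-- **Scl** (60 lines). Generic finiteness does not depend on the reference form.

Proof. `RegularAt k (c • Ψ) m O F` iff `RegularAt k Ψ m O (F / c^m)` (from the definition: `F = G (c Ψ θ)^m`). So `sections k (c • Ψ) 𝒪 m = c^m * sections k Ψ 𝒪 m`,
and the quotients are the same: the `ratioField` is the same. -/
def S_Scl : Prop := ∀ (k K : Type u) [Field k] [Field K] [Algebra k K] (n : ℕ)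
  (Ψ : Ω[K⁄k] [⋀^Fin n]→ₗ[K] K) (𝒪 : Set (Subring K)) (m : ℕ) (c : K), c ≠ 0 →
  GenericallyFinite k (sections k (c • Ψ) 𝒪 m) → GenericallyFinite k (sections k Ψ 𝒪 m)

/-! ### Schemes -/

/-- **FFc** (60 lines). The map of the function fields is compatible with the ground field.

Proof. `toFunctionField` is the composite `k → Γ(X, ⊤) → stalk at the generic point`; `f ≫ gZ = gX`; `Scheme.Hom.germ_stalkMap`, `germ_stalkSpecializes`,
`Scheme.Hom.comp_appTop`. (Or compare the morphisms `Spec K → Spec k`, see `sc_generic` in `SchemeComplete.lean`, `Scheme.SpecMap_stalkMap_fromSpecStalk`,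
`Scheme.SpecMap_stalkSpecializes_fromSpecStalk`.) -/
def S_FFc : Prop := ∀ (k : Type u) [Field k] (X Z : Scheme.{u}) [IsIntegral X] [IsIntegral Z]
  (gX : X ⟶ Spec (.of k)) (gZ : Z ⟶ Spec (.of k)) (f : X ⟶ Z) (_ : f ≫ gZ = gX)
  (h : f (genericPoint X) = genericPoint Z),
  (ffm f h).comp (toFunctionField gZ) = toFunctionField gX

/-- **Ctr** (100 lines). Local rings and the map of the function fields.

Proof. (1) `a` is the image of `b` in the stalk of `Z` at `f x`; the image of `b` under `f.stalkMap x` maps to `ffm f h a` in the function field of `X`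
(`Scheme.Hom.stalkSpecializes_stalkMap` for `genericPoint X ⤳ x`). (2) The homomorphism of stalks `f.stalkMap x` is local. Let `b` be a nonzero element of the stalk `S` at
`f x`, `a ∈ Z.functionField` its image; `ffm (a⁻¹) ∈ localRing X x` by hypothesis, so the image of `b` in the stalk at `x` is a unit, so `b` is a unit: `S` is a field. So the
spectrum of `S` has one point, and by `Scheme.range_fromSpecStalk` `{y | y ⤳ f x}` (the range of `Z.fromSpecStalk (f x)`) has one element; it contains `f x` and the generic point. -/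
def S_Ctr : Prop := ∀ (X Z : Scheme.{u}) [IsIntegral X] [IsIntegral Z] (f : X ⟶ Z)
  (h : f (genericPoint X) = genericPoint Z) (x : X),
  (∀ a ∈ localRing Z (f x), ffm f h a ∈ localRing X x) ∧
  ((∀ a, ffm f h a ∈ localRing X x) → f x = genericPoint Z)

/-- **Rk1** (200 lines). Local rings of curves over `E`.

Proof. `m = {b ∈ O | b = 0 or b⁻¹ ∉ V}` is the set of the nonunits of `O` (if `b⁻¹ ∈ V` then `b⁻¹ ∈ O`), closed under addition because `O ≤ V` and the nonunits of `V` are; so `O` is a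
local ring. If `m = 0` then `O` is a field, so `O = K` (fractions), `V = ⊤`: excluded. CLAIM: a nonzero prime ideal `P` of `O` is `m`. Let `0 ≠ y ∈ P`. `y` is transcendental over `E`: otherwise `y⁻¹` is a
polynomial in `y` over `E`, so in `O`. Let `a ∈ m`, `a ∉ P`. `a` is algebraic over `E(y)`: there is `Q ∈ E[Y][A]`, `Q ≠ 0`, `Q(y, a) = 0`, and we may assume that `Y` does not divide all
coefficients (`y ≠ 0`). Modulo `P`: `∑ e_i a^i ∈ P` with `e_i ∈ E` not all zero; divide by the lowest power of `a` (`P` prime, `a ∉ P`): `e + a a' ∈ P ⊆ m` with `e ∈ E^×`, `a' ∈ O`, so `e ∈ m`: contradiction to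
`e⁻¹ ∈ E ⊆ O`. So `O` is a noetherian local domain, integrally closed (in its fraction field `K`), with a unique nonzero prime: a discrete valuation ring (`IsDiscreteValuationRing.TFAE` or
`IsDedekindDomain` + local), so for `b ∈ K` `b ∈ O` or `b⁻¹ ∈ O`. Let `b ∈ V`. If `b ∉ O` then `b⁻¹ ∈ O`, and `(b⁻¹)⁻¹ = b ∈ V`, so `b ∈ O`. -/
def S_Rk1 : Prop := ∀ (E K : Type u) [Field E] [Field K] [Algebra E K],
  (∀ y : K, Transcendental E y → Algebra.IsAlgebraic (IntermediateField.adjoin E {y}) K) →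
  ∀ (O : Subring K) (V : ValuationSubring K), IsNoetherianRing O → (∀ a : E, algebraMap E K a ∈ O) →
  (∀ a : K, ∃ b ∈ O, ∃ c ∈ O, c ≠ 0 ∧ a = b / c) → (∀ a : K, IsIntegral O a → a ∈ O) →
  O ≤ V.toSubring → (∀ b ∈ O, b⁻¹ ∈ V → b⁻¹ ∈ O) → V ≠ ⊤ → V.toSubring = O

/-- **HDv** (200 lines, uses `S_FFc`, `S_Ctr`, `S_Rk1`). The places over `E` are local rings of `X`.

Proof. `k ⊆ V` (`S_FFc`). `schemeComplete_of`: `x` with `localRing X x ≤ V`. Let `U ∋ x` be an affine open set, `A = Γ(X, U)`, so `A ⊆ localRing X x ≤ V` in `K`; `P` = the set of `a ∈ A` that are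
`0` or nonunits of `V`, a prime ideal; `x' ∈ U` its point, so `localRing X x' = {a/b | a ∈ A, b ∈ A, b ∉ P}` (see the proofs in `B/SchemeHartogs.lean`, `SchemeCoord.lean`); it is
contained in `V`, and `c ∈ localRing X x'`, `c⁻¹ ∈ V` implies `c⁻¹ ∈ localRing X x'`. `E ⊆ localRing X x'`: for `0 ≠ a ∈ localRing Z (f x')`, `ffm a ∈ localRing X x'` (`S_Ctr` (1)) and
`(ffm a)⁻¹ = ffm (a⁻¹) ∈ V`, so `(ffm a)⁻¹ ∈ localRing X x'`; every element of the function field of `Z` is a quotient of two elements of `localRing Z (f x')`. `localRing X x'` is noetherian (`X` is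
locally of finite type over `k`), integrally closed (`schemeFin_of`, smooth), with fraction field `K`. `S_Rk1`. -/
def S_HDv : Prop := ∀ (k : Type u) [Field k] (X Z : Scheme.{u}) [IsIntegral X] [IsIntegral Z]
  (gX : X ⟶ Spec (.of k)) [IsProper gX] [Smooth gX] (gZ : Z ⟶ Spec (.of k)) (f : X ⟶ Z)
  (_ : f ≫ gZ = gX) (h : f (genericPoint X) = genericPoint Z),
  letI := ffAlgebra f h
  (∀ y : X.functionField, Transcendental Z.functionField y →
    Algebra.IsAlgebraic (IntermediateField.adjoin Z.functionField {y}) X.functionField) →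
  ∀ V : ValuationSubring X.functionField, (∀ a, ffm f h a ∈ V) → V ≠ ⊤ →
    V.toSubring ∈ localRings X

/-- **SmA** (150 lines). Coordinates from a relative coordinate (algebra).

Proof. (1) `D_k c` for `c ∈ E` is a combination of the `D_k z_i` with coefficients in `E ⊆ O`. (2) For `b ∈ B` write `D_{B/A} b = c • D_{B/A} y` in `Ω[B⁄A]` (`hy`). By the exactness of
`B ⊗ Ω[A⁄k] → Ω[B⁄k] → Ω[B⁄A] → 0` (`KaehlerDifferential.exact_mapBaseChange_map`, `ker_map…`) `D_{B/k} b - c • D_{B/k} y` is a combination of elements `D_{B/k} a`, `a ∈ A`, with coefficients in `B`. Map to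
`Ω[K⁄k]`: `D b` is a combination of `D y`, `D z_i` with coefficients in `O` (`B ⊆ O`, `A ⊆ E`). (3) For `a ∈ O`, `a = β / s` with `β, s ∈ B`, `s⁻¹ ∈ O`: `D a = s⁻¹ D β - β s⁻² D s`. (4) The `D z_i`, `D y` span
`Ω[K⁄k]` (`K` is the fraction field of `B`), which has a basis with `d + 1` elements (`x₀`), so they form a basis. -/
def S_SmA : Prop := ∀ (k A B E K : Type u) [Field k] [CommRing A] [CommRing B] [Field E] [Field K]
  [Algebra k A] [Algebra k B] [Algebra k E] [Algebra k K] [Algebra A B] [Algebra A E] [Algebra A K]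
  [Algebra B K] [Algebra E K] [IsScalarTower k A B] [IsScalarTower k A E] [IsScalarTower k B K]
  [IsScalarTower k E K] [IsScalarTower A B K] [IsScalarTower A E K] [IsDomain B]
  [IsFractionRing B K] (d : ℕ) (x₀ : Fin (d + 1) → K), IsDiffBasis k x₀ → ∀ y : B,
  (∀ b : B, ∃ c : B, D A B b = c • D A B y) → ∀ z : Fin d → E, IsDiffBasis k z →
  ∀ O : Subring K, (∀ a : E, algebraMap E K a ∈ O) → (∀ b : B, algebraMap B K b ∈ O) →
  (∀ a ∈ O, ∃ β s : B, s ≠ 0 ∧ (algebraMap B K s)⁻¹ ∈ O ∧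
    a = algebraMap B K β * (algebraMap B K s)⁻¹) →
  IsCoord k O (snc (im E K z) (algebraMap B K y))

/-- **SmC** (250 lines, uses `S_FFc`, `S_Ctr`, `S_SmA`). Coordinates at the points of the generic fibre.

Proof. `f x` is the generic point of `Z` (`S_Ctr` (2)), so it is in the nonempty open set `U`, and `x ∈ f⁻¹ U`. `f ∣_ U` is smooth of relative dimension one at `x`
(`SmoothOfRelativeDimension.exists_isStandardSmoothOfRelativeDimension`; or compose with the open immersion `U.ι`: `(f ⁻¹ᵁ U).ι ≫ f = (f ∣_ U) ≫ U.ι` is smooth of relative dimension one): there are affine open sets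
`Z' ⊆ Z`, `X' ∋ x` of `X`, `f X' ⊆ Z'`, such that `A = Γ(Z, Z') → B = Γ(X, X')` is standard smooth of relative dimension one (transport from the open subschemes). `SchemeCoordAux.exists_basis` (n = 1): `Ω[B⁄A]` has a basis with one
element `D y`. `A → E`, `B → K` are the maps to the function fields, compatible with `ffm f h` (as in `S_Ctr`); `B ⊆ localRing X x`, and every element of `localRing X x` is `β / s` as in `schemeCoord_of` (copy the end of its
proof). `x₀` from `schemeCoord_of` (`IsCoord.basis`). `S_SmA`, `π = y`. -/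
def S_SmC : Prop := ∀ (k : Type u) [Field k] (X Z : Scheme.{u}) [IsIntegral X] [IsIntegral Z]
  (d : ℕ) (gX : X ⟶ Spec (.of k)) [SmoothOfRelativeDimension (d + 1) gX]
  (gZ : Z ⟶ Spec (.of k)) (f : X ⟶ Z) (_ : f ≫ gZ = gX)
  (h : f (genericPoint X) = genericPoint Z) (U : Z.Opens) (_ : (U : Set Z).Nonempty)
  (_ : SmoothOfRelativeDimension 1 (f ∣_ U)),
  letI := ffAlgebra f h
  letI := functionFieldAlgebra gX
  letI := functionFieldAlgebra gZ
  ∀ z : Fin d → Z.functionField, IsDiffBasis k z → ∀ x : X, (∀ a, ffm f h a ∈ localRing X x) →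
    ∃ π, IsCoord k (localRing X x) (snc (im Z.functionField X.functionField z) π)

/-- **Bas** (80 lines). The case of a curve.

Proof. `F_i = Ψ (fun _ => ω_i)` for the two differentials. For `O ∈ 𝒪`, `O` is a valuation ring `V ⊇ k` (hypothesis, `IsSmoothModel.base`), so `ω_i ∈ regDiff k O` by `TwoForms`, and `F_i = 1 * Ψ (fun _ => ω_i) ^ 1`
is regular of weight one. `F₁ = c F₀` (`Ψ` is linear in its only argument), `F₀ ≠ 0` (`Ω[K⁄k]` is one dimensional, `Ψ ≠ 0`, `ω₀ ≠ 0`: with a basis `D x` of `Ω[K⁄k]` (`IsSmoothModel.complete` for `⊤` and `coord`), `ω₀ = a D x`, `a ≠ 0`,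
`psi_ne_zero`). So `c = F₁ / F₀ ∈ ratioField`, and `K` has transcendence degree one over `k` (`card_transcendenceBasis`, `sepExists_of`) and `c` is transcendental, so `K` is algebraic over `k(c)`. -/
def S_Bas : Prop := ∀ (k K : Type u) [Field k] [Field K] [Algebra k K] [PerfectField k]
  [Algebra.EssFiniteType k K] (Ψ : Ω[K⁄k] [⋀^Fin 1]→ₗ[K] K) (𝒪 : Set (Subring K)), Ψ ≠ 0 →
  IsSmoothModel k 1 𝒪 → (∀ O ∈ 𝒪, ∃ V : ValuationSubring K, V.toSubring = O) → TwoForms k K →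
  GenericallyFinite k (sections k Ψ 𝒪 1)

/-- **Cur** (100 lines, uses `S_Rk1`, `S_Htr`). The local rings of a smooth curve are valuation rings.

Proof. `O = localRing X x` is local (image of the stalk), noetherian, integrally closed, contains `k`, with fraction field `K` (`schemeFin_of`; the stalk is noetherian because `X` is locally of finite type over a field, see
`B/SchemeFinite.lean`). `LocalSubring.exists_le_valuationSubring` gives a valuation ring `V ≥ O` that dominates `O`: `b ∈ O`, `b⁻¹ ∈ V` imply `b⁻¹ ∈ O`. If `V = ⊤` then every nonzero `b ∈ O` has `b⁻¹ ∈ O`, so `O = ⊤`. Otherwise `V = O` by `S_Rk1` for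
`E = k`; the hypothesis of `S_Rk1` is `S_Htr` with `E = k`, `d = 0` (or directly: `K` has transcendence degree one, by `schemeCoord_of` and `card_transcendenceBasis`). -/
def S_Cur : Prop := ∀ (k : Type u) [Field k] [PerfectField k] (X : Scheme.{u}) [IsIntegral X]
  (gX : X ⟶ Spec (.of k)) [IsProper gX] [SmoothOfRelativeDimension 1 gX],
  ∀ O ∈ localRings X, ∃ V : ValuationSubring X.functionField, V.toSubring = O

/-- **Htr** (100 lines). `K` has transcendence degree one over `E`.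

Proof. `sepExists_of` for `E`: `s : Fin d → E` algebraically independent over `k`, `E` algebraic over `k(s)`. Let `y` be transcendental over `E`, so over `k(s) ⊆ K` (`IntermediateField.adjoin k (Set.range (im E K s))`, the image of
`k(s) ⊆ E`). `B.t_Fg` for `K`, `x₀` and the family `im E K s`: `K` is finite over `k(s)(y)`, so algebraic over `E(y)`. -/
def S_Htr : Prop := ∀ (k E K : Type u) [Field k] [Field E] [Field K] [Algebra k E] [Algebra k K]
  [Algebra E K] [IsScalarTower k E K] [PerfectField k] [Algebra.EssFiniteType k E]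
  [Algebra.EssFiniteType k K] (d : ℕ) (z : Fin d → E) (x₀ : Fin (d + 1) → K), IsDiffBasis k z →
  IsDiffBasis k x₀ → ∀ y : K, Transcendental E y →
  Algebra.IsAlgebraic (IntermediateField.adjoin E {y}) K

end Pool.Agent.Lib.MP_8bcb2e_ag.F
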