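import Pool.Agent.Lib.MP_8bcb2e_ag.F.Spec
import Pool.Agent.Lib.MP_8bcb2e_ag.TraceExists
import Pool.Agent.Lib.MP_8bcb2e_ag.PBasis
import Pool.Agent.Lib.MP_8bcb2e_ag.TraceMonomial

/-!
# The twist exists
-/

set_option autoImplicit false

universe u

namespace Pool.Agent.Lib.MP_8bcb2e_ag.F

open KaehlerDifferential AlgebraicGeometry CategoryTheory Pool.Agent.Lib.MP_8bcb2e_ag.B

theorem t_TwE (h1 : S_TwF.{u}) (h2 : S_TwG.{u}) (h3 : S_TwB.{u}) : S_TwE.{u} := by
  intro k E K _ _ _ _ _ _ _ _ p _ _ _ _ e d he z x ΨE ΨK TK hz hx hE hK hT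
  obtain ⟨L, hL1, hL2⟩ := h1 k E K p e d z hz
  have hess : Algebra.EssFiniteType k L := h2 k E K p e d z L hL1 hL2
  have hchK : CharP K p := charP_of_injective_algebraMap (algebraMap k K).injective p
  let φ : K →+* L :=
    { toFun := fun a => ⟨a ^ p ^ e, hL1 a⟩
      map_one' := Subtype.ext (one_pow _)
      map_mul' := fun a b => Subtype.ext (mul_pow _ _ _)
      map_zero' := Subtype.ext (zero_pow (pow_ne_zero e (Fact.out : p.Prime).ne_zero))
      map_add' := fun a b => Subtype.ext (add_pow_char_pow a b p e) }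
  have hφ : ∀ a, algebraMap L K (φ a) = a ^ p ^ e := fun a => rfl
  have hspan : ∀ l : L, ∃ c : (Fin d → Fin (p ^ e)) → K,
      l = ∑ α, φ (c α) * ∏ i, im E L z i ^ (α i : ℕ) := by
    intro l
    obtain ⟨c, hc⟩ := hL2 l.1 l.2
    refine ⟨c, ?_⟩
    apply (algebraMap L K).injective
    rw [map_sum]
    have h4 : algebraMap L K l = l.1 := rfl
    rw [h4, hc]
    refine Finset.sum_congr rfl fun α _ => ?_
    rw [map_mul, map_prod, hφ]
    congr 1
  have hkLK : IsScalarTower k L K := IsScalarTower.of_algebraMap_eq fun c => rfl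
  have hbL := h3 k E L K p e d he φ hφ z x hspan hx
  obtain ⟨b, hb⟩ := hbL
  have hdet : jac b.det (snc (im E L z) (φ x)) = 1 := by
    unfold jac
    have h4 : (fun i => D k L (snc (im E L z) (φ x) i)) = b := funext fun i => (hb i).symm
    rw [h4, Module.Basis.det_self]
  have hne : b.det ≠ 0 := by
    intro h0
    unfold jac at hdet
    rw [h0] at hdet
    exact zero_ne_one hdet
  obtain ⟨TL, hTL, -⟩ := traceExists_of pBasis_of traceMonomial_of k L p (d + 1)
    (snc (im E L z) (φ x)) (Nat.le_add_left 1 d) ⟨b, hb⟩ b.det hne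
  exact ⟨L, hess,
    { z := z
      x := x
      φ := φ
      ΨE := ΨE
      ΨL := b.det
      ΨK := ΨK
      TL := TL
      TK := TK
      he := he
      coe := hφ
      span := hspan
      bE := hz
      bL := ⟨b, hb⟩
      bK := hx
      nE := hE
      nL := hdet
      nK := hK
      trL := hTL
      trK := hT }, rfl, rfl, rfl, rfl, rfl⟩

end Pool.Agent.Lib.MP_8bcb2e_ag.F
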