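import Pool.Agent.Lib.MP_8bcb2e_ag.F.Spec
import Pool.Agent.Lib.MP_8bcb2e_ag.SepExists
import Pool.Agent.Lib.MP_8bcb2e_ag.B.Fg
import Pool.Agent.Lib.MP_8bcb2e_ag.B.Choose

set_option autoImplicit false

universe u

namespace Pool.Agent.Lib.MP_8bcb2e_ag.F

open KaehlerDifferential AlgebraicGeometry CategoryTheory Pool.Agent.Lib.MP_8bcb2e_ag.B

theorem t_Ufr : S_Ufr.{u} := by
  intro k E _ _ _ _ _ d x hd hx V hV
  have htr : Algebra.trdeg k E = d := Fg_trdeg sepExists_of hx
  have hR : Algebra.trdeg k (ratioField k V) = d := by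
    have halg : Algebra.IsAlgebraic (ratioField k V) E := hV
    have h1 := trdeg_add_eq k (ratioField k V) (A := E)
    have h2 : Algebra.trdeg (ratioField k V) E = 0 := _root_.trdeg_eq_zero
    rw [h2, add_zero] at h1
    rw [h1, htr]
  obtain ⟨s, u, hs0, hsV, hu, hind⟩ := t_Choose k E d V hd hR.ge
  refine ⟨s, u, hs0, hsV, hu, hind, ?_⟩
  have htb : IsTranscendenceBasis k u := by
    refine hind.isTranscendenceBasis_of_lift_trdeg_le_of_finite ?_
    rw [htr]
    simp
  exact htb.isAlgebraic_field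

end Pool.Agent.Lib.MP_8bcb2e_ag.F
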